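import Pool.Agent.Lib.MP_bd3044_co.Stm

set_option autoImplicit false

namespace Pool.Agent.Lib.MP_bd3044_co

open Finset

section
variable {q : ℕ} [Fact q.Prime]

theorem qA_two : (2 : ℝ) ≤ (q : ℝ) := by
  exact_mod_cast (Fact.out : q.Prime).two_le

/-- sum over the nonzero residues -/
theorem sum_ne_zero_eq (h : ZMod q → ℝ) :
    (∑ v : ZMod q, if v ≠ 0 then h v else 0) = (∑ v, h v) - h 0 := by
  have : (∑ v : ZMod q, if v ≠ 0 then h v else 0) + (∑ v : ZMod q, if v = 0 then h v else 0)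
      = ∑ v, h v := by
    rw [← Finset.sum_add_distrib]
    refine Finset.sum_congr rfl fun v _ => ?_
    by_cases hv : v = 0 <;> simp [hv]
  rw [← this]
  simp

theorem sum_shift_mul (f : ZMod q → ℝ) (w κ : ZMod q) (hκ : κ ≠ 0) :
    ∑ v, f (w + κ * v) = ∑ v, f v := by
  refine Fintype.sum_bijective (fun v => w + κ * v) ?_ _ _ (fun v => rfl)
  rw [Fintype.bijective_iff_injective_and_card]
  refine ⟨fun a b hab => ?_, rfl⟩
  have h1 : κ * a = κ * b := by simpa using hab
  exact mul_left_cancel₀ hκ h1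

theorem sum_ne_f (f : ZMod q → ℝ) (hf0 : ∑ v, f v = 0) (w κ : ZMod q) (hκ : κ ≠ 0) :
    (∑ v : ZMod q, if v ≠ 0 then f (w + κ * v) else 0) = - f w := by
  rw [sum_ne_zero_eq (fun v => f (w + κ * v)), sum_shift_mul f w κ hκ, hf0]
  simp

theorem sum_ne_const (c : ℝ) :
    (∑ v : ZMod q, if v ≠ 0 then c else 0) = ((q : ℝ) - 1) * c := by
  rw [sum_ne_zero_eq (fun _ => c)]
  simp [ZMod.card]
  ring

theorem card_ne_le (S : Finset (ZMod q)) (hS : ∀ κ ∈ S, κ ≠ 0) : (S.card : ℝ) ≤ (q : ℝ) - 1 := by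
  have h1 : S ⊆ Finset.univ.erase (0 : ZMod q) := by
    intro κ hκ
    simp [hS κ hκ]
  have h2 := Finset.card_le_card h1
  rw [Finset.card_erase_of_mem (Finset.mem_univ _), Finset.card_univ, ZMod.card] at h2
  have h3 : 1 ≤ q := (Fact.out : q.Prime).one_lt.le
  have h4 : S.card + 1 ≤ q := by omega
  have : (S.card : ℝ) + 1 ≤ q := by exact_mod_cast h4
  linarith

theorem card_pairs_le (S : Finset (ZMod q × ZMod q)) (hS : ∀ p ∈ S, p.2 ≠ 0) :
    (S.card : ℝ) ≤ (q : ℝ) * ((q : ℝ) - 1) := by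
  have h1 : S ⊆ (Finset.univ : Finset (ZMod q)) ×ˢ Finset.univ.erase (0 : ZMod q) := by
    intro p hp
    simp [hS p hp]
  have h2 := Finset.card_le_card h1
  have h3 := card_ne_le (q := q) (Finset.univ.erase (0 : ZMod q)) (by simp)
  rw [Finset.card_product, Finset.card_univ, ZMod.card] at h2
  have h4 : (S.card : ℝ) ≤ (q : ℝ) * ((Finset.univ.erase (0 : ZMod q)).card : ℝ) := by
    exact_mod_cast h2
  refine h4.trans ?_
  exact mul_le_mul_of_nonneg_left h3 (by positivity)

theorem card_pairs_nz (S : Finset (ZMod q × ZMod q)) (hS : ∀ p ∈ S, p.2 ≠ 0) :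
    ((S.filter (fun p => p.1 ≠ 0)).card : ℝ) ≤ ((q : ℝ) - 1) * ((q : ℝ) - 1) := by
  have h1 : S.filter (fun p => p.1 ≠ 0) ⊆
      (Finset.univ.erase (0 : ZMod q)) ×ˢ Finset.univ.erase (0 : ZMod q) := by
    intro p hp
    rw [Finset.mem_filter] at hp
    simp [hS p hp.1, hp.2]
  have h2 := Finset.card_le_card h1
  have h3 := card_ne_le (q := q) (Finset.univ.erase (0 : ZMod q)) (by simp)
  rw [Finset.card_product] at h2
  have h4 : ((S.filter (fun p => p.1 ≠ 0)).card : ℝ) ≤
      ((Finset.univ.erase (0 : ZMod q)).card : ℝ) * ((Finset.univ.erase (0 : ZMod q)).card : ℝ) := by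
    exact_mod_cast h2
  refine h4.trans ?_
  have h5 := qA_two (q := q)
  exact mul_le_mul h3 h3 (by positivity) (by linarith)

theorem card_pairs_z (S : Finset (ZMod q × ZMod q)) (hS : ∀ p ∈ S, p.2 ≠ 0) :
    ((S.filter (fun p => ¬ p.1 ≠ 0)).card : ℝ) ≤ ((q : ℝ) - 1) := by
  have h1 : S.filter (fun p => ¬ p.1 ≠ 0) ⊆
      ({0} : Finset (ZMod q)) ×ˢ Finset.univ.erase (0 : ZMod q) := by
    intro p hp
    rw [Finset.mem_filter] at hp
    have hp2 : p.1 = 0 := by simpa using hp.2
    rw [Finset.mem_product]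
    exact ⟨by rw [Finset.mem_singleton]; exact hp2,
      Finset.mem_erase.2 ⟨hS p hp.1, Finset.mem_univ _⟩⟩
  have h2 := Finset.card_le_card h1
  have h3 := card_ne_le (q := q) (Finset.univ.erase (0 : ZMod q)) (by simp)
  rw [Finset.card_product, Finset.card_singleton, one_mul] at h2
  have h4 : ((S.filter (fun p => ¬ p.1 ≠ 0)).card : ℝ) ≤
      ((Finset.univ.erase (0 : ZMod q)).card : ℝ) := by
    exact_mod_cast h2
  exact h4.trans h3

theorem abs_sum_le_card {ι : Type*} (S : Finset ι) (h : ι → ℝ) (hh : ∀ i ∈ S, |h i| ≤ 1) :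
    |∑ i ∈ S, h i| ≤ (S.card : ℝ) := by
  refine (Finset.abs_sum_le_sum_abs _ _).trans ?_
  refine (Finset.sum_le_sum hh).trans ?_
  simp

/-- one factor: exponential of a bounded variable with small mean -/
theorem one_step (lam : ℝ) (hlam : |lam| * (3 * (q : ℝ) ^ 2) ≤ 1) (Z : ZMod q → ℝ)
    (hZ : ∀ v, |Z v| ≤ 3 * (q : ℝ) ^ 2)
    (hZ0 : |∑ v : ZMod q, if v ≠ 0 then Z v else 0| ≤ 3 * ((q : ℝ) - 1)) :
    (∑ v : ZMod q, if v ≠ 0 then Real.exp (lam * Z v) else 0) ≤
      ((q : ℝ) - 1) * (1 + 3 * |lam| + 9 * (q : ℝ) ^ 4 * lam ^ 2) := by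
  have hq := qA_two (q := q)
  have h1 : ∀ v, Real.exp (lam * Z v) ≤ 1 + lam * Z v + 9 * (q : ℝ) ^ 4 * lam ^ 2 := by
    intro v
    have ha : |lam * Z v| ≤ 1 := by
      rw [abs_mul]
      exact (mul_le_mul_of_nonneg_left (hZ v) (abs_nonneg _)).trans hlam
    have hb := Real.abs_exp_sub_one_sub_id_le ha
    have hc : Real.exp (lam * Z v) - 1 - lam * Z v ≤ (lam * Z v) ^ 2 := (le_abs_self _).trans hb
    have hd : (lam * Z v) ^ 2 ≤ 9 * (q : ℝ) ^ 4 * lam ^ 2 := by
      have : (Z v) ^ 2 ≤ (3 * (q : ℝ) ^ 2) ^ 2 := by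
        rw [← sq_abs]
        exact pow_le_pow_left₀ (abs_nonneg _) (hZ v) 2
      nlinarith [sq_nonneg lam]
    linarith
  have h2 : (∑ v : ZMod q, if v ≠ 0 then Real.exp (lam * Z v) else 0) ≤
      ∑ v : ZMod q, if v ≠ 0 then (1 + lam * Z v + 9 * (q : ℝ) ^ 4 * lam ^ 2) else 0 := by
    refine Finset.sum_le_sum fun v _ => ?_
    by_cases hv : v ≠ 0
    · rw [if_pos hv, if_pos hv]; exact h1 v
    · rw [if_neg hv, if_neg hv]
  refine h2.trans ?_
  have h3 : (∑ v : ZMod q, if v ≠ 0 then (1 + lam * Z v + 9 * (q : ℝ) ^ 4 * lam ^ 2) else 0)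
      = (∑ v : ZMod q, if v ≠ 0 then (1 + 9 * (q : ℝ) ^ 4 * lam ^ 2) else 0)
        + lam * ∑ v : ZMod q, if v ≠ 0 then Z v else 0 := by
    rw [Finset.mul_sum, ← Finset.sum_add_distrib]
    refine Finset.sum_congr rfl fun v _ => ?_
    by_cases hv : v ≠ 0
    · rw [if_pos hv, if_pos hv, if_pos hv]; ring
    · rw [if_neg hv, if_neg hv, if_neg hv]; ring
  rw [h3, sum_ne_const]
  have h4 : lam * (∑ v : ZMod q, if v ≠ 0 then Z v else 0) ≤ |lam| * (3 * ((q : ℝ) - 1)) := by
    refine (le_abs_self _).trans ?_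
    rw [abs_mul]
    exact mul_le_mul_of_nonneg_left hZ0 (abs_nonneg _)
  nlinarith

/-- Peeling off the first variable in `Psi`. -/
theorem Psi_cons (n : ℕ) (f : ZMod q → ℝ) (σ : ℕ → ZMod q) (FS : ℕ → Finset (ZMod q × ZMod q))
    (OS : ℕ → Finset (ZMod q)) (w v : ZMod q) (t : Fin n → ZMod q) :
    Psi (n + 1) f σ FS OS w (ext (Fin.cons v t : Fin (n + 1) → ZMod q)) =
      (∑ p ∈ FS 0, f (w + p.1 * v + p.2 * ext t 0)) + (∑ κ ∈ OS 0, f (w + κ * v)) +
        Psi n f (fun a => σ (a + 1)) (fun a => FS (a + 1)) (fun a => OS (a + 1)) (w + σ 0 * v)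
          (ext t) := by
  have h0 : ext (Fin.cons v t : Fin (n + 1) → ZMod q) 0 = v := by
    simp [ext]
  have h1 : ∀ a, ext (Fin.cons v t : Fin (n + 1) → ZMod q) (a + 1) = ext t a := by
    intro a
    unfold ext
    by_cases h : a < n
    · rw [dif_pos (by omega : a + 1 < n + 1), dif_pos h]
      rfl
    · rw [dif_neg (by omega : ¬ a + 1 < n + 1), dif_neg h]
  have h2 : ∀ a, rho σ w (ext (Fin.cons v t : Fin (n + 1) → ZMod q)) (a + 1)
      = rho (fun a => σ (a + 1)) (w + σ 0 * v) (ext t) a := by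
    intro a
    unfold rho
    rw [Finset.sum_range_succ', h0]
    simp only [h1]
    ring
  unfold Psi
  rw [Finset.sum_range_succ']
  simp only [h2, h1, h0]
  have h3 : rho σ w (ext (Fin.cons v t : Fin (n + 1) → ZMod q)) 0 = w := by
    simp [rho]
  rw [h3]
  ring

theorem key (f : ZMod q → ℝ) (hf0 : ∑ v, f v = 0) (hf1 : ∀ v, |f v| ≤ 1) (lam : ℝ)
    (hlam : |lam| * (3 * (q : ℝ) ^ 2) ≤ 1) :
    ∀ (n : ℕ) (σ : ℕ → ZMod q) (FS : ℕ → Finset (ZMod q × ZMod q)) (OS : ℕ → Finset (ZMod q))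
      (w : ZMod q) (P : ZMod q → ℝ) (H : ℝ),
      (∀ a, ∀ p ∈ FS a, p.2 ≠ 0) → (∀ a, ∀ κ ∈ OS a, κ ≠ 0) → (∀ a, n ≤ a + 1 → FS a = ∅) →
      (∀ v, |P v| ≤ (q : ℝ) * ((q : ℝ) - 1)) → |H| ≤ q →
      (∑ v : ZMod q, if v ≠ 0 then P v else 0) = ((q : ℝ) - 1) * H →
      (n = 0 → (∀ v, P v = 0) ∧ H = 0) →
      (∑ t : Fin n → ZMod q, if ∀ a, t a ≠ 0 then
          Real.exp (lam * (P (ext t 0) + Psi n f σ FS OS w (ext t))) else 0) ≤
        Real.exp (lam * H) *
          (((q : ℝ) - 1) * (1 + 3 * |lam| + 9 * (q : ℝ) ^ 4 * lam ^ 2)) ^ n := by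
  have hq := qA_two (q := q)
  intro n
  induction n with
  | zero =>
    intro σ FS OS w P H _ _ _ _ _ _ h0
    obtain ⟨hP, hH⟩ := h0 rfl
    simp [hP, hH, Psi]
  | succ n ih =>
    intro σ FS OS w P H hFS hOS hFSe hP hH hPH _
    -- rewrite the sum
    have e1 : (∑ t : Fin (n + 1) → ZMod q, if ∀ a, t a ≠ 0 then
          Real.exp (lam * (P (ext t 0) + Psi (n + 1) f σ FS OS w (ext t))) else 0) =
        ∑ v : ZMod q, ∑ t : Fin n → ZMod q, if v ≠ 0 then (if ∀ a, t a ≠ 0 then
          Real.exp (lam * (P v + ∑ κ ∈ OS 0, f (w + κ * v))) *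
          Real.exp (lam * ((∑ p ∈ FS 0, f (w + p.1 * v + p.2 * ext t 0)) +
            Psi n f (fun a => σ (a + 1)) (fun a => FS (a + 1)) (fun a => OS (a + 1))
              (w + σ 0 * v) (ext t))) else 0) else 0 := by
      rw [← Equiv.sum_comp (Fin.consEquiv (fun _ : Fin (n + 1) => ZMod q)), Fintype.sum_prod_type]
      refine Finset.sum_congr rfl fun v _ => Finset.sum_congr rfl fun t _ => ?_
      have hE : (Fin.consEquiv (fun _ : Fin (n + 1) => ZMod q)) (v, t)
          = (Fin.cons v t : Fin (n + 1) → ZMod q) := rfl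
      rw [hE]
      have hc : (∀ a, (Fin.cons v t : Fin (n + 1) → ZMod q) a ≠ 0) ↔ (v ≠ 0 ∧ ∀ a, t a ≠ 0) := by
        rw [Fin.forall_fin_succ]
        simp
      have h0 : ext (Fin.cons v t : Fin (n + 1) → ZMod q) 0 = v := by
        simp [ext]
      by_cases hv : v ≠ 0
      · by_cases ht : ∀ a, t a ≠ 0
        · rw [if_pos (hc.2 ⟨hv, ht⟩), if_pos hv, if_pos ht, ← Real.exp_add, Psi_cons, h0]
          congr 1
          ring
        · rw [if_neg (fun h => ht (hc.1 h).2), if_pos hv, if_neg ht]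
      · rw [if_neg (fun h => hv (hc.1 h).1), if_neg hv]
    rw [e1]
    -- the function H'
    set H' : ZMod q → ℝ := fun v => -(∑ p ∈ FS 0, f (w + p.1 * v)) / ((q : ℝ) - 1) with hH'
    have hq1 : (0 : ℝ) < (q : ℝ) - 1 := by linarith
    have hFc := card_pairs_le (q := q) (FS 0) (hFS 0)
    have hOc := card_ne_le (q := q) (OS 0) (hOS 0)
    have hH'b : ∀ v, |H' v| ≤ q := by
      intro v
      rw [hH']
      simp only
      rw [abs_div, abs_neg, abs_of_pos hq1, div_le_iff₀ hq1]
      exact (abs_sum_le_card (FS 0) (fun p => f (w + p.1 * v)) (fun p _ => hf1 _)).trans hFc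
    have hstep : ∀ v : ZMod q, (∑ t : Fin n → ZMod q, if v ≠ 0 then (if ∀ a, t a ≠ 0 then
          Real.exp (lam * (P v + ∑ κ ∈ OS 0, f (w + κ * v))) *
          Real.exp (lam * ((∑ p ∈ FS 0, f (w + p.1 * v + p.2 * ext t 0)) +
            Psi n f (fun a => σ (a + 1)) (fun a => FS (a + 1)) (fun a => OS (a + 1))
              (w + σ 0 * v) (ext t))) else 0) else 0) ≤
        (Real.exp (lam * H) * (((q : ℝ) - 1) * (1 + 3 * |lam| + 9 * (q : ℝ) ^ 4 * lam ^ 2)) ^ n) *
          (if v ≠ 0 then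
            Real.exp (lam * ((P v - H) + (∑ κ ∈ OS 0, f (w + κ * v)) + H' v)) else 0) := by
      intro v
      by_cases hv : v ≠ 0
      · simp only [if_pos hv]
        have hI := ih (fun a => σ (a + 1)) (fun a => FS (a + 1)) (fun a => OS (a + 1))
          (w + σ 0 * v) (fun t' => ∑ p ∈ FS 0, f (w + p.1 * v + p.2 * t')) (H' v)
          (fun a => hFS (a + 1)) (fun a => hOS (a + 1)) (fun a ha => hFSe (a + 1) (by omega))
          (fun t' => (abs_sum_le_card (FS 0) (fun p => f (w + p.1 * v + p.2 * t'))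
            (fun p _ => hf1 _)).trans hFc) (hH'b v)
          (by
            have e2 : (∑ t' : ZMod q, if t' ≠ 0 then
                (∑ p ∈ FS 0, f (w + p.1 * v + p.2 * t')) else 0) =
                ∑ p ∈ FS 0, ∑ t' : ZMod q, if t' ≠ 0 then f (w + p.1 * v + p.2 * t') else 0 := by
              rw [Finset.sum_comm]
              refine Finset.sum_congr rfl fun t' _ => ?_
              by_cases ht : t' ≠ 0
              · simp only [if_pos ht]
              · simp only [if_neg ht, Finset.sum_const_zero]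
            rw [e2]
            have e3 : ∀ p ∈ FS 0, (∑ t' : ZMod q, if t' ≠ 0 then f (w + p.1 * v + p.2 * t') else 0)
                = - f (w + p.1 * v) := fun p hp =>
              sum_ne_f f hf0 (w + p.1 * v) p.2 (hFS 0 p hp)
            rw [Finset.sum_congr rfl e3, Finset.sum_neg_distrib]
            simp only [hH']
            rw [mul_comm, div_mul_cancel₀ _ hq1.ne'])
          (by
            intro hn
            have : FS 0 = ∅ := hFSe 0 (by omega)
            refine ⟨fun t' => by simp [this], by simp [hH', this]⟩)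
        have e4 : (∑ t : Fin n → ZMod q, if ∀ a, t a ≠ 0 then
            Real.exp (lam * (P v + ∑ κ ∈ OS 0, f (w + κ * v))) *
            Real.exp (lam * ((∑ p ∈ FS 0, f (w + p.1 * v + p.2 * ext t 0)) +
              Psi n f (fun a => σ (a + 1)) (fun a => FS (a + 1)) (fun a => OS (a + 1))
                (w + σ 0 * v) (ext t))) else 0) =
            Real.exp (lam * (P v + ∑ κ ∈ OS 0, f (w + κ * v))) *
            ∑ t : Fin n → ZMod q, if ∀ a, t a ≠ 0 then
            Real.exp (lam * ((∑ p ∈ FS 0, f (w + p.1 * v + p.2 * ext t 0)) +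
              Psi n f (fun a => σ (a + 1)) (fun a => FS (a + 1)) (fun a => OS (a + 1))
                (w + σ 0 * v) (ext t))) else 0 := by
          rw [Finset.mul_sum]
          refine Finset.sum_congr rfl fun t _ => ?_
          by_cases ht : ∀ a, t a ≠ 0
          · rw [if_pos ht, if_pos ht]
          · rw [if_neg ht, if_neg ht, mul_zero]
        rw [e4]
        refine (mul_le_mul_of_nonneg_left hI (Real.exp_pos _).le).trans (le_of_eq ?_)
        have e5 : Real.exp (lam * (P v + ∑ κ ∈ OS 0, f (w + κ * v))) * Real.exp (lam * H' v) =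
            Real.exp (lam * H) *
              Real.exp (lam * ((P v - H) + (∑ κ ∈ OS 0, f (w + κ * v)) + H' v)) := by
          rw [← Real.exp_add, ← Real.exp_add]
          congr 1
          ring
        rw [← mul_assoc, e5]
        ring
      · simp only [if_neg hv, Finset.sum_const_zero, mul_zero]
        exact le_refl _
    refine (Finset.sum_le_sum fun v _ => hstep v).trans ?_
    rw [← Finset.mul_sum]
    have hfin := one_step (q := q) lam hlam
      (fun v => (P v - H) + (∑ κ ∈ OS 0, f (w + κ * v)) + H' v)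
      (by
        intro v
        have a1 := hP v
        have a2 := (abs_sum_le_card (OS 0) (fun κ => f (w + κ * v)) (fun p _ => hf1 _)).trans hOc
        have a3 := hH'b v
        have a4 : |(P v - H) + (∑ κ ∈ OS 0, f (w + κ * v)) + H' v| ≤
            |P v| + |H| + |∑ κ ∈ OS 0, f (w + κ * v)| + |H' v| := by
          have b1 := abs_add_le ((P v - H) + (∑ κ ∈ OS 0, f (w + κ * v))) (H' v)
          have b2 := abs_add_le (P v - H) (∑ κ ∈ OS 0, f (w + κ * v))
          have b3 := abs_sub (P v) H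
          linarith
        refine a4.trans ?_
        nlinarith)
      (by
        have e6 : (∑ v : ZMod q, if v ≠ 0 then
            ((P v - H) + (∑ κ ∈ OS 0, f (w + κ * v)) + H' v) else 0) =
            ((∑ v : ZMod q, if v ≠ 0 then P v else 0) - (∑ v : ZMod q, if v ≠ 0 then H else 0)) +
            (∑ v : ZMod q, if v ≠ 0 then (∑ κ ∈ OS 0, f (w + κ * v)) else 0) +
            (∑ v : ZMod q, if v ≠ 0 then H' v else 0) := by
          rw [← Finset.sum_sub_distrib, ← Finset.sum_add_distrib, ← Finset.sum_add_distrib]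
          refine Finset.sum_congr rfl fun v _ => ?_
          by_cases hv : v ≠ 0
          · simp only [if_pos hv]
          · simp only [if_neg hv]; ring
        rw [e6, hPH, sum_ne_const, sub_self, zero_add]
        -- OS part
        have e7 : (∑ v : ZMod q, if v ≠ 0 then (∑ κ ∈ OS 0, f (w + κ * v)) else 0) =
            ∑ κ ∈ OS 0, (- f w) := by
          have e8 : (∑ v : ZMod q, if v ≠ 0 then (∑ κ ∈ OS 0, f (w + κ * v)) else 0) =
              ∑ κ ∈ OS 0, ∑ v : ZMod q, if v ≠ 0 then f (w + κ * v) else 0 := by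
            rw [Finset.sum_comm]
            refine Finset.sum_congr rfl fun t' _ => ?_
            by_cases ht : t' ≠ 0
            · simp only [if_pos ht]
            · simp only [if_neg ht, Finset.sum_const_zero]
          rw [e8]
          exact Finset.sum_congr rfl fun κ hκ => sum_ne_f f hf0 w κ (hOS 0 κ hκ)
        have b1 : |∑ v : ZMod q, if v ≠ 0 then (∑ κ ∈ OS 0, f (w + κ * v)) else 0| ≤
            (q : ℝ) - 1 := by
          rw [e7]
          exact (abs_sum_le_card (OS 0) (fun _ => - f w)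
            (fun _ _ => by rw [abs_neg]; exact hf1 _)).trans hOc
        -- H' part
        have e9 : (∑ v : ZMod q, if v ≠ 0 then H' v else 0) =
            -(∑ p ∈ FS 0, ∑ v : ZMod q, if v ≠ 0 then f (w + p.1 * v) else 0) / ((q : ℝ) - 1) := by
          rw [Finset.sum_comm, ← Finset.sum_neg_distrib, Finset.sum_div]
          refine Finset.sum_congr rfl fun v _ => ?_
          by_cases hv : v ≠ 0
          · simp only [if_pos hv, hH']
          · simp only [if_neg hv, Finset.sum_const_zero, neg_zero, zero_div]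
        have b2 : |∑ v : ZMod q, if v ≠ 0 then H' v else 0| ≤ 2 * ((q : ℝ) - 1) := by
          rw [e9, abs_div, abs_neg, abs_of_pos hq1, div_le_iff₀ hq1]
          rw [← Finset.sum_filter_add_sum_filter_not (FS 0) (fun p => p.1 ≠ 0)]
          refine (abs_add_le _ _).trans ?_
          have c1 : |∑ p ∈ (FS 0).filter (fun p => p.1 ≠ 0),
              ∑ v : ZMod q, if v ≠ 0 then f (w + p.1 * v) else 0| ≤
              ((q : ℝ) - 1) * ((q : ℝ) - 1) := by
            refine (abs_sum_le_card _ _ ?_).trans (card_pairs_nz (q := q) (FS 0) (hFS 0))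
            intro p hp
            rw [Finset.mem_filter] at hp
            rw [sum_ne_f f hf0 w p.1 hp.2, abs_neg]
            exact hf1 _
          have c2 : |∑ p ∈ (FS 0).filter (fun p => ¬ p.1 ≠ 0),
              ∑ v : ZMod q, if v ≠ 0 then f (w + p.1 * v) else 0| ≤
              ((q : ℝ) - 1) * ((q : ℝ) - 1) := by
            have c3 : ∀ p ∈ (FS 0).filter (fun p => ¬ p.1 ≠ 0),
                (∑ v : ZMod q, if v ≠ 0 then f (w + p.1 * v) else 0) = ((q : ℝ) - 1) * f w := by
              intro p hp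
              rw [Finset.mem_filter] at hp
              have hp1 : p.1 = 0 := by simpa using hp.2
              simp only [hp1, zero_mul, add_zero]
              exact sum_ne_const (f w)
            rw [Finset.sum_congr rfl c3, ← Finset.mul_sum, abs_mul, abs_of_pos hq1]
            refine mul_le_mul_of_nonneg_left ?_ hq1.le
            exact (abs_sum_le_card _ _ (fun _ _ => hf1 _)).trans
              (card_pairs_z (q := q) (FS 0) (hFS 0))
          linarith
        have b3 := abs_add_le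
          (∑ v : ZMod q, if v ≠ 0 then (∑ κ ∈ OS 0, f (w + κ * v)) else 0)
          (∑ v : ZMod q, if v ≠ 0 then H' v else 0)
        linarith)
    have hpos : 0 ≤ Real.exp (lam * H) *
        (((q : ℝ) - 1) * (1 + 3 * |lam| + 9 * (q : ℝ) ^ 4 * lam ^ 2)) ^ n := by
      have : 0 ≤ 1 + 3 * |lam| + 9 * (q : ℝ) ^ 4 * lam ^ 2 := by positivity
      have := mul_nonneg hq1.le this
      positivity
    refine (mul_le_mul_of_nonneg_left hfin hpos).trans (le_of_eq ?_)
    rw [pow_succ]
    ring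

end

theorem t_A : S_A := by
  intro q hqp M f σ FS OS w lam hf0 hf1 hFS hOS hFSe hlam
  have hq := qA_two (q := q)
  have h := key (q := q) f hf0 hf1 lam hlam M σ FS OS w (fun _ => 0) 0 hFS hOS hFSe
    (fun v => by
      rw [abs_zero]
      have : (0 : ℝ) ≤ (q : ℝ) - 1 := by linarith
      positivity) (by rw [abs_zero]; positivity)
    (by simp) (fun _ => ⟨fun _ => rfl, rfl⟩)
  simp only [zero_add, mul_zero, Real.exp_zero, one_mul] at h
  refine h.trans ?_
  rw [mul_pow]
  have hq1 : (0 : ℝ) ≤ ((q : ℝ) - 1) ^ M := pow_nonneg (by linarith) M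
  refine mul_le_mul_of_nonneg_left ?_ hq1
  have h1 : 1 + 3 * |lam| + 9 * (q : ℝ) ^ 4 * lam ^ 2 ≤
      Real.exp (3 * |lam| + 9 * (q : ℝ) ^ 4 * lam ^ 2) := by
    have := Real.add_one_le_exp (3 * |lam| + 9 * (q : ℝ) ^ 4 * lam ^ 2)
    linarith
  have h2 : 0 ≤ 1 + 3 * |lam| + 9 * (q : ℝ) ^ 4 * lam ^ 2 := by positivity
  calc (1 + 3 * |lam| + 9 * (q : ℝ) ^ 4 * lam ^ 2) ^ M
      ≤ (Real.exp (3 * |lam| + 9 * (q : ℝ) ^ 4 * lam ^ 2)) ^ M := pow_le_pow_left₀ h2 h1 M
    _ = Real.exp (M * (3 * |lam| + 9 * (q : ℝ) ^ 4 * lam ^ 2)) := by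
        rw [← Real.exp_nat_mul]

end Pool.Agent.Lib.MP_bd3044_co
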