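import Pool.Agent.Lib.MP_bd3044_co.Stm

set_option autoImplicit false

namespace Pool.Agent.Lib.MP_bd3044_co

open Finset

theorem t_B : S_B := by
  intro q hq m M g hM h0 h1 h
  obtain ⟨k, rfl⟩ := Nat.exists_eq_add_of_le hM
  -- the square part
  let A : Matrix (Fin M) (Fin M) (ZMod q) := fun a l => g a (Fin.castAdd k l)
  have hA : A.BlockTriangular id := by
    intro a l hl
    exact h0 a _ (by simpa using hl)
  have hdet : IsUnit A := by
    rw [Matrix.isUnit_iff_isUnit_det, Matrix.det_of_upperTriangular hA, isUnit_iff_ne_zero,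
      Finset.prod_ne_zero_iff]
    intro a _
    exact h1 a _ (by simp)
  have hinj := Matrix.mulVec_injective_of_isUnit hdet
  have key : ∀ (w : Fin M → ZMod q) (z : Fin k → ZMod q) (a : Fin M),
      (Fin.append w z) ⬝ᵥ g a = A.mulVec w a + ∑ i : Fin k, z i * g a (Fin.natAdd M i) := by
    intro w z a
    simp only [dotProduct, Matrix.mulVec, Fin.sum_univ_add, Fin.append_left, Fin.append_right, A]
    congr 1
    exact Finset.sum_congr rfl fun i _ => mul_comm _ _
  have hbij : ∀ z : Fin k → ZMod q, Function.Bijective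
      (fun (w : Fin M → ZMod q) (a : Fin M) => (Fin.append w z) ⬝ᵥ g a) := by
    intro z
    rw [← Finite.injective_iff_bijective]
    intro w w' hw
    apply hinj
    funext a
    have := congrFun hw a
    simp only [key] at this
    exact add_right_cancel this
  rw [← (Fin.appendEquiv M k).sum_comp, Fintype.sum_prod_type_right]
  have : ∀ z : Fin k → ZMod q,
      ∑ w : Fin M → ZMod q, h (fun a => (Fin.appendEquiv M k (w, z)) ⬝ᵥ g a) = ∑ t, h t := by
    intro z
    exact (hbij z).sum_comp h
  rw [Finset.sum_congr rfl fun z _ => this z, Finset.sum_const, nsmul_eq_mul]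
  congr 1
  rw [Finset.card_univ, Fintype.card_fun, ZMod.card, Fintype.card_fin, Nat.add_sub_cancel_left]
  push_cast
  rfl

end Pool.Agent.Lib.MP_bd3044_co
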