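import Pool.Agent.Lib.MP_bd3044_co.Stm

set_option autoImplicit false

namespace Pool.Agent.Lib.MP_bd3044_co

open Finset

/-- extension of a vector on a window by zero -/
def cEv {q m : ℕ} (a k : ℕ) (w : Fin k → ZMod q) : V q m :=
  fun l => if h : a ≤ (l : ℕ) ∧ (l : ℕ) - a < k then w ⟨(l : ℕ) - a, h.2⟩ else 0

theorem cEv_add {q m : ℕ} (a k : ℕ) (w w' : Fin k → ZMod q) :
    (cEv a k (w + w') : V q m) = cEv a k w + cEv a k w' := by
  funext l
  simp only [cEv, Pi.add_apply]
  split_ifs <;> simp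

theorem cEv_smul {q m : ℕ} (a k : ℕ) (c : ZMod q) (w : Fin k → ZMod q) :
    (cEv a k (c • w) : V q m) = c • cEv a k w := by
  funext l
  simp only [cEv, Pi.smul_apply]
  split_ifs <;> simp

theorem c_exists {q : ℕ} [Fact q.Prime] {m : ℕ} (r : ℕ → V q m) (k a : ℕ) (h : a + k < m) :
    ∃ n : V q m, n ≠ 0 ∧ Win a (k + 1) n ∧ ∀ j < k, r j ⬝ᵥ n = 0 := by
  let f : (Fin (k + 1) → ZMod q) →ₗ[ZMod q] (Fin k → ZMod q) :=
    { toFun := fun w j => r j ⬝ᵥ (cEv a (k + 1) w : V q m)
      map_add' := by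
        intro w w'
        funext j
        simp only [cEv_add, dotProduct_add, Pi.add_apply]
      map_smul' := by
        intro c w
        funext j
        simp only [cEv_smul, dotProduct_smul, Pi.smul_apply, RingHom.id_apply] }
  have hk : LinearMap.ker f ≠ ⊥ := by
    apply LinearMap.ker_ne_bot_of_finrank_lt
    simp
  obtain ⟨w, hw, hw0⟩ := Submodule.exists_mem_ne_zero_of_ne_bot hk
  refine ⟨cEv a (k + 1) w, ?_, ?_, ?_⟩
  · intro h0
    apply hw0
    funext i
    have h1 := congrFun h0 ⟨a + i, by omega⟩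
    simp only [cEv, Pi.zero_apply] at h1
    rw [dif_pos ⟨by omega, by omega⟩] at h1
    have h2 : (⟨a + (i : ℕ) - a, by omega⟩ : Fin (k + 1)) = i := by
      apply Fin.ext
      simp
    rw [h2] at h1
    simpa using h1
  · intro l hl
    simp only [cEv]
    rw [dif_neg]
    intro hh
    omega
  · intro j hj
    have h1 := congrFun (LinearMap.mem_ker.1 hw) ⟨j, hj⟩
    exact h1

theorem c_ends {q : ℕ} {m : ℕ} (r : ℕ → V q m) (k : ℕ) (hg : Gd r k) (a : ℕ) (h : a + k < m)
    (n : V q m) (h0 : n ≠ 0) (hw : Win a (k + 1) n) (ho : ∀ j < k, r j ⬝ᵥ n = 0) :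
    (∀ l : Fin m, (l : ℕ) = a → n l ≠ 0) ∧ (∀ l : Fin m, (l : ℕ) = a + k → n l ≠ 0) := by
  constructor
  · intro l hl hz
    apply h0
    apply hg (a + 1) (by omega) n _ ho
    intro l' hl'
    by_cases h1 : (l' : ℕ) = a
    · have : l' = l := Fin.ext (by omega)
      rw [this]; exact hz
    · apply hw
      omega
  · intro l hl hz
    apply h0
    apply hg a (by omega) n _ ho
    intro l' hl'
    by_cases h1 : (l' : ℕ) = a + k
    · have : l' = l := Fin.ext (by omega)
      rw [this]; exact hz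
    · apply hw
      omega

theorem c_mult {q : ℕ} [Fact q.Prime] {m : ℕ} (r : ℕ → V q m) (k : ℕ) (hg : Gd r k)
    (g : ℕ → V q m) (hG : IsG r k g) (a : ℕ) (h : a + k < m) (n : V q m) (hw : Win a (k + 1) n)
    (ho : ∀ j < k, r j ⬝ᵥ n = 0) : ∃ c : ZMod q, n = c • g a := by
  obtain ⟨h1, h2, h3, h4⟩ := hG a h
  have ha : g a ⟨a, by omega⟩ ≠ 0 := h3 _ rfl
  refine ⟨n ⟨a, by omega⟩ / g a ⟨a, by omega⟩, ?_⟩
  set c := n ⟨a, by omega⟩ / g a ⟨a, by omega⟩ with hc
  have hz : n - c • g a = 0 := by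
    apply hg (a + 1) (by omega)
    · intro l hl
      by_cases hla : (l : ℕ) = a
      · have : l = ⟨a, by omega⟩ := Fin.ext hla
        rw [this]
        simp only [Pi.sub_apply, Pi.smul_apply, smul_eq_mul, hc]
        rw [div_mul_cancel₀ _ ha, sub_self]
      · have e1 : n l = 0 := hw l (by omega)
        have e2 : g a l = 0 := h1 l (by omega)
        simp [e1, e2]
    · intro j hj
      rw [dotProduct_sub, dotProduct_smul, ho j hj, h2 j hj]
      simp
  exact sub_eq_zero.1 hz

theorem t_C : S_C := by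
  intro q _ m r k hk hg
  refine ⟨?_, ?_, ?_⟩
  · choose n hn using fun (p : {a : ℕ // a + k < m}) => c_exists r k p.1 p.2
    refine ⟨fun a => if h : a + k < m then n ⟨a, h⟩ else 0, ?_⟩
    intro a ha
    simp only [dif_pos ha]
    obtain ⟨h1, h2, h3⟩ := hn ⟨a, ha⟩
    obtain ⟨h4, h5⟩ := c_ends r k hg a ha _ h1 h2 h3
    exact ⟨h2, h3, h4, h5⟩
  · intro g hG ρ
    constructor
    · intro hgd a ha h0
      obtain ⟨h1, h2, h3, h4⟩ := hG a ha
      have hz : g a = 0 := by
        apply hgd a (by omega) (g a) h1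
        intro j hj
        by_cases hjk : j = k
        · rw [hjk, Function.update_self]
          exact h0
        · rw [Function.update_of_ne hjk]
          exact h2 j (by omega)
      exact h3 ⟨a, by omega⟩ rfl (by rw [hz]; rfl)
    · intro hρ a ha n hw ho
      have ho' : ∀ j < k, r j ⬝ᵥ n = 0 := by
        intro j hj
        have := ho j (by omega)
        rwa [Function.update_of_ne (by omega)] at this
      obtain ⟨c, hc⟩ := c_mult r k hg g hG a (by omega) n hw ho'
      have h1 := ho k (by omega)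
      rw [Function.update_self, hc, dotProduct_smul, smul_eq_mul] at h1
      have h2 := hρ a (by omega)
      have h3 : c = 0 := by
        rcases mul_eq_zero.1 h1 with h | h
        · exact h
        · exact absurd h h2
      rw [hc, h3, zero_smul]
  · intro g hG a ha n hw ho
    exact c_mult r k hg g hG a ha n hw ho

end Pool.Agent.Lib.MP_bd3044_co
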