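import Pool.Agent.Lib.MP_bd3044_co.Stm

/-!
# MP_bd3044_co, piece D: the points of level `k` in terms of the vectors `g a`
-/

set_option autoImplicit false

namespace Pool.Agent.Lib.MP_bd3044_co

open Finset

namespace D

/-! ### The bound `|u| ≤ 1` -/

lemma sum_geo (q : ℝ) (hq : 1 < q) (c : ℕ) : ∀ m : ℕ,
    ∑ l ∈ range m, (if c ≤ l then (q - 1) / q ^ (l - c + 1) else 0) = 1 - 1 / q ^ (m - c) := by
  have hq0 : q ≠ 0 := by linarith
  intro m
  induction m with
  | zero => simp
  | succ m ih =>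
    rw [sum_range_succ, ih]
    by_cases h : c ≤ m
    · rw [if_pos h, Nat.succ_sub h, Nat.succ_eq_add_one, pow_succ]
      have : q ^ (m - c) ≠ 0 := pow_ne_zero _ hq0
      field_simp
      ring
    · rw [if_neg h]
      have h1 : m - c = 0 := by omega
      have h2 : m + 1 - c = 0 := by omega
      rw [h1, h2]
      simp

lemma th_nonneg {q m : ℕ} (z : V q m) (k : ℕ) : 0 ≤ th z k := by
  unfold th
  refine sum_nonneg fun l _ => ?_
  split_ifs
  · positivity
  · exact le_rfl

lemma val_le {q : ℕ} [Fact q.Prime] (v : ZMod q) : ((v.val : ℕ) : ℝ) ≤ (q : ℝ) - 1 := by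
  have hp : q.Prime := Fact.out
  have h := ZMod.val_lt v
  have h1 : v.val + 1 ≤ q := h
  have h2 : ((v.val + 1 : ℕ) : ℝ) ≤ (q : ℝ) := by exact_mod_cast h1
  push_cast at h2
  linarith

lemma th_le_one {q m : ℕ} [Fact q.Prime] (z : V q m) (k : ℕ) : th z k ≤ 1 := by
  have hp : q.Prime := Fact.out
  have hq : (1 : ℝ) < (q : ℝ) := by exact_mod_cast hp.one_lt
  unfold th
  calc ∑ l : Fin m, (if k ≤ (l : ℕ) then ((z l).val : ℝ) / (q : ℝ) ^ ((l : ℕ) - k + 1) else 0)
      ≤ ∑ l : Fin m, (if k ≤ (l : ℕ) then ((q : ℝ) - 1) / (q : ℝ) ^ ((l : ℕ) - k + 1) else 0) := by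
        refine sum_le_sum fun l _ => ?_
        split_ifs
        · have : (0 : ℝ) < (q : ℝ) ^ ((l : ℕ) - k + 1) := by positivity
          exact div_le_div_of_nonneg_right (val_le _) this.le
        · exact le_rfl
    _ = ∑ l ∈ range m, (if k ≤ l then ((q : ℝ) - 1) / (q : ℝ) ^ (l - k + 1) else 0) :=
        Fin.sum_univ_eq_sum_range
          (fun l => if k ≤ l then ((q : ℝ) - 1) / (q : ℝ) ^ (l - k + 1) else 0) m
    _ = 1 - 1 / (q : ℝ) ^ (m - k) := sum_geo _ hq k m
    _ ≤ 1 := by
        have : (0 : ℝ) ≤ 1 / (q : ℝ) ^ (m - k) := by positivity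
        linarith

lemma abs_u_le {q m : ℕ} [Fact q.Prime] (z : V q m) (k : ℕ) (w : ZMod q) : |u z k w| ≤ 1 := by
  have hp : q.Prime := Fact.out
  have hq : (1 : ℝ) < (q : ℝ) := by exact_mod_cast hp.one_lt
  have hq0 : (0 : ℝ) < (q : ℝ) := by linarith
  have h0 := th_nonneg z (k + 1)
  have h1 := th_le_one z (k + 1)
  have hZ := val_le (zz z k)
  have hZ0 : (0 : ℝ) ≤ ((zz z k).val : ℝ) := Nat.cast_nonneg _
  unfold u
  set θ := th z (k + 1)
  set Z : ℝ := ((zz z k).val : ℝ)
  have hi : (0 : ℝ) < 1 / (q : ℝ) := by positivity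
  have hi1 : 1 / (q : ℝ) ≤ 1 := by
    rw [div_le_one hq0]
    exact hq.le
  have hz1 : Z / q ≤ 1 - 1 / q := by
    have h2 : (1 : ℝ) - 1 / q = (q - 1) / q := by
      field_simp
    rw [h2]
    exact div_le_div_of_nonneg_right hZ hq0.le
  have hz0 : 0 ≤ Z / q := by positivity
  have hθ0 : 0 ≤ θ * (1 / q) := mul_nonneg h0 hi.le
  have hθ1 : θ * (1 / q) ≤ 1 / q := by nlinarith
  rw [abs_le]
  split_ifs with hlt heq heq
  · exfalso
    rw [heq] at hlt
    exact lt_irrefl _ hlt
  · constructor <;> linarith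
  · constructor
    · nlinarith
    · nlinarith
  · constructor <;> linarith

/-! ### Uniqueness of the first differences -/

lemma Lx_unique {q m : ℕ} {x n : V q m} {a b : Fin m} (ha : Lx x n a) (hb : Lx x n b) :
    a = b := by
  rcases lt_trichotomy a b with h | h | h
  · exfalso
    have := hb.1 a h
    have h2 := ha.2
    rw [this] at h2
    exact lt_irrefl _ h2
  · exact h
  · exfalso
    have := ha.1 b h
    have h2 := hb.2
    rw [this] at h2
    exact lt_irrefl _ h2

lemma Ly_unique {q m : ℕ} {y n : V q m} {a b : Fin m} (ha : Ly y n a) (hb : Ly y n b) :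
    a = b := by
  rcases lt_trichotomy a b with h | h | h
  · exfalso
    have := ha.1 b h
    have h2 := hb.2
    rw [this] at h2
    exact lt_irrefl _ h2
  · exact h
  · exfalso
    have := hb.1 a h
    have h2 := ha.2
    rw [this] at h2
    exact lt_irrefl _ h2

/-! ### The points `Q a` -/

/-- embed the window -/
def emb {q m : ℕ} (a k : ℕ) (w : Fin k → ZMod q) : V q m := fun l =>
  if h : a ≤ (l : ℕ) ∧ (l : ℕ) - a < k then w ⟨(l : ℕ) - a, h.2⟩ else 0

lemma emb_win {q m : ℕ} (a k : ℕ) (w : Fin k → ZMod q) : Win a k (emb a k w : V q m) := by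
  intro l hl
  unfold emb
  rw [dif_neg]
  omega

lemma emb_inj {q m : ℕ} {a k : ℕ} (hak : a + k ≤ m) {w w' : Fin k → ZMod q}
    (h : (emb a k w : V q m) = emb a k w') : w = w' := by
  funext i
  have hi := i.2
  have h1 := congrFun h ⟨a + (i : ℕ), by omega⟩
  unfold emb at h1
  have hc : a ≤ a + (i : ℕ) ∧ a + (i : ℕ) - a < k := by omega
  simp only [hc, and_self, dif_pos] at h1
  have hidx : (⟨a + (i : ℕ) - a, hc.2⟩ : Fin k) = i := by
    apply Fin.ext
    simp
  rw [hidx] at h1
  exact h1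

lemma exists_win {q m : ℕ} [Fact q.Prime] {r : ℕ → V q m} {k a : ℕ} (hG : Gd r k)
    (hak : a + k ≤ m) (b : ℕ → ZMod q) :
    ∃ n : V q m, Win a k n ∧ ∀ j < k, r j ⬝ᵥ n = b j := by
  classical
  let L : (Fin k → ZMod q) → (Fin k → ZMod q) := fun w j => r j ⬝ᵥ (emb a k w : V q m)
  have hinj : Function.Injective L := by
    intro w w' hw
    apply emb_inj hak
    rw [← sub_eq_zero]
    apply hG a hak
    · intro l hl
      rw [Pi.sub_apply, emb_win a k w l hl, emb_win a k w' l hl, sub_zero]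
    · intro j hj
      rw [dotProduct_sub, sub_eq_zero]
      exact congrFun hw ⟨j, hj⟩
  have hsurj : Function.Surjective L := Finite.injective_iff_surjective.1 hinj
  obtain ⟨w, hw⟩ := hsurj fun j => b j
  refine ⟨emb a k w, emb_win a k w, fun j hj => ?_⟩
  exact congrFun hw ⟨j, hj⟩

/-- the property characterising `Q a` -/
def IsQ {q m : ℕ} (r : ℕ → V q m) (s : ℕ → ZMod q) (x y z : V q m) (k a : ℕ) (n : V q m) : Prop :=
  Az r s z k n ∧ (∀ l : Fin m, (l : ℕ) < a → n l = x l) ∧ ∀ l : Fin m, a + k ≤ (l : ℕ) → n l = y l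

lemma exists_Q {q m : ℕ} [Fact q.Prime] {r : ℕ → V q m} {k a : ℕ} (hG : Gd r k)
    (hak : a + k ≤ m) (s : ℕ → ZMod q) (x y z : V q m) : ∃ n, IsQ r s x y z k a n := by
  classical
  let b : V q m := fun l => if (l : ℕ) < a then x l else y l
  obtain ⟨n, hn, hr⟩ := exists_win hG hak fun j => zz z j - s j - r j ⬝ᵥ b
  refine ⟨b + n, ?_, ?_, ?_⟩
  · intro j hj
    unfold zt
    rw [dotProduct_add, hr j hj]
    ring
  · intro l hl
    rw [Pi.add_apply, hn l (Or.inl hl), add_zero]
    simp only [b, if_pos hl]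
  · intro l hl
    rw [Pi.add_apply, hn l (Or.inr hl), add_zero]
    have : ¬ (l : ℕ) < a := by omega
    simp only [b, if_neg this]

lemma Az_sub {q m : ℕ} {r : ℕ → V q m} {s : ℕ → ZMod q} {z : V q m} {k : ℕ} {n n' : V q m}
    (h : Az r s z k n) (h' : Az r s z k n') : ∀ j < k, r j ⬝ᵥ (n - n') = 0 := by
  intro j hj
  have h1 := h j hj
  have h2 := h' j hj
  unfold zt at h1 h2
  rw [dotProduct_sub]
  linear_combination h1 - h2

lemma Q_unique {q m : ℕ} {r : ℕ → V q m} {k a : ℕ} (hG : Gd r k)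
    (hak : a + k ≤ m) {s : ℕ → ZMod q} {x y z n n' : V q m} (h : IsQ r s x y z k a n)
    (h' : IsQ r s x y z k a n') : n = n' := by
  rw [← sub_eq_zero]
  apply hG a hak
  · intro l hl
    rw [Pi.sub_apply]
    rcases hl with hl | hl
    · rw [h.2.1 l hl, h'.2.1 l hl, sub_self]
    · rw [h.2.2 l hl, h'.2.2 l hl, sub_self]
  · exact Az_sub h.1 h'.1

end D

open D in
theorem t_D (hC : S_C) : S_D := by
  classical
  intro q hq m r s k g x y z hkm hG hg
  have hC3 := (hC q m r k hkm hG).2.2 g hg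
  -- the points `Q a`
  have hQ : ∀ a, ∃ n, a + k ≤ m → IsQ r s x y z k a n := by
    intro a
    by_cases h : a + k ≤ m
    · obtain ⟨n, hn⟩ := exists_Q hG h s x y z
      exact ⟨n, fun _ => hn⟩
    · exact ⟨0, fun h' => absurd h' h⟩
  choose Q hQ using hQ
  have hσ : ∀ a, ∃ c : ZMod q, a + k < m → Q (a + 1) = Q a + c • g a := by
    intro a
    by_cases h : a + k < m
    · have h1 := hQ a (by omega)
      have h2 := hQ (a + 1) (by omega)
      obtain ⟨c, hc⟩ := hC3 a h (Q (a + 1) - Q a) (by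
        intro l hl
        rw [Pi.sub_apply]
        rcases hl with hl | hl
        · rw [h1.2.1 l hl, h2.2.1 l (by omega), sub_self]
        · rw [h1.2.2 l (by omega), h2.2.2 l (by omega), sub_self]) (Az_sub h2.1 h1.1)
      exact ⟨c, fun _ => by rw [← hc]; abel⟩
    · exact ⟨0, fun h' => absurd h' h⟩
  choose σ hσ using hσ
  -- the point sets
  let SF : ℕ → Finset (V q m) := fun a => univ.filter fun n =>
    (∃ a' e' : Fin m, (a' : ℕ) = a ∧ (e' : ℕ) = a + k + 1 ∧ Lx x n a' ∧ Ly y n e') ∧ Az r s z k n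
  let SO : ℕ → Finset (V q m) := fun a => univ.filter fun n =>
    (∃ a' e' : Fin m, (a' : ℕ) = a ∧ (e' : ℕ) = a + k ∧ Lx x n a' ∧ Ly y n e') ∧ Az r s z k n
  let SB : Finset (V q m) := univ.filter fun n =>
    (∃ a' e' : Fin m, (e' : ℕ) < (a' : ℕ) + k ∧ Lx x n a' ∧ Ly y n e') ∧ Az r s z k n
  let S : Finset (V q m) := univ.filter fun n =>
    (∃ a e : Fin m, (e : ℕ) ≤ (a : ℕ) + k + 1 ∧ Lx x n a ∧ Ly y n e) ∧ Az r s z k n
  let M := m - k
  let pF : ℕ → ZMod q × ZMod q → V q m := fun a p => Q a + p.1 • g a + p.2 • g (a + 1)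
  let pO : ℕ → ZMod q → V q m := fun a κ => Q a + κ • g a
  let FS : ℕ → Finset (ZMod q × ZMod q) := fun a => univ.filter fun p =>
    a + 1 + k < m ∧ pF a p ∈ SF a
  let OS : ℕ → Finset (ZMod q) := fun a => univ.filter fun κ => a + k < m ∧ pO a κ ∈ SO a
  have mSF : ∀ a n, n ∈ SF a ↔ (∃ a' e' : Fin m, (a' : ℕ) = a ∧ (e' : ℕ) = a + k + 1 ∧
      Lx x n a' ∧ Ly y n e') ∧ Az r s z k n := fun a n => by simp only [SF, mem_filter, mem_univ, true_and]
  have mSO : ∀ a n, n ∈ SO a ↔ (∃ a' e' : Fin m, (a' : ℕ) = a ∧ (e' : ℕ) = a + k ∧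
      Lx x n a' ∧ Ly y n e') ∧ Az r s z k n := fun a n => by simp only [SO, mem_filter, mem_univ, true_and]
  have mSB : ∀ n, n ∈ SB ↔ (∃ a' e' : Fin m, (e' : ℕ) < (a' : ℕ) + k ∧
      Lx x n a' ∧ Ly y n e') ∧ Az r s z k n := fun n => by simp only [SB, mem_filter, mem_univ, true_and]
  have mS : ∀ n, n ∈ S ↔ (∃ a e : Fin m, (e : ℕ) ≤ (a : ℕ) + k + 1 ∧ Lx x n a ∧ Ly y n e) ∧
      Az r s z k n := fun n => by simp only [S, mem_filter, mem_univ, true_and]
  have mFS : ∀ a p, p ∈ FS a ↔ a + 1 + k < m ∧ pF a p ∈ SF a := fun a p => by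
    simp only [FS, mem_filter, mem_univ, true_and]
  have mOS : ∀ a κ, κ ∈ OS a ↔ a + k < m ∧ pO a κ ∈ SO a := fun a p => by
    simp only [OS, mem_filter, mem_univ, true_and]
  -- entries of `g`
  have hgw : ∀ a, a + k < m → ∀ l : Fin m, (l : ℕ) < a ∨ a + (k + 1) ≤ (l : ℕ) → g a l = 0 :=
    fun a ha => (hg a ha).1
  have hgk : ∀ a, a + k < m → ∀ j < k, r j ⬝ᵥ g a = 0 := fun a ha => (hg a ha).2.1
  have hgl : ∀ a, a + k < m → ∀ l : Fin m, (l : ℕ) = a → g a l ≠ 0 := fun a ha => (hg a ha).2.2.1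
  have hgr : ∀ a, a + k < m → ∀ l : Fin m, (l : ℕ) = a + k → g a l ≠ 0 :=
    fun a ha => (hg a ha).2.2.2
  -- second coordinates of the pairs do not vanish
  have hFS0 : ∀ a, ∀ p ∈ FS a, p.2 ≠ 0 := by
    intro a p hp h0
    rw [mFS, mSF] at hp
    obtain ⟨hm, ⟨a', e', ha', he', hx, hy⟩, hA⟩ := hp
    have h1 : pF a p e' = y e' := by
      simp only [pF, h0, zero_smul, add_zero, Pi.add_apply, Pi.smul_apply]
      rw [hgw a (by omega) e' (Or.inr (by omega)), (hQ a (by omega)).2.2 e' (by omega)]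
      simp
    have h2 := hy.2
    rw [h1] at h2
    exact lt_irrefl _ h2
  have hOS0 : ∀ a, ∀ κ ∈ OS a, κ ≠ 0 := by
    intro a κ hp h0
    rw [mOS, mSO] at hp
    obtain ⟨hm, ⟨a', e', ha', he', hx, hy⟩, hA⟩ := hp
    have h1 : pO a κ e' = y e' := by
      simp only [pO, h0, zero_smul, add_zero]
      exact (hQ a (by omega)).2.2 e' (by omega)
    have h2 := hy.2
    rw [h1] at h2
    exact lt_irrefl _ h2
  have hFSe : ∀ a, m - k ≤ a + 1 → FS a = ∅ := by
    intro a ha
    rw [eq_empty_iff_forall_notMem]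
    intro p hp
    rw [mFS] at hp
    omega
  refine ⟨Q 0, σ, FS, OS, hFS0, hOS0, hFSe, ?_⟩
  intro ρ v t ht
  -- value at the points
  let F : V q m → ℝ := fun n => u z k (ρ ⬝ᵥ n + v)
  have hrho : ∀ a, a + k ≤ m → ρ ⬝ᵥ Q a + v = rho σ (ρ ⬝ᵥ Q 0 + v) t a := by
    intro a
    induction a with
    | zero =>
      intro _
      simp [rho]
    | succ a ih =>
      intro ha
      have h1 := ih (by omega)
      rw [hσ a (by omega), dotProduct_add, dotProduct_smul, ← ht a (by omega)]
      unfold rho at h1 ⊢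
      rw [sum_range_succ, smul_eq_mul]
      linear_combination h1
  -- the level as a sum over `S`
  have hT : T (Function.update r k ρ) (Function.update s k v) x y z k = ∑ n ∈ S, F n := by
    unfold T
    rw [sum_filter]
    refine sum_congr rfl fun n _ => ?_
    have hAz : Az (Function.update r k ρ) (Function.update s k v) z k n ↔ Az r s z k n := by
      unfold Az zt
      refine forall_congr' fun j => forall_congr' fun hj => ?_
      rw [Function.update_of_ne (by omega), Function.update_of_ne (by omega)]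
    have hz : zt (Function.update r k ρ) (Function.update s k v) k n = ρ ⬝ᵥ n + v := by
      unfold zt
      rw [Function.update_self, Function.update_self]
    rw [hz]
    simp only [hAz]
    rfl
  -- splitting
  have hsplit : S = (((range M).biUnion SF) ∪ ((range M).biUnion SO)) ∪ SB := by
    ext n
    rw [mS, mem_union, mem_union, mem_biUnion, mem_biUnion, mSB]
    constructor
    · rintro ⟨⟨a, e, hae, hx, hy⟩, hA⟩
      have he := e.2
      rcases Nat.lt_or_ge (e : ℕ) (a + k) with h | h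
      · exact Or.inr ⟨⟨a, e, h, hx, hy⟩, hA⟩
      · rcases Nat.lt_or_ge (e : ℕ) (a + k + 1) with h' | h'
        · refine Or.inl (Or.inr ⟨a, ?_, ?_⟩)
          · rw [mem_range]
            simp only [M]
            omega
          · rw [mSO]
            exact ⟨⟨a, e, rfl, by omega, hx, hy⟩, hA⟩
        · refine Or.inl (Or.inl ⟨a, ?_, ?_⟩)
          · rw [mem_range]
            simp only [M]
            omega
          · rw [mSF]
            exact ⟨⟨a, e, rfl, by omega, hx, hy⟩, hA⟩
    · rintro ((⟨a, _, hn⟩ | ⟨a, _, hn⟩) | ⟨⟨a, e, hae, hx, hy⟩, hA⟩)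
      · rw [mSF] at hn
        obtain ⟨⟨a', e', ha', he', hx, hy⟩, hA⟩ := hn
        exact ⟨⟨a', e', by omega, hx, hy⟩, hA⟩
      · rw [mSO] at hn
        obtain ⟨⟨a', e', ha', he', hx, hy⟩, hA⟩ := hn
        exact ⟨⟨a', e', by omega, hx, hy⟩, hA⟩
      · exact ⟨⟨a, e, by omega, hx, hy⟩, hA⟩
  have hd1 : Disjoint (((range M).biUnion SF) ∪ ((range M).biUnion SO)) SB := by
    rw [disjoint_left]
    intro n hn hB
    rw [mSB] at hB
    obtain ⟨⟨a, e, hae, hx, hy⟩, -⟩ := hB
    rw [mem_union, mem_biUnion, mem_biUnion] at hn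
    rcases hn with ⟨b, _, hn⟩ | ⟨b, _, hn⟩
    · rw [mSF] at hn
      obtain ⟨⟨a', e', ha', he', hx', hy'⟩, -⟩ := hn
      have h1 := Lx_unique hx hx'
      have h2 := Ly_unique hy hy'
      subst h1 h2
      omega
    · rw [mSO] at hn
      obtain ⟨⟨a', e', ha', he', hx', hy'⟩, -⟩ := hn
      have h1 := Lx_unique hx hx'
      have h2 := Ly_unique hy hy'
      subst h1 h2
      omega
  have hd2 : Disjoint ((range M).biUnion SF) ((range M).biUnion SO) := by
    rw [disjoint_left]
    intro n hn hB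
    rw [mem_biUnion] at hn hB
    obtain ⟨b, _, hn⟩ := hn
    obtain ⟨c, _, hc⟩ := hB
    rw [mSF] at hn
    rw [mSO] at hc
    obtain ⟨⟨a, e, ha, he, hx, hy⟩, -⟩ := hc
    obtain ⟨⟨a', e', ha', he', hx', hy'⟩, -⟩ := hn
    have h1 := Lx_unique hx hx'
    have h2 := Ly_unique hy hy'
    subst h1 h2
    omega
  have hpF : ((range M : Finset ℕ) : Set ℕ).PairwiseDisjoint SF := by
    intro b _ c _ hbc
    show Disjoint (SF b) (SF c)
    rw [disjoint_left]
    intro n hn hc
    rw [mSF] at hn hc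
    obtain ⟨⟨a, e, ha, he, hx, hy⟩, -⟩ := hc
    obtain ⟨⟨a', e', ha', he', hx', hy'⟩, -⟩ := hn
    have h1 := Lx_unique hx hx'
    subst h1
    omega
  have hpO : ((range M : Finset ℕ) : Set ℕ).PairwiseDisjoint SO := by
    intro b _ c _ hbc
    show Disjoint (SO b) (SO c)
    rw [disjoint_left]
    intro n hn hc
    rw [mSO] at hn hc
    obtain ⟨⟨a, e, ha, he, hx, hy⟩, -⟩ := hc
    obtain ⟨⟨a', e', ha', he', hx', hy'⟩, -⟩ := hn
    have h1 := Lx_unique hx hx'
    subst h1
    omega
  -- type F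
  have hF : ∀ a ∈ range M, ∑ n ∈ SF a, F n =
      ∑ p ∈ FS a, u z k (rho σ (ρ ⬝ᵥ Q 0 + v) t a + p.1 * t a + p.2 * t (a + 1)) := by
    intro a ha
    rw [mem_range] at ha
    have ham : a + k < m := by simp only [M] at ha; omega
    have himg : SF a = (FS a).image (pF a) := by
      ext n
      rw [mem_image]
      constructor
      · intro hn
        have hn' := hn
        rw [mSF] at hn
        obtain ⟨⟨a', e', ha', he', hx, hy⟩, hA⟩ := hn
        have he2 := e'.2
        have ham' : a + 1 + k < m := by omega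
        have hge : g (a + 1) e' ≠ 0 := hgr (a + 1) ham' e' (by omega)
        let κ' : ZMod q := (n e' - y e') / g (a + 1) e'
        have hκ' : κ' * g (a + 1) e' = n e' - y e' := div_mul_cancel₀ _ hge
        have hQa := hQ a (by omega)
        obtain ⟨κ, hκ⟩ := hC3 a ham (n - Q a - κ' • g (a + 1)) (by
          intro l hl
          rw [Pi.sub_apply, Pi.sub_apply, Pi.smul_apply, smul_eq_mul]
          rcases hl with hl | hl
          · rw [hQa.2.1 l hl, hgw (a + 1) ham' l (Or.inl (by omega)),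
              hx.1 l (by rw [Fin.lt_def]; omega)]
            ring
          · rcases eq_or_ne l e' with rfl | hle
            · rw [hκ', hQa.2.2 l (by omega)]
              ring
            · have hle' : (l : ℕ) ≠ (e' : ℕ) := fun h => hle (Fin.ext h)
              rw [hQa.2.2 l (by omega), hgw (a + 1) ham' l (Or.inr (by omega)),
                hy.1 l (by rw [Fin.lt_def]; omega)]
              ring) (by
          intro j hj
          rw [dotProduct_sub, Az_sub hA hQa.1 j hj, dotProduct_smul, hgk (a + 1) ham' j hj]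
          simp)
        have hn3 : pF a (κ, κ') = n := by
          simp only [pF]
          rw [← hκ]
          abel
        refine ⟨(κ, κ'), ?_, hn3⟩
        rw [mFS, hn3]
        exact ⟨ham', hn'⟩
      · rintro ⟨p, hp, rfl⟩
        rw [mFS] at hp
        exact hp.2
    have hinj : ∀ p ∈ FS a, ∀ p' ∈ FS a, pF a p = pF a p' → p = p' := by
      intro p hp p' hp' h
      rw [mFS] at hp
      have ham' := hp.1
      have h1 := congrFun h ⟨a, by omega⟩
      have h2 := congrFun h ⟨a + 1 + k, by omega⟩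
      simp only [pF, Pi.add_apply, Pi.smul_apply, smul_eq_mul] at h1 h2
      have g1 : g (a + 1) ⟨a, by omega⟩ = 0 := hgw (a + 1) ham' _ (Or.inl (by simp))
      have g2 : g a ⟨a, by omega⟩ ≠ 0 := hgl a ham _ rfl
      have g3 : g (a + 1) ⟨a + 1 + k, by omega⟩ ≠ 0 := hgr (a + 1) ham' _ rfl
      rw [g1] at h1
      have e1 : p.1 = p'.1 := by
        apply mul_right_cancel₀ g2
        linear_combination h1
      rw [e1] at h2
      have e2 : p.2 = p'.2 := by
        apply mul_right_cancel₀ g3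
        linear_combination h2
      exact Prod.ext e1 e2
    rw [himg, sum_image hinj]
    refine sum_congr rfl fun p hp => ?_
    rw [mFS] at hp
    simp only [F, pF]
    congr 1
    rw [dotProduct_add, dotProduct_add, dotProduct_smul, dotProduct_smul, ← ht a ham,
      ← ht (a + 1) (by omega), ← hrho a (by omega), smul_eq_mul, smul_eq_mul]
    ring
  -- type O
  have hO : ∀ a ∈ range M, ∑ n ∈ SO a, F n =
      ∑ κ ∈ OS a, u z k (rho σ (ρ ⬝ᵥ Q 0 + v) t a + κ * t a) := by
    intro a ha
    rw [mem_range] at ha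
    have ham : a + k < m := by simp only [M] at ha; omega
    have himg : SO a = (OS a).image (pO a) := by
      ext n
      rw [mem_image]
      constructor
      · intro hn
        have hn' := hn
        rw [mSO] at hn
        obtain ⟨⟨a', e', ha', he', hx, hy⟩, hA⟩ := hn
        have hQa := hQ a (by omega)
        obtain ⟨κ, hκ⟩ := hC3 a ham (n - Q a) (by
          intro l hl
          rw [Pi.sub_apply]
          rcases hl with hl | hl
          · rw [hQa.2.1 l hl, hx.1 l (by rw [Fin.lt_def]; omega)]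
            ring
          · rw [hQa.2.2 l (by omega), hy.1 l (by rw [Fin.lt_def]; omega)]
            ring) (Az_sub hA hQa.1)
        have hn3 : pO a κ = n := by
          simp only [pO]
          rw [← hκ]
          abel
        refine ⟨κ, ?_, hn3⟩
        rw [mOS, hn3]
        exact ⟨ham, hn'⟩
      · rintro ⟨p, hp, rfl⟩
        rw [mOS] at hp
        exact hp.2
    have hinj : ∀ p ∈ OS a, ∀ p' ∈ OS a, pO a p = pO a p' → p = p' := by
      intro p hp p' hp' h
      have h1 := congrFun h ⟨a, by omega⟩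
      simp only [pO, Pi.add_apply, Pi.smul_apply, smul_eq_mul] at h1
      have g2 : g a ⟨a, by omega⟩ ≠ 0 := hgl a ham _ rfl
      apply mul_right_cancel₀ g2
      linear_combination h1
    rw [himg, sum_image hinj]
    refine sum_congr rfl fun p hp => ?_
    simp only [F, pO]
    congr 1
    rw [dotProduct_add, dotProduct_smul, ← ht a ham, ← hrho a (by omega), smul_eq_mul]
    ring
  -- type B
  have hB : SB ⊆ (range (M + 1)).image Q := by
    intro n hn
    rw [mSB] at hn
    obtain ⟨⟨a, e, hae, hx, hy⟩, hA⟩ := hn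
    rw [mem_image]
    by_cases h : (a : ℕ) + k ≤ m
    · refine ⟨a, ?_, ?_⟩
      · rw [mem_range]
        simp only [M]
        omega
      · refine Q_unique hG h (hQ a h) ⟨hA, ?_, ?_⟩
        · intro l hl
          exact hx.1 l (by rw [Fin.lt_def]; omega)
        · intro l hl
          exact hy.1 l (by rw [Fin.lt_def]; omega)
    · have hM : M + k ≤ m := by simp only [M]; omega
      refine ⟨M, ?_, ?_⟩
      · rw [mem_range]
        omega
      · refine Q_unique hG hM (hQ M hM) ⟨hA, ?_, ?_⟩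
        · intro l hl
          refine hx.1 l ?_
          rw [Fin.lt_def]
          simp only [M] at hl
          omega
        · intro l hl
          have hl2 := l.2
          exfalso
          simp only [M] at hl
          omega
  have hSB : |∑ n ∈ SB, F n| ≤ ((m - k : ℕ) : ℝ) + 1 := by
    calc |∑ n ∈ SB, F n| ≤ ∑ n ∈ SB, |F n| := abs_sum_le_sum_abs _ _
      _ ≤ ∑ n ∈ SB, (1 : ℝ) := sum_le_sum fun n _ => abs_u_le _ _ _
      _ = (SB.card : ℝ) := by simp
      _ ≤ (((range (M + 1)).image Q).card : ℝ) := by exact_mod_cast card_le_card hB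
      _ ≤ ((range (M + 1)).card : ℝ) := by exact_mod_cast card_image_le
      _ = ((m - k : ℕ) : ℝ) + 1 := by
          rw [card_range]
          push_cast
          rfl
  have hfin : T (Function.update r k ρ) (Function.update s k v) x y z k
      - Psi (m - k) (u z k) σ FS OS (ρ ⬝ᵥ Q 0 + v) t = ∑ n ∈ SB, F n := by
    rw [hT, hsplit, sum_union hd1, sum_union hd2, sum_biUnion hpF, sum_biUnion hpO,
      sum_congr rfl hF, sum_congr rfl hO]
    unfold Psi
    rw [sum_add_distrib]
    simp only [M]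
    ring
  rw [hfin]
  exact hSB

end Pool.Agent.Lib.MP_bd3044_co
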