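import Pool.Agent.Lib.MP_bd3044_co.Stm

set_option autoImplicit false

namespace Pool.Agent.Lib.MP_bd3044_co

open Finset

/-- number of vectors without zero entry -/
lemma e_card (q : ℕ) [Fact q.Prime] (M : ℕ) :
    (∑ t : Fin M → ZMod q, if ∀ a, t a ≠ 0 then (1 : ℝ) else 0) = ((q : ℝ) - 1) ^ M := by
  classical
  have h1 : ∀ t : Fin M → ZMod q, (if ∀ a, t a ≠ 0 then (1 : ℝ) else 0)
      = ∏ a, (if t a ≠ 0 then (1 : ℝ) else 0) := by
    intro t
    by_cases h : ∀ a, t a ≠ 0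
    · rw [if_pos h]
      symm
      apply Finset.prod_eq_one
      intro a _
      rw [if_pos (h a)]
    · rw [if_neg h]
      push Not at h
      obtain ⟨a, ha⟩ := h
      symm
      apply Finset.prod_eq_zero (Finset.mem_univ a)
      rw [if_neg (not_not.mpr ha)]
  have h2 : (∑ v : ZMod q, if v ≠ 0 then (1 : ℝ) else 0) = (q : ℝ) - 1 := by
    have h3 : (∑ v : ZMod q, if v ≠ 0 then (1 : ℝ) else 0)
        = ∑ v : ZMod q, ((1 : ℝ) - if v = 0 then 1 else 0) := by
      apply Finset.sum_congr rfl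
      intro v _
      by_cases hv : v = 0
      · simp [hv]
      · simp [hv]
    rw [h3, Finset.sum_sub_distrib]
    simp [ZMod.card]
  calc (∑ t : Fin M → ZMod q, if ∀ a, t a ≠ 0 then (1 : ℝ) else 0)
      = ∑ t : Fin M → ZMod q, ∏ a, (if t a ≠ 0 then (1 : ℝ) else 0) :=
        Finset.sum_congr rfl (fun t _ => h1 t)
    _ = ∏ _a : Fin M, ∑ v : ZMod q, (if v ≠ 0 then (1 : ℝ) else 0) := by
        rw [Finset.prod_univ_sum, Fintype.piFinset_univ]
    _ = ((q : ℝ) - 1) ^ M := by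
        rw [h2]; simp

theorem t_E (hA : S_A) (hB : S_B) (hC : S_C) (hD : S_D) (hG : S_G) : S_E := by
  classical
  intro q _ m r s k hk hGd
  obtain ⟨⟨g, hg⟩, hC2, -⟩ := hC q m r k hk hGd
  have hiff := hC2 g hg
  set M := m - k with hM
  have hMm : M ≤ m := by omega
  have hq1 : (1 : ℝ) < (q : ℝ) := by exact_mod_cast (Fact.out : q.Prime).one_lt
  have hq0 : (0 : ℝ) < (q : ℝ) := by linarith
  -- the family restricted to Fin M
  let g' : Fin M → V q m := fun a => g a
  have hB' := hB q m M g' hMm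
    (by
      intro a l hl
      have ha : (a : ℕ) + k < m := by have := a.2; omega
      exact (hg a ha).1 l (Or.inl hl))
    (by
      intro a l hl
      have ha : (a : ℕ) + k < m := by have := a.2; omega
      exact (hg a ha).2.2.1 l hl)
  -- the condition
  have hcond : ∀ ρ : V q m, Gd (Function.update r k ρ) (k + 1) ↔ ∀ a : Fin M, ρ ⬝ᵥ g' a ≠ 0 := by
    intro ρ
    rw [hiff ρ]
    constructor
    · intro h a
      exact h a (by have := a.2; omega)
    · intro h a ha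
      exact h ⟨a, by omega⟩
  -- count
  have hcount : (∑ p : V q m × ZMod q, if Gd (Function.update r k p.1) (k + 1) then (1 : ℝ) else 0)
      = (q : ℝ) * ((q : ℝ) ^ (m - M) * ((q : ℝ) - 1) ^ M) := by
    rw [Fintype.sum_prod_type]
    have h1 : ∀ ρ : V q m, (∑ v : ZMod q, if Gd (Function.update r k (ρ, v).1) (k + 1) then (1 : ℝ) else 0)
        = (q : ℝ) * (if ∀ a : Fin M, (fun a => ρ ⬝ᵥ g' a) a ≠ 0 then (1 : ℝ) else 0) := by
      intro ρ
      have h3 : (∑ v : ZMod q, if Gd (Function.update r k (ρ, v).1) (k + 1) then (1 : ℝ) else 0)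
          = ∑ _v : ZMod q, (if ∀ a : Fin M, (fun a => ρ ⬝ᵥ g' a) a ≠ 0 then (1 : ℝ) else 0) := by
        apply Finset.sum_congr rfl
        intro v _
        by_cases h : Gd (Function.update r k ρ) (k + 1)
        · rw [if_pos h, if_pos ((hcond ρ).1 h)]
        · rw [if_neg h, if_neg (fun h' => h ((hcond ρ).2 h'))]
      rw [h3, Finset.sum_const, Finset.card_univ, ZMod.card, nsmul_eq_mul]
    rw [Finset.sum_congr rfl (fun ρ _ => h1 ρ), ← Finset.mul_sum]
    rw [hB' (fun t => if ∀ a : Fin M, t a ≠ 0 then (1 : ℝ) else 0), e_card]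
  have hpos : 0 < (q : ℝ) * ((q : ℝ) ^ (m - M) * ((q : ℝ) - 1) ^ M) := by
    have : 0 < (q : ℝ) - 1 := by linarith
    positivity
  refine ⟨?_, ?_⟩
  · have h0 : 0 < (∑ p : V q m × ZMod q, if Gd (Function.update r k p.1) (k + 1) then (1 : ℝ) else 0) := by
      rw [hcount]; exact hpos
    convert h0
  intro x y z lam hlam
  obtain ⟨Q, σ, FS, OS, hFS, hOS, hFS0, hT⟩ := hD q m r s k g x y z hk hGd hg
  have hA' := fun w => hA q M (u z k) σ FS OS w lam ((hG.1 q m z k).1) ((hG.1 q m z k).2)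
    hFS hOS hFS0 hlam
  set C : ℝ := Real.exp (|lam| * ((M : ℝ) + 1)) with hCdef
  have hCpos : 0 < C := Real.exp_pos _
  -- bound of single exponentials
  have hexp : ∀ (ρ : V q m) (v : ZMod q),
      Real.exp (lam * T (Function.update r k ρ) (Function.update s k v) x y z k)
      ≤ C * Real.exp (lam * Psi M (u z k) σ FS OS (ρ ⬝ᵥ Q + v) (ext (fun a : Fin M => ρ ⬝ᵥ g' a))) := by
    intro ρ v
    have ht : ∀ a, a + k < m → ext (fun a : Fin M => ρ ⬝ᵥ g' a) a = ρ ⬝ᵥ g a := by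
      intro a ha
      have haM : a < M := by omega
      simp only [ext, dif_pos haM, g']
    have h := hT ρ v (ext (fun a : Fin M => ρ ⬝ᵥ g' a)) ht
    rw [hCdef, ← Real.exp_add]
    apply Real.exp_le_exp.mpr
    set T0 := T (Function.update r k ρ) (Function.update s k v) x y z k
    set P0 := Psi M (u z k) σ FS OS (ρ ⬝ᵥ Q + v) (ext (fun a : Fin M => ρ ⬝ᵥ g' a))
    have h' : |T0 - P0| ≤ (M : ℝ) + 1 := h
    have h2 : lam * T0 - lam * P0 ≤ |lam| * ((M : ℝ) + 1) := by
      calc lam * T0 - lam * P0 = lam * (T0 - P0) := by ring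
        _ ≤ |lam * (T0 - P0)| := le_abs_self _
        _ = |lam| * |T0 - P0| := abs_mul _ _
        _ ≤ |lam| * ((M : ℝ) + 1) := mul_le_mul_of_nonneg_left h' (abs_nonneg _)
    linarith
  -- the sum
  have hmain : (∑ p : V q m × ZMod q, if Gd (Function.update r k p.1) (k + 1) then
        Real.exp (lam * T (Function.update r k p.1) (Function.update s k p.2) x y z k) else 0)
      ≤ C * ∑ w : ZMod q, ((q : ℝ) ^ (m - M) * (((q : ℝ) - 1) ^ M *
          Real.exp (M * (3 * |lam| + 9 * (q : ℝ) ^ 4 * lam ^ 2)))) := by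
    have h1 : (∑ p : V q m × ZMod q, if Gd (Function.update r k p.1) (k + 1) then
        Real.exp (lam * T (Function.update r k p.1) (Function.update s k p.2) x y z k) else 0)
        ≤ ∑ p : V q m × ZMod q, C * (if ∀ a : Fin M, (fun a => p.1 ⬝ᵥ g' a) a ≠ 0 then
          Real.exp (lam * Psi M (u z k) σ FS OS (p.1 ⬝ᵥ Q + p.2) (ext (fun a : Fin M => p.1 ⬝ᵥ g' a))) else 0) := by
      apply Finset.sum_le_sum
      rintro ⟨ρ, v⟩ _
      by_cases h : Gd (Function.update r k ρ) (k + 1)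
      · rw [if_pos h, if_pos ((hcond ρ).1 h)]
        exact hexp ρ v
      · rw [if_neg h, if_neg (fun h' => h ((hcond ρ).2 h')), mul_zero]
    refine h1.trans ?_
    rw [← Finset.mul_sum]
    apply mul_le_mul_of_nonneg_left _ hCpos.le
    rw [Fintype.sum_prod_type]
    have h2 : ∀ ρ : V q m, (∑ v : ZMod q, if ∀ a : Fin M, (fun a => (ρ, v).1 ⬝ᵥ g' a) a ≠ 0 then
          Real.exp (lam * Psi M (u z k) σ FS OS ((ρ, v).1 ⬝ᵥ Q + (ρ, v).2)
            (ext (fun a : Fin M => (ρ, v).1 ⬝ᵥ g' a))) else 0)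
        = ∑ w : ZMod q, (fun t : Fin M → ZMod q => if ∀ a : Fin M, t a ≠ 0 then
          Real.exp (lam * Psi M (u z k) σ FS OS w (ext t)) else 0) (fun a => ρ ⬝ᵥ g' a) := by
      intro ρ
      exact Equiv.sum_comp (Equiv.addLeft (ρ ⬝ᵥ Q)) (fun w : ZMod q => (fun t : Fin M → ZMod q => if ∀ a : Fin M, t a ≠ 0 then
          Real.exp (lam * Psi M (u z k) σ FS OS w (ext t)) else 0) (fun a => ρ ⬝ᵥ g' a))
    rw [Finset.sum_congr rfl (fun ρ _ => h2 ρ), Finset.sum_comm]
    apply Finset.sum_le_sum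
    intro w _
    rw [hB' (fun t : Fin M → ZMod q => if ∀ a : Fin M, t a ≠ 0 then
          Real.exp (lam * Psi M (u z k) σ FS OS w (ext t)) else 0)]
    apply mul_le_mul_of_nonneg_left (hA' w) (by positivity)
  have hfin : C * ∑ w : ZMod q, ((q : ℝ) ^ (m - M) * (((q : ℝ) - 1) ^ M *
          Real.exp (M * (3 * |lam| + 9 * (q : ℝ) ^ 4 * lam ^ 2))))
      = ((q : ℝ) * ((q : ℝ) ^ (m - M) * ((q : ℝ) - 1) ^ M)) *
        Real.exp ((M : ℝ) * (4 * |lam| + 9 * (q : ℝ) ^ 4 * lam ^ 2) + |lam|) := by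
    rw [Finset.sum_const, Finset.card_univ, ZMod.card, nsmul_eq_mul, hCdef]
    have h3 : Real.exp ((M : ℝ) * (4 * |lam| + 9 * (q : ℝ) ^ 4 * lam ^ 2) + |lam|)
        = Real.exp (|lam| * ((M : ℝ) + 1)) * Real.exp (M * (3 * |lam| + 9 * (q : ℝ) ^ 4 * lam ^ 2)) := by
      rw [← Real.exp_add]
      congr 1
      ring
    rw [h3]
    ring
  have hfinal := hmain.trans (le_of_eq hfin)
  rw [← hcount] at hfinal
  convert hfinal using 2

end Pool.Agent.Lib.MP_bd3044_co
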