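import Pool.Agent.Lib.MP_bd3044_co.Stm

set_option autoImplicit false

namespace Pool.Agent.Lib.MP_bd3044_co

open Finset

section
variable {q m : ℕ}

theorem f_Gd_congr {r r' : ℕ → V q m} {k : ℕ} (h : ∀ i < k, r i = r' i) : Gd r k ↔ Gd r' k := by
  unfold Gd
  refine forall_congr' fun a => forall_congr' fun _ => forall_congr' fun n =>
    forall_congr' fun _ => ?_
  have : (∀ j < k, r j ⬝ᵥ n = 0) ↔ (∀ j < k, r' j ⬝ᵥ n = 0) :=
    forall_congr' fun j => forall_congr' fun hj => by rw [h j hj]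
  rw [this]

theorem f_T_congr [NeZero q] {r r' : ℕ → V q m} {s s' : ℕ → ZMod q} (x y z : V q m) {k : ℕ}
    (hr : ∀ i ≤ k, r i = r' i) (hs : ∀ i ≤ k, s i = s' i) :
    T r s x y z k = T r' s' x y z k := by
  classical
  have hz : ∀ j ≤ k, ∀ n : V q m, zt r s j n = zt r' s' j n := by
    intro j hj n
    unfold zt
    rw [hr j hj, hs j hj]
  have hA : ∀ n : V q m, Az r s z k n ↔ Az r' s' z k n := by
    intro n
    unfold Az
    exact forall_congr' fun j => forall_congr' fun hj => by rw [hz j hj.le]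
  unfold T
  refine Finset.sum_congr rfl fun n _ => ?_
  rw [hz k le_rfl n]
  by_cases h : (∃ a e : Fin m, (e : ℕ) ≤ (a : ℕ) + k + 1 ∧ Lx x n a ∧ Ly y n e) ∧ Az r s z k n
  · rw [if_pos h, if_pos ⟨h.1, (hA n).1 h.2⟩]
  · rw [if_neg h, if_neg (fun h' => h ⟨h'.1, (hA n).2 h'.2⟩)]

/-- the partial sums -/
noncomputable def fS [NeZero q] (r : ℕ → V q m) (s : ℕ → ZMod q) (x y z : V q m) (k : ℕ) : ℝ :=
  ∑ j ∈ range k, T r s x y z j

/-- the exponents -/
noncomputable def fB (q m : ℕ) (lam : ℝ) (k : ℕ) : ℝ :=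
  ∑ j ∈ range k, (((m - j : ℕ) : ℝ) * (4 * lam + 9 * (q : ℝ) ^ 4 * lam ^ 2) + lam)

theorem f_step (hE : S_E) (q : ℕ) [Fact q.Prime] (m : ℕ) (lam : ℝ) (hlam : 0 ≤ lam)
    (hl : lam * (3 * (q : ℝ) ^ 2) ≤ 1) (k : ℕ) (hk : k ≤ m) :
    ∃ (r : ℕ → V q m) (s : ℕ → ZMod q), (∀ c ≤ k, Gd r c) ∧
      ∑ p : V q m × V q m × V q m, (Real.exp (lam * fS r s p.1 p.2.1 p.2.2 k) +
        Real.exp (-lam * fS r s p.1 p.2.1 p.2.2 k)) ≤
        2 * ((q : ℝ) ^ m) ^ 3 * Real.exp (fB q m lam k) := by
  classical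
  induction k with
  | zero =>
    refine ⟨fun _ => 0, fun _ => 0, ?_, ?_⟩
    · intro c hc a _ n hn _
      have hc0 : c = 0 := by omega
      subst hc0
      funext l
      refine hn l ?_
      omega
    · simp only [fS, fB, Finset.range_zero, Finset.sum_empty, mul_zero, Real.exp_zero]
      rw [Finset.sum_const, Finset.card_univ, Fintype.card_prod, Fintype.card_prod,
        Fintype.card_fun, ZMod.card, Fintype.card_fin, nsmul_eq_mul]
      push_cast
      have : (q : ℝ) ^ m * ((q : ℝ) ^ m * (q : ℝ) ^ m) * (1 + 1) = 2 * ((q : ℝ) ^ m) ^ 3 * 1 := by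
        ring
      exact this.le
  | succ k ih =>
    obtain ⟨r, s, hG, hS⟩ := ih (by omega)
    have hkm : k < m := by omega
    obtain ⟨hA, hEx⟩ := hE q m r s k hkm (hG k le_rfl)
    set good : V q m × ZMod q → Prop := fun p => Gd (Function.update r k p.1) (k + 1) with hgood
    set A : ℝ := ∑ p : V q m × ZMod q, (if good p then (1 : ℝ) else 0) with hAdef
    set β : ℝ := ((m - k : ℕ) : ℝ) * (4 * lam + 9 * (q : ℝ) ^ 4 * lam ^ 2) + lam with hβ
    have hA' : 0 < A := hA
    have hplus : ∀ x y z : V q m, ∑ p : V q m × ZMod q, (if good p then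
        Real.exp (lam * T (Function.update r k p.1) (Function.update s k p.2) x y z k) else 0) ≤
        A * Real.exp β := by
      intro x y z
      have h := hEx x y z lam (by rw [abs_of_nonneg hlam]; exact hl)
      rw [abs_of_nonneg hlam] at h
      exact h
    have hminus : ∀ x y z : V q m, ∑ p : V q m × ZMod q, (if good p then
        Real.exp (-lam * T (Function.update r k p.1) (Function.update s k p.2) x y z k) else 0) ≤
        A * Real.exp β := by
      intro x y z
      have h := hEx x y z (-lam) (by rw [abs_neg, abs_of_nonneg hlam]; exact hl)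
      rw [abs_neg, abs_of_nonneg hlam, neg_sq] at h
      exact h
    -- the sums for the updated data
    set F : V q m × ZMod q → ℝ := fun P => ∑ p : V q m × V q m × V q m,
      (Real.exp (lam * fS (Function.update r k P.1) (Function.update s k P.2) p.1 p.2.1 p.2.2
          (k + 1)) +
        Real.exp (-lam * fS (Function.update r k P.1) (Function.update s k P.2) p.1 p.2.1 p.2.2
          (k + 1))) with hF
    set bd : ℝ := 2 * ((q : ℝ) ^ m) ^ 3 * Real.exp (fB q m lam (k + 1)) with hbd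
    have hfS : ∀ (P : V q m × ZMod q) (x y z : V q m),
        fS (Function.update r k P.1) (Function.update s k P.2) x y z (k + 1) =
          fS r s x y z k + T (Function.update r k P.1) (Function.update s k P.2) x y z k := by
      intro P x y z
      unfold fS
      rw [Finset.sum_range_succ]
      congr 1
      refine Finset.sum_congr rfl fun j hj => ?_
      have hj' : j < k := Finset.mem_range.1 hj
      refine f_T_congr x y z (fun i hi => ?_) (fun i hi => ?_)
      · rw [Function.update_of_ne (by omega)]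
      · rw [Function.update_of_ne (by omega)]
    have htotal : ∑ P : V q m × ZMod q, (if good P then F P else 0) ≤ A * bd := by
      have h1 : ∀ P : V q m × ZMod q, (if good P then F P else 0) =
          ∑ p : V q m × V q m × V q m, (Real.exp (lam * fS r s p.1 p.2.1 p.2.2 k) *
            (if good P then Real.exp (lam * T (Function.update r k P.1)
              (Function.update s k P.2) p.1 p.2.1 p.2.2 k) else 0) +
            Real.exp (-lam * fS r s p.1 p.2.1 p.2.2 k) *
            (if good P then Real.exp (-lam * T (Function.update r k P.1)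
              (Function.update s k P.2) p.1 p.2.1 p.2.2 k) else 0)) := by
        intro P
        by_cases hP : good P
        · simp only [if_pos hP]
          rw [hF]
          refine Finset.sum_congr rfl fun p _ => ?_
          rw [hfS, mul_add, Real.exp_add, mul_add, Real.exp_add]
        · simp only [if_neg hP]
          simp
      rw [Finset.sum_congr rfl fun P _ => h1 P, Finset.sum_comm]
      have h2 : ∀ p : V q m × V q m × V q m, ∑ P : V q m × ZMod q,
          (Real.exp (lam * fS r s p.1 p.2.1 p.2.2 k) *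
            (if good P then Real.exp (lam * T (Function.update r k P.1)
              (Function.update s k P.2) p.1 p.2.1 p.2.2 k) else 0) +
            Real.exp (-lam * fS r s p.1 p.2.1 p.2.2 k) *
            (if good P then Real.exp (-lam * T (Function.update r k P.1)
              (Function.update s k P.2) p.1 p.2.1 p.2.2 k) else 0)) ≤
          (Real.exp (lam * fS r s p.1 p.2.1 p.2.2 k) +
            Real.exp (-lam * fS r s p.1 p.2.1 p.2.2 k)) * (A * Real.exp β) := by
        intro p
        rw [Finset.sum_add_distrib, ← Finset.mul_sum, ← Finset.mul_sum, add_mul]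
        exact add_le_add
          (mul_le_mul_of_nonneg_left (hplus _ _ _) (Real.exp_pos _).le)
          (mul_le_mul_of_nonneg_left (hminus _ _ _) (Real.exp_pos _).le)
      refine (Finset.sum_le_sum fun p _ => h2 p).trans ?_
      rw [← Finset.sum_mul]
      have h3 : 0 ≤ A * Real.exp β := mul_nonneg hA'.le (Real.exp_pos _).le
      refine (mul_le_mul_of_nonneg_right hS h3).trans (le_of_eq ?_)
      have h4 : fB q m lam (k + 1) = fB q m lam k + β := by
        unfold fB
        rw [Finset.sum_range_succ]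
      rw [hbd, h4, Real.exp_add (fB q m lam k) β]
      ring
    have hex : ∃ P, good P ∧ F P ≤ bd := by
      by_contra hno
      push Not at hno
      have h1 : ∃ P, good P := by
        by_contra hne
        push Not at hne
        rw [hAdef, Finset.sum_eq_zero] at hA'
        · exact lt_irrefl _ hA'
        · intro P _
          rw [if_neg (hne P)]
      obtain ⟨P0, hP0⟩ := h1
      have h2 : ∑ P : V q m × ZMod q, (if good P then bd else 0) <
          ∑ P : V q m × ZMod q, (if good P then F P else 0) := by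
        refine Finset.sum_lt_sum (fun P _ => ?_) ⟨P0, Finset.mem_univ _, ?_⟩
        · by_cases hP : good P
          · rw [if_pos hP, if_pos hP]
            exact (hno P hP).le
          · rw [if_neg hP, if_neg hP]
        · rw [if_pos hP0, if_pos hP0]
          exact hno P0 hP0
      have h3 : ∑ P : V q m × ZMod q, (if good P then bd else 0) = A * bd := by
        rw [hAdef, Finset.sum_mul]
        refine Finset.sum_congr rfl fun P _ => ?_
        by_cases hP : good P
        · rw [if_pos hP, if_pos hP, one_mul]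
        · rw [if_neg hP, if_neg hP, zero_mul]
      linarith
    obtain ⟨P, hP, hPF⟩ := hex
    refine ⟨Function.update r k P.1, Function.update s k P.2, ?_, hPF⟩
    intro c hc
    rcases Nat.lt_or_ge c (k + 1) with h | h
    · have hck : c ≤ k := by omega
      refine (f_Gd_congr (k := c) (r := Function.update r k P.1) (r' := r) fun i hi => ?_).2
        (hG c hck)
      rw [Function.update_of_ne (by omega)]
    · have : c = k + 1 := by omega
      rw [this]
      exact hP

theorem f_sum_nat (m : ℕ) : ∑ j ∈ range m, ((m - j : ℕ) : ℝ) = (m : ℝ) * (m + 1) / 2 := by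
  induction m with
  | zero => simp
  | succ m ih =>
    rw [Finset.sum_range_succ']
    have : ∀ j ∈ range m, ((m + 1 - (j + 1) : ℕ) : ℝ) = ((m - j : ℕ) : ℝ) := by
      intro j _
      congr 1
      omega
    rw [Finset.sum_congr rfl this, ih, Nat.sub_zero]
    push_cast
    ring

theorem f_fB (q m : ℕ) (lam : ℝ) : fB q m lam m =
    (m : ℝ) * (m + 1) / 2 * (4 * lam + 9 * (q : ℝ) ^ 4 * lam ^ 2) + m * lam := by
  unfold fB
  rw [Finset.sum_add_distrib, ← Finset.sum_mul, f_sum_nat, Finset.sum_const, Finset.card_range,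
    nsmul_eq_mul]

theorem f_final (Q M t lam S L2 Lq : ℝ) (hQ : 1 ≤ Q) (hM : 1 ≤ M) (ht2 : t * t = M)
    (ht1 : 1 ≤ t) (h7 : (3 * Q ^ 2 * t) * lam = 1)
    (h2 : lam * S ≤ L2 + 3 * (M * Lq) + (M * (M + 1) / 2 * (4 * lam + 9 * Q ^ 4 * lam ^ 2) +
      M * lam)) (hL2 : L2 ≤ 1) (hLq : Lq ≤ Q - 1) :
    S ≤ 2 * M ^ 2 + 18 * Q ^ 3 * (M * t) := by
  have hQ0 : 0 < Q := by linarith
  have ht0 : 0 < t := by linarith
  have hM0 : 0 < M := by linarith
  have hden : 0 < 3 * Q ^ 2 * t := by positivity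
  have h4 : S = (3 * Q ^ 2 * t) * (lam * S) := by
    rw [← mul_assoc, h7, one_mul]
  have h5 : S ≤ (3 * Q ^ 2 * t) * (1 + 3 * (M * (Q - 1)) +
      (M * (M + 1) / 2 * (4 * lam + 9 * Q ^ 4 * lam ^ 2) + M * lam)) := by
    rw [h4]
    refine mul_le_mul_of_nonneg_left ?_ hden.le
    have h6 : M * Lq ≤ M * (Q - 1) := mul_le_mul_of_nonneg_left hLq hM0.le
    linarith
  have h8 : (9 * Q ^ 4 * lam) * t = 3 * Q ^ 2 := by
    have e1 : (9 * Q ^ 4 * lam) * t = 3 * Q ^ 2 * ((3 * Q ^ 2 * t) * lam) := by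
      ring
    rw [e1, h7, mul_one]
  have h9 : (3 * Q ^ 2 * t) * (1 + 3 * (M * (Q - 1)) +
      (M * (M + 1) / 2 * (4 * lam + 9 * Q ^ 4 * lam ^ 2) + M * lam)) =
      3 * Q ^ 2 * t + 9 * Q ^ 2 * (Q - 1) * (M * t) +
      (2 * M ^ 2 + 2 * M) + M * (M + 1) / 2 * (9 * Q ^ 4 * lam) + M := by
    have e1 : (3 * Q ^ 2 * t) * (1 + 3 * (M * (Q - 1)) +
      (M * (M + 1) / 2 * (4 * lam + 9 * Q ^ 4 * lam ^ 2) + M * lam)) =
      3 * Q ^ 2 * t + 9 * Q ^ 2 * (Q - 1) * (M * t) +
      ((3 * Q ^ 2 * t) * lam) * (M * (M + 1) / 2 * (4 + 9 * Q ^ 4 * lam) + M) := by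
      ring
    rw [e1, h7]
    ring
  have h10 : M * (M + 1) / 2 * (9 * Q ^ 4 * lam) ≤ 3 * Q ^ 2 * (M * t) := by
    have e1 : M * (9 * Q ^ 4 * lam) = t * (3 * Q ^ 2) := by
      rw [← h8, ← ht2]
      ring
    have e2 : M * (M + 1) / 2 * (9 * Q ^ 4 * lam) = (M + 1) / 2 * (t * (3 * Q ^ 2)) := by
      rw [← e1]
      ring
    rw [e2]
    have e3 : (M + 1) / 2 ≤ M := by linarith
    have e4 : 0 ≤ t * (3 * Q ^ 2) := by positivity
    have e5 := mul_le_mul_of_nonneg_right e3 e4
    linarith
  have htM : t ≤ M * t := le_mul_of_one_le_left ht0.le hM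
  have h11 : 3 * Q ^ 2 * t ≤ 3 * Q ^ 2 * (M * t) :=
    mul_le_mul_of_nonneg_left htM (by positivity)
  have h12 : M ≤ M * t := le_mul_of_one_le_right hM0.le ht1
  have hmt : 0 ≤ M * t := by positivity
  have h13 : (9 * Q ^ 2 * (Q - 1) + 6 * Q ^ 2 + 3) * (M * t) ≤ 18 * Q ^ 3 * (M * t) := by
    refine mul_le_mul_of_nonneg_right ?_ hmt
    have e1 : 9 * Q ^ 2 * (Q - 1) + 6 * Q ^ 2 + 3 = 9 * Q ^ 3 - 3 * Q ^ 2 + 3 := by ring
    rw [e1]
    have e2 : 1 ≤ Q ^ 2 := one_le_pow₀ hQ
    have e3 : 0 < Q ^ 3 := by positivity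
    linarith
  have h14 : (9 * Q ^ 2 * (Q - 1) + 6 * Q ^ 2 + 3) * (M * t) =
      9 * Q ^ 2 * (Q - 1) * (M * t) + 6 * Q ^ 2 * (M * t) + 3 * (M * t) := by ring
  rw [h9] at h5
  linarith

theorem f_single {α : Type*} [Fintype α] (f : α → ℝ) (hf : ∀ a, 0 ≤ f a) (a : α) :
    f a ≤ ∑ b, f b :=
  Finset.single_le_sum (fun b _ => hf b) (Finset.mem_univ a)

theorem t_F (hE : S_E) : S_F := by
  classical
  intro q _ m hm
  have hqp : q.Prime := Fact.out
  have hq : (0 : ℝ) < (q : ℝ) := Nat.cast_pos.2 hqp.pos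
  have hq1 : (1 : ℝ) ≤ (q : ℝ) := by exact_mod_cast hqp.one_lt.le
  have hm1 : (1 : ℝ) ≤ (m : ℝ) := by exact_mod_cast hm
  obtain ⟨t, ht⟩ : ∃ t : ℝ, t = Real.sqrt m := ⟨_, rfl⟩
  rw [← ht]
  have ht2 : t * t = m := by
    rw [ht]
    exact Real.mul_self_sqrt (by linarith)
  have ht1 : 1 ≤ t := by
    rw [ht]
    exact Real.one_le_sqrt.2 hm1
  have ht0 : 0 < t := by linarith
  have hden : 0 < 3 * (q : ℝ) ^ 2 * t := by positivity
  obtain ⟨lam, hlam, h7⟩ : ∃ lam : ℝ, 0 < lam ∧ (3 * (q : ℝ) ^ 2 * t) * lam = 1 :=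
    ⟨1 / (3 * (q : ℝ) ^ 2 * t), by positivity, mul_one_div_cancel hden.ne'⟩
  have hl : lam * (3 * (q : ℝ) ^ 2) ≤ 1 := by
    have h3 : 0 < lam * (3 * (q : ℝ) ^ 2) := by positivity
    have h4 : lam * (3 * (q : ℝ) ^ 2) * t = 1 := by
      rw [← h7]
      ring
    nlinarith
  obtain ⟨r, s, hG, hS⟩ := f_step hE q m lam hlam.le hl m le_rfl
  refine ⟨r, s, hG, fun x y z => ?_⟩
  -- a single term
  have h1 : Real.exp (lam * |fS r s x y z m|) ≤
      2 * ((q : ℝ) ^ m) ^ 3 * Real.exp (fB q m lam m) := by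
    have h0 := f_single
        (fun p : V q m × V q m × V q m => Real.exp (lam * fS r s p.1 p.2.1 p.2.2 m) +
          Real.exp (-lam * fS r s p.1 p.2.1 p.2.2 m))
        (fun p => (add_pos (Real.exp_pos _) (Real.exp_pos _)).le) (x, y, z)
    refine le_trans ?_ (h0.trans hS)
    rcases abs_cases (fS r s x y z m) with h | h
    · rw [h.1]
      exact le_add_of_nonneg_right (Real.exp_pos _).le
    · rw [h.1, mul_neg, ← neg_mul]
      exact le_add_of_nonneg_left (Real.exp_pos _).le
  have h2 : lam * |fS r s x y z m| ≤ Real.log 2 + 3 * (m * Real.log q) + fB q m lam m := by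
    have h3 := Real.log_le_log (Real.exp_pos _) h1
    rw [Real.log_exp, Real.log_mul (by positivity) (Real.exp_pos _).ne', Real.log_exp,
      Real.log_mul (by norm_num) (by positivity), Real.log_pow, Real.log_pow] at h3
    push_cast at h3
    exact h3
  have hlog2 : Real.log 2 ≤ 1 := by
    have := Real.log_le_sub_one_of_pos (show (0 : ℝ) < 2 by norm_num)
    linarith
  have hlogq : Real.log q ≤ (q : ℝ) - 1 := Real.log_le_sub_one_of_pos hq
  rw [f_fB] at h2
  exact f_final q m t lam _ _ _ hq1 hm1 ht2 ht1 h7 h2 hlog2 hlogq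

end

end Pool.Agent.Lib.MP_bd3044_co
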