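import Pool.Agent.Lib.MP_bd3044_co.Stm

set_option autoImplicit false

namespace Pool.Agent.Lib.MP_bd3044_co

open Finset

section
variable {q m : ℕ}

theorem g_sum_zmod (q : ℕ) [NeZero q] (F : ℕ → ℝ) :
    ∑ w : ZMod q, F w.val = ∑ i ∈ range q, F i := by
  refine Finset.sum_nbij' (fun w => w.val) (fun i => (i : ZMod q)) ?_ ?_ ?_ ?_ ?_
  · intro w _
    exact Finset.mem_range.2 (ZMod.val_lt w)
  · intro i _
    exact Finset.mem_univ _
  · intro w _
    exact ZMod.natCast_zmod_val w
  · intro i hi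
    exact ZMod.val_cast_of_lt (Finset.mem_range.1 hi)
  · intro w _
    rfl

theorem g_th_ge (z : V q m) {k : ℕ} (hk : m ≤ k) : th z k = 0 := by
  unfold th
  refine Finset.sum_eq_zero fun l _ => ?_
  rw [if_neg]
  have := l.2
  omega

theorem g_th_rec [NeZero q] (z : V q m) {k : ℕ} (hk : k < m) :
    th z k = (((zz z k).val : ℝ) + th z (k + 1)) / q := by
  have hq : (q : ℝ) ≠ 0 := Nat.cast_ne_zero.2 (NeZero.ne q)
  unfold th
  rw [← Finset.add_sum_erase _ _ (Finset.mem_univ (⟨k, hk⟩ : Fin m)), add_div,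
    Finset.sum_div]
  rw [← Finset.add_sum_erase (Finset.univ : Finset (Fin m))
    (fun l : Fin m => (if k + 1 ≤ (l : ℕ) then ((z l).val : ℝ) /
      (q : ℝ) ^ ((l : ℕ) - (k + 1) + 1) else 0) / (q : ℝ)) (Finset.mem_univ (⟨k, hk⟩ : Fin m))]
  have h1 : ¬ (k + 1 ≤ k) := by omega
  simp only [le_refl, if_true, Nat.sub_self, zero_add, pow_one, h1, if_false, zero_div]
  congr 1
  · rw [zz, dif_pos hk]
  · refine Finset.sum_congr rfl fun l hl => ?_
    have hlk : (l : ℕ) ≠ k := by
      intro h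
      exact (Finset.mem_erase.1 hl).1 (Fin.ext h)
    by_cases h : k ≤ (l : ℕ)
    · have h2 : k + 1 ≤ (l : ℕ) := by omega
      rw [if_pos h, if_pos h2]
      have h3 : (l : ℕ) - k + 1 = ((l : ℕ) - (k + 1) + 1) + 1 := by omega
      rw [h3, pow_succ, div_div]
    · have h2 : ¬ k + 1 ≤ (l : ℕ) := by omega
      rw [if_neg h, if_neg h2, zero_div]

theorem g_val_le [NeZero q] (w : ZMod q) : (w.val : ℝ) ≤ (q : ℝ) - 1 := by
  have h : w.val + 1 ≤ q := ZMod.val_lt w
  have : ((w.val + 1 : ℕ) : ℝ) ≤ (q : ℝ) := by exact_mod_cast h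
  push_cast at this
  linarith

theorem g_th_bd [NeZero q] (z : V q m) (k : ℕ) : 0 ≤ th z k ∧ th z k ≤ 1 := by
  have hq : (0 : ℝ) < (q : ℝ) := Nat.cast_pos.2 (Nat.pos_of_ne_zero (NeZero.ne q))
  by_cases hk : m ≤ k
  · rw [g_th_ge z hk]
    simp
  · have hk' : k < m := by omega
    have ih := g_th_bd z (k + 1)
    have h1 := g_val_le (zz z k)
    have h0 : (0 : ℝ) ≤ ((zz z k).val : ℝ) := Nat.cast_nonneg _
    rw [g_th_rec z hk']
    constructor
    · exact div_nonneg (by linarith [ih.1]) hq.le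
    · rw [div_le_one hq]
      linarith [ih.2]
termination_by m - k

theorem g_u_sum [NeZero q] (z : V q m) (k : ℕ) : ∑ w, u z k w = 0 := by
  have hq : (q : ℝ) ≠ 0 := Nat.cast_ne_zero.2 (NeZero.ne q)
  unfold u
  rw [Finset.sum_add_distrib, Finset.sum_sub_distrib, ← Finset.mul_sum, Finset.sum_sub_distrib]
  have h1 : ∑ w : ZMod q, (if w.val < (zz z k).val then (1 : ℝ) else 0) = ((zz z k).val : ℝ) := by
    rw [g_sum_zmod q (fun i => if i < (zz z k).val then (1 : ℝ) else 0), ← Finset.sum_filter,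
      Finset.sum_const, nsmul_eq_mul, mul_one]
    congr 1
    have : (range q).filter (fun i => i < (zz z k).val) = range (zz z k).val := by
      ext i
      simp only [Finset.mem_filter, Finset.mem_range]
      have := ZMod.val_lt (zz z k)
      omega
    rw [this, Finset.card_range]
  have h2 : ∑ w : ZMod q, (if w = zz z k then (1 : ℝ) else 0) = 1 := by simp
  rw [h1, h2, Finset.sum_const, Finset.sum_const, Finset.card_univ, ZMod.card]
  simp only [nsmul_eq_mul]
  field_simp
  ring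

theorem g_u_bd [NeZero q] (z : V q m) (k : ℕ) (w : ZMod q) : |u z k w| ≤ 1 := by
  have hq : (0 : ℝ) < (q : ℝ) := Nat.cast_pos.2 (Nat.pos_of_ne_zero (NeZero.ne q))
  have ht := g_th_bd z (k + 1)
  have h1 := g_val_le (zz z k)
  have h0 : (0 : ℝ) ≤ ((zz z k).val : ℝ) := Nat.cast_nonneg _
  have ha : 0 ≤ (((zz z k).val : ℝ) + th z (k + 1)) / q := div_nonneg (by linarith [ht.1]) hq.le
  have hb : (((zz z k).val : ℝ) + th z (k + 1)) / q ≤ 1 := by
    rw [div_le_one hq]
    linarith [ht.2]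
  have e : u z k w = (if w.val < (zz z k).val then 1 else 0)
      + th z (k + 1) * (if w = zz z k then 1 else 0)
      - (((zz z k).val : ℝ) + th z (k + 1)) / q := by
    unfold u
    ring
  rw [e, abs_le]
  by_cases hw : w = zz z k
  · have hlt : ¬ w.val < (zz z k).val := by rw [hw]; exact lt_irrefl _
    rw [if_neg hlt, if_pos hw]
    constructor <;> linarith [ht.1, ht.2]
  · rw [if_neg hw]
    by_cases hlt : w.val < (zz z k).val
    · rw [if_pos hlt]
      constructor <;> linarith [ht.1, ht.2]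
    · rw [if_neg hlt]
      constructor <;> linarith [ht.1, ht.2]

/-- lexicographic comparison from index `k` on -/
def gLk (z : V q m) (v : ℕ → ZMod q) (k : ℕ) : Prop :=
  ∃ a : Fin m, k ≤ (a : ℕ) ∧ (∀ l : Fin m, k ≤ (l : ℕ) → l < a → v l = z l) ∧
    (v a).val < (z a).val

open Classical in
/-- the rest of the comparison from index `k` on -/
noncomputable def gE (z : V q m) (v : ℕ → ZMod q) (k : ℕ) : ℝ :=
  (if gLk z v k then 1 else 0) - th z k

theorem gLk_lt (z : V q m) (v : ℕ → ZMod q) {k : ℕ} (hk : k < m)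
    (h : (v k).val < (zz z k).val) : gLk z v k := by
  refine ⟨⟨k, hk⟩, le_refl _, ?_, ?_⟩
  · intro l h1 h2
    have : (l : ℕ) < k := h2
    omega
  · rw [zz, dif_pos hk] at h
    exact h

theorem gLk_eq (z : V q m) (v : ℕ → ZMod q) {k : ℕ} (hk : k < m)
    (h : v k = zz z k) : gLk z v k ↔ gLk z v (k + 1) := by
  rw [zz, dif_pos hk] at h
  constructor
  · rintro ⟨a, h1, h2, h3⟩
    refine ⟨a, ?_, fun l h4 h5 => h2 l (by omega) h5, h3⟩
    rcases Nat.lt_or_ge k (a : ℕ) with h6 | h6
    · omega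
    · exfalso
      have h7 : (a : ℕ) = k := by omega
      have h8 : a = ⟨k, hk⟩ := Fin.ext h7
      rw [h7, h8, h] at h3
      exact lt_irrefl _ h3
  · rintro ⟨a, h1, h2, h3⟩
    refine ⟨a, by omega, fun l h4 h5 => ?_, h3⟩
    rcases Nat.lt_or_ge k (l : ℕ) with h6 | h6
    · exact h2 l (by omega) h5
    · have h7 : (l : ℕ) = k := by omega
      have h8 : l = ⟨k, hk⟩ := Fin.ext h7
      rw [h7, h8, h]

theorem gLk_gt (z : V q m) (v : ℕ → ZMod q) {k : ℕ} (hk : k < m)
    (h : (zz z k).val < (v k).val) : ¬ gLk z v k := by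
  rw [zz, dif_pos hk] at h
  rintro ⟨a, h1, h2, h3⟩
  rcases Nat.lt_or_ge k (a : ℕ) with h6 | h6
  · have h7 := h2 ⟨k, hk⟩ (le_refl _) h6
    rw [← h7] at h
    exact lt_irrefl _ h
  · have h7 : (a : ℕ) = k := by omega
    have h8 : a = ⟨k, hk⟩ := Fin.ext h7
    rw [h7, h8] at h3
    omega

theorem gE_rec [NeZero q] (z : V q m) (v : ℕ → ZMod q) {k : ℕ} (hk : k < m) :
    gE z v k = u z k (v k) + (if v k = zz z k then gE z v (k + 1) else 0) := by
  classical
  have hth := g_th_rec z hk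
  have e : u z k (v k) = (if (v k).val < (zz z k).val then 1 else 0)
      + th z (k + 1) * (if v k = zz z k then 1 else 0)
      - (((zz z k).val : ℝ) + th z (k + 1)) / q := by
    unfold u
    ring
  rw [e, ← hth]
  unfold gE
  by_cases hw : v k = zz z k
  · have hlt : ¬ (v k).val < (zz z k).val := by rw [hw]; exact lt_irrefl _
    rw [if_neg hlt, if_pos hw, if_pos hw]
    simp only [gLk_eq z v hk hw]
    ring
  · rw [if_neg hw, if_neg hw]
    rcases Nat.lt_trichotomy (v k).val (zz z k).val with hlt | heq | hgt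
    · rw [if_pos hlt, if_pos (gLk_lt z v hk hlt)]
      ring
    · exact absurd (ZMod.val_injective q heq) hw
    · rw [if_neg (not_lt.2 hgt.le), if_neg (gLk_gt z v hk hgt)]
      ring

theorem gE_last [NeZero q] (z : V q m) (v : ℕ → ZMod q) : gE z v m = 0 := by
  classical
  unfold gE
  rw [g_th_ge z (le_refl m), if_neg, sub_zero]
  rintro ⟨a, h, -⟩
  have := a.2
  omega

open Classical in
theorem gE_sum [NeZero q] (z : V q m) (v : ℕ → ZMod q) (K : ℕ) (hK : K ≤ m) :
    gE z v 0 = ∑ k ∈ range K, (if ∀ j < k, v j = zz z j then u z k (v k) else 0)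
      + (if ∀ j < K, v j = zz z j then gE z v K else 0) := by
  induction K with
  | zero => simp
  | succ K ih =>
    rw [ih (by omega), Finset.sum_range_succ, add_assoc]
    congr 1
    by_cases h : ∀ j < K, v j = zz z j
    · rw [if_pos h, if_pos h, gE_rec z v (by omega)]
      congr 1
      by_cases h2 : v K = zz z K
      · have h3 : ∀ j < K + 1, v j = zz z j := by
          intro j hj
          rcases Nat.lt_or_ge j K with h4 | h4
          · exact h j h4
          · have : j = K := by omega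
            rw [this, h2]
        rw [if_pos h2, if_pos h3]
      · have h3 : ¬ ∀ j < K + 1, v j = zz z j := fun h3 => h2 (h3 K (by omega))
        rw [if_neg h2, if_neg h3]
    · have h3 : ¬ ∀ j < K + 1, v j = zz z j := fun h3 => h fun j hj => h3 j (by omega)
      rw [if_neg h, if_neg h, if_neg h3, add_zero]

theorem g_Lx_unique {x n : V q m} {a a' : Fin m} (h : Lx x n a) (h' : Lx x n a') : a = a' := by
  rcases lt_trichotomy a a' with h1 | h1 | h1
  · have := h'.1 a h1
    have h2 := h.2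
    rw [this] at h2
    exact absurd h2 (lt_irrefl _)
  · exact h1
  · have := h.1 a' h1
    have h2 := h'.2
    rw [this] at h2
    exact absurd h2 (lt_irrefl _)

theorem g_Ly_unique {y n : V q m} {e e' : Fin m} (h : Ly y n e) (h' : Ly y n e') : e = e' := by
  rcases lt_trichotomy e e' with h1 | h1 | h1
  · have := h.1 e' h1
    have h2 := h'.2
    rw [this] at h2
    exact absurd h2 (lt_irrefl _)
  · exact h1
  · have := h'.1 e h1
    have h2 := h.2
    rw [this] at h2
    exact absurd h2 (lt_irrefl _)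

theorem g_zt_add (r : ℕ → V q m) (s : ℕ → ZMod q) (j : ℕ) (n g : V q m) (c : ZMod q) :
    zt r s j (n + c • g) = zt r s j n + c * (r j ⬝ᵥ g) := by
  unfold zt
  rw [dotProduct_add, dotProduct_smul, smul_eq_mul]
  ring

open Classical in
/-- the terms with `e > a + k + 1` vanish -/
theorem g_far [Fact q.Prime] (r : ℕ → V q m) (s : ℕ → ZMod q) (x y z : V q m) (k : ℕ)
    (a e : Fin m) (g : V q m) (hg : Win ((a : ℕ) + 1) (k + 1) g) (hr : ∀ j < k, r j ⬝ᵥ g = 0)
    (hb : r k ⬝ᵥ g ≠ 0) (hae : (a : ℕ) + k + 1 < (e : ℕ)) :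
    ∑ n : V q m, (if Lx x n a ∧ Ly y n e ∧ Az r s z k n then u z k (zt r s k n) else 0) = 0 := by
  set S := ∑ n : V q m, (if Lx x n a ∧ Ly y n e ∧ Az r s z k n then u z k (zt r s k n) else 0)
    with hS
  have hinv : ∀ (c : ZMod q) (n : V q m), (Lx x (n + c • g) a ∧ Ly y (n + c • g) e ∧
      Az r s z k (n + c • g)) ↔ (Lx x n a ∧ Ly y n e ∧ Az r s z k n) := by
    intro c n
    have h0 : ∀ l : Fin m, l ≤ a → (n + c • g) l = n l := by
      intro l hl
      have hl' : (l : ℕ) ≤ a := hl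
      have : g l = 0 := hg l (Or.inl (by omega))
      simp [this]
    have h1 : ∀ l : Fin m, e ≤ l → (n + c • g) l = n l := by
      intro l hl
      have hl' : (e : ℕ) ≤ l := hl
      have : g l = 0 := hg l (Or.inr (by omega))
      simp [this]
    have e1 : Lx x (n + c • g) a ↔ Lx x n a := by
      unfold Lx
      rw [h0 a le_rfl]
      refine and_congr (forall_congr' fun l => forall_congr' fun hl => ?_) Iff.rfl
      rw [h0 l hl.le]
    have e2 : Ly y (n + c • g) e ↔ Ly y n e := by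
      unfold Ly
      rw [h1 e le_rfl]
      refine and_congr (forall_congr' fun l => forall_congr' fun hl => ?_) Iff.rfl
      rw [h1 l hl.le]
    have e3 : Az r s z k (n + c • g) ↔ Az r s z k n := by
      unfold Az
      refine forall_congr' fun j => forall_congr' fun hj => ?_
      rw [g_zt_add, hr j hj, mul_zero, add_zero]
    rw [e1, e2, e3]
  have hshift : ∀ c : ZMod q, S = ∑ n : V q m, (if Lx x n a ∧ Ly y n e ∧ Az r s z k n
      then u z k (zt r s k n + c * (r k ⬝ᵥ g)) else 0) := by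
    intro c
    rw [hS]
    refine (Fintype.sum_equiv (Equiv.addRight (c • g)) _ _ fun n => ?_).symm
    change _ = (if Lx x (n + c • g) a ∧ Ly y (n + c • g) e ∧ Az r s z k (n + c • g)
      then u z k (zt r s k (n + c • g)) else 0)
    rw [g_zt_add]
    by_cases h : Lx x n a ∧ Ly y n e ∧ Az r s z k n
    · rw [if_pos h, if_pos ((hinv c n).2 h)]
    · rw [if_neg h, if_neg (fun h' => h ((hinv c n).1 h'))]
  have hq : (q : ℝ) ≠ 0 := Nat.cast_ne_zero.2 (Fact.out : q.Prime).ne_zero
  have hqS : (q : ℝ) * S = 0 := by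
    have h1 : ∑ _c : ZMod q, S = (q : ℝ) * S := by
      rw [Finset.sum_const, Finset.card_univ, ZMod.card, nsmul_eq_mul]
    rw [← h1, Finset.sum_congr rfl fun c _ => hshift c, Finset.sum_comm]
    refine Finset.sum_eq_zero fun n _ => ?_
    by_cases h : Lx x n a ∧ Ly y n e ∧ Az r s z k n
    · simp only [if_pos h]
      have h2 : Function.Bijective fun c : ZMod q => zt r s k n + c * (r k ⬝ᵥ g) := by
        rw [Fintype.bijective_iff_injective_and_card]
        refine ⟨fun c c' hc => ?_, rfl⟩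
        have := add_left_cancel hc
        exact mul_right_cancel₀ hb this
      rw [h2.sum_comp (fun w => u z k w)]
      exact g_u_sum z k
    · simp only [if_neg h]
      simp
  exact (mul_eq_zero.1 hqS).resolve_left hq

theorem g_D1 (hC : S_C) (q : ℕ) [Fact q.Prime] (m : ℕ) (r : ℕ → V q m) (s : ℕ → ZMod q)
    (x y z : V q m) (hGd : ∀ c ≤ m, Gd r c) : D1 r s x y z = ∑ k ∈ range m, T r s x y z k := by
  classical
  -- step 1
  have step1 : ∀ n : V q m, ((if ∃ a, Lx z (fun j : Fin m => zt r s j n) a then (1 : ℝ) else 0)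
      - th z 0) = ∑ k ∈ range m, (if Az r s z k n then u z k (zt r s k n) else 0) := by
    intro n
    have h := gE_sum z (fun j => zt r s j n) m le_rfl
    rw [gE_last] at h
    simp only [ite_self, add_zero] at h
    have h0 : gE z (fun j => zt r s j n) 0 =
        (if ∃ a, Lx z (fun j : Fin m => zt r s j n) a then (1 : ℝ) else 0) - th z 0 := by
      unfold gE
      congr 1
      have : gLk z (fun j => zt r s j n) 0 ↔ ∃ a, Lx z (fun j : Fin m => zt r s j n) a := by
        unfold gLk Lx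
        simp
      simp only [this]
    rw [← h0, h]
    refine Finset.sum_congr rfl fun k _ => ?_
    by_cases h2 : Az r s z k n
    · rw [if_pos h2, if_pos (show ∀ j < k, zt r s j n = zz z j from h2)]
    · rw [if_neg h2, if_neg (show ¬ ∀ j < k, zt r s j n = zz z j from h2)]
  unfold D1
  have step2 : ∀ n : V q m, (if (∃ a, Lx x n a) ∧ (∃ e, Ly y n e)
      then (if ∃ a, Lx z (fun j : Fin m => zt r s j n) a then (1 : ℝ) else 0) - th z 0 else 0) =
      ∑ k ∈ range m, (if ((∃ a, Lx x n a) ∧ (∃ e, Ly y n e)) ∧ Az r s z k n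
        then u z k (zt r s k n) else 0) := by
    intro n
    by_cases h : (∃ a, Lx x n a) ∧ (∃ e, Ly y n e)
    · rw [if_pos h, step1 n]
      refine Finset.sum_congr rfl fun k _ => ?_
      by_cases h2 : Az r s z k n
      · rw [if_pos h2, if_pos ⟨h, h2⟩]
      · rw [if_neg h2, if_neg (fun h3 => h2 h3.2)]
    · rw [if_neg h]
      refine (Finset.sum_eq_zero fun k _ => ?_).symm
      rw [if_neg (fun h3 => h h3.1)]
  rw [Finset.sum_congr rfl fun n _ => step2 n, Finset.sum_comm]
  refine Finset.sum_congr rfl fun k hk => ?_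
  have hkm : k < m := Finset.mem_range.1 hk
  unfold T
  rw [← sub_eq_zero, ← Finset.sum_sub_distrib]
  have step3 : ∀ n : V q m, ((if ((∃ a, Lx x n a) ∧ (∃ e, Ly y n e)) ∧ Az r s z k n
        then u z k (zt r s k n) else 0) -
      (if (∃ a e : Fin m, (e : ℕ) ≤ (a : ℕ) + k + 1 ∧ Lx x n a ∧ Ly y n e) ∧ Az r s z k n
        then u z k (zt r s k n) else 0)) =
      ∑ a : Fin m, ∑ e : Fin m, (if (a : ℕ) + k + 1 < (e : ℕ) then
        (if Lx x n a ∧ Ly y n e ∧ Az r s z k n then u z k (zt r s k n) else 0) else 0) := by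
    intro n
    by_cases hA : Az r s z k n
    swap
    · rw [if_neg (fun h3 => hA h3.2), if_neg (fun h3 => hA h3.2), sub_zero]
      refine (Finset.sum_eq_zero fun a _ => Finset.sum_eq_zero fun e _ => ?_).symm
      rw [if_neg (show ¬ (Lx x n a ∧ Ly y n e ∧ Az r s z k n) from fun h3 => hA h3.2.2), ite_self]
    by_cases hP : (∃ a, Lx x n a) ∧ (∃ e, Ly y n e)
    swap
    · rw [if_neg (fun h3 => hP h3.1), if_neg, sub_zero]
      · refine (Finset.sum_eq_zero fun a _ => Finset.sum_eq_zero fun e _ => ?_).symm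
        rw [if_neg (show ¬ (Lx x n a ∧ Ly y n e ∧ Az r s z k n) from
          fun h3 => hP ⟨⟨a, h3.1⟩, ⟨e, h3.2.1⟩⟩), ite_self]
      · rintro ⟨⟨a, e, -, h1, h2⟩, -⟩
        exact hP ⟨⟨a, h1⟩, ⟨e, h2⟩⟩
    obtain ⟨⟨a, ha⟩, ⟨e, he⟩⟩ := hP
    have hR : ∑ a' : Fin m, ∑ e' : Fin m, (if (a' : ℕ) + k + 1 < (e' : ℕ) then
        (if Lx x n a' ∧ Ly y n e' ∧ Az r s z k n then u z k (zt r s k n) else 0) else 0) =
        (if (a : ℕ) + k + 1 < (e : ℕ) then u z k (zt r s k n) else 0) := by
      rw [Finset.sum_eq_single a, Finset.sum_eq_single e]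
      · rw [if_pos (⟨ha, he, hA⟩ : Lx x n a ∧ Ly y n e ∧ Az r s z k n)]
      · intro e' _ hne
        rw [if_neg (show ¬ (Lx x n a ∧ Ly y n e' ∧ Az r s z k n) from
          fun h3 => hne (g_Ly_unique h3.2.1 he)), ite_self]
      · intro h
        exact absurd (Finset.mem_univ e) h
      · intro a' _ hne
        refine Finset.sum_eq_zero fun e' _ => ?_
        rw [if_neg (show ¬ (Lx x n a' ∧ Ly y n e' ∧ Az r s z k n) from
          fun h3 => hne (g_Lx_unique h3.1 ha)), ite_self]
      · intro h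
        exact absurd (Finset.mem_univ a) h
    rw [hR, if_pos ⟨⟨⟨a, ha⟩, ⟨e, he⟩⟩, hA⟩]
    by_cases hlt : (a : ℕ) + k + 1 < (e : ℕ)
    · rw [if_pos hlt, if_neg, sub_zero]
      rintro ⟨⟨a', e', h1, h2, h3⟩, -⟩
      rw [g_Lx_unique h2 ha, g_Ly_unique h3 he] at h1
      omega
    · rw [if_neg hlt, if_pos ⟨⟨a, e, by omega, ha, he⟩, hA⟩, sub_self]
  rw [Finset.sum_congr rfl fun n _ => step3 n, Finset.sum_comm]
  refine Finset.sum_eq_zero fun a _ => ?_
  rw [Finset.sum_comm]
  refine Finset.sum_eq_zero fun e _ => ?_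
  by_cases hlt : (a : ℕ) + k + 1 < (e : ℕ)
  swap
  · refine Finset.sum_eq_zero fun n _ => ?_
    rw [if_neg hlt]
  simp only [if_pos hlt]
  have he := e.2
  obtain ⟨⟨g, hg⟩, -, -⟩ := hC q m r k hkm (hGd k hkm.le)
  have hga := hg ((a : ℕ) + 1) (by omega)
  refine g_far r s x y z k a e (g ((a : ℕ) + 1)) hga.1 hga.2.1 ?_ hlt
  intro hb
  have h0 := hGd (k + 1) hkm ((a : ℕ) + 1) (by omega) (g ((a : ℕ) + 1)) hga.1 (by
    intro j hj
    rcases Nat.lt_or_ge j k with h4 | h4
    · exact hga.2.1 j h4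
    · have : j = k := by omega
      rw [this, hb])
  have h1 := hga.2.2.1 ⟨(a : ℕ) + 1, by omega⟩ rfl
  rw [h0] at h1
  exact h1 rfl

theorem t_G (hC : S_C) : S_G := by
  refine ⟨fun q _ m z k => ⟨g_u_sum z k, fun w => g_u_bd z k w⟩, ?_⟩
  intro q _ m r s x y z hGd
  exact g_D1 hC q m r s x y z hGd

end

end Pool.Agent.Lib.MP_bd3044_co
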