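import Pool.Agent.Lib.MP_bd3044_co.Stm

set_option autoImplicit false

namespace Pool.Agent.Lib.MP_bd3044_co

open Finset

section
variable {q m : ℕ}

theorem h_cnt [NeZero q] {c : ℕ} (hc : c ≤ q) :
    (univ.filter fun w : ZMod q => w.val < c).card = c := by
  have h : (univ.filter fun w : ZMod q => w.val < c).card = (range c).card := by
    refine Finset.card_nbij' (fun w => w.val) (fun i => (i : ZMod q)) ?_ ?_ ?_ ?_
    · intro w hw
      have : w.val < c := by simpa using hw
      simpa using this
    · intro i hi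
      have hi' : i < c := by simpa using hi
      have : ((i : ZMod q)).val = i := ZMod.val_cast_of_lt (lt_of_lt_of_le hi' hc)
      simp [this, hi']
    · intro w _
      exact ZMod.natCast_zmod_val w
    · intro i hi
      have hi' : i < c := by simpa using hi
      exact ZMod.val_cast_of_lt (lt_of_lt_of_le hi' hc)
  rw [h, Finset.card_range]

theorem h_val_le [NeZero q] (w : ZMod q) : (w.val : ℝ) ≤ (q : ℝ) - 1 := by
  have h : w.val + 1 ≤ q := ZMod.val_lt w
  have : ((w.val + 1 : ℕ) : ℝ) ≤ (q : ℝ) := by exact_mod_cast h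
  push_cast at this
  linarith

theorem h_Lx_unique {x n : V q m} {a a' : Fin m} (h : Lx x n a) (h' : Lx x n a') : a = a' := by
  rcases lt_trichotomy a a' with h1 | h1 | h1
  · have := h'.1 a h1
    have h2 := h.2
    rw [this] at h2
    exact absurd h2 (lt_irrefl _)
  · exact h1
  · have := h.1 a' h1
    have h2 := h'.2
    rw [this] at h2
    exact absurd h2 (lt_irrefl _)

theorem h_Ly_unique {y n : V q m} {e e' : Fin m} (h : Ly y n e) (h' : Ly y n e') : e = e' := by
  rcases lt_trichotomy e e' with h1 | h1 | h1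
  · have := h.1 e' h1
    have h2 := h'.2
    rw [this] at h2
    exact absurd h2 (lt_irrefl _)
  · exact h1
  · have := h'.1 e h1
    have h2 := h.2
    rw [this] at h2
    exact absurd h2 (lt_irrefl _)

/-- the digit sets of the points of type `(a, e)` -/
noncomputable def hS [NeZero q] (x y : V q m) (a e : Fin m) (l : Fin m) : Finset (ZMod q) :=
  if l < a then {x l} else if l = a then univ.filter fun w : ZMod q => w.val < (x a).val
    else if l < e then univ else if l = e then univ.filter fun w : ZMod q => w.val < (y e).val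
    else {y l}

open Classical in
theorem h_set [NeZero q] (x y : V q m) {a e : Fin m} (hae : a < e) :
    (univ.filter fun n : V q m => Lx x n a ∧ Ly y n e) = Fintype.piFinset (hS x y a e) := by
  ext n
  simp only [Finset.mem_filter, Finset.mem_univ, true_and, Fintype.mem_piFinset]
  constructor
  · rintro ⟨⟨h1, h2⟩, h3, h4⟩ l
    unfold hS
    split_ifs with c1 c2 c3 c4
    · simp [h1 l c1]
    · subst c2
      simpa using h2
    · simp
    · subst c4
      simpa using h4
    · have : e < l := lt_of_le_of_ne (not_lt.1 c3) (Ne.symm c4)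
      simp [h3 l this]
  · intro h
    refine ⟨⟨fun l hl => ?_, ?_⟩, fun l hl => ?_, ?_⟩
    · have := h l
      unfold hS at this
      rw [if_pos hl] at this
      simpa using this
    · have := h a
      unfold hS at this
      rw [if_neg (lt_irrefl a), if_pos rfl] at this
      simpa using this
    · have := h l
      unfold hS at this
      rw [if_neg (not_lt.2 (hae.le.trans hl.le)), if_neg (hae.trans hl).ne',
        if_neg (not_lt.2 hl.le), if_neg hl.ne'] at this
      simpa using this
    · have := h e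
      unfold hS at this
      rw [if_neg (not_lt.2 hae.le), if_neg hae.ne', if_neg (lt_irrefl e), if_pos rfl] at this
      simpa using this

open Classical in
theorem h_card [NeZero q] (x y : V q m) {a e : Fin m} (hae : a < e) :
    (univ.filter fun n : V q m => Lx x n a ∧ Ly y n e).card =
      (x a).val * (y e).val * q ^ ((e : ℕ) - (a : ℕ) - 1) := by
  rw [h_set x y hae, Fintype.card_piFinset]
  have hc : ∀ l : Fin m, (hS x y a e l).card = (if l = a then (x a).val else 1) *
      (if l = e then (y e).val else 1) * (if l ∈ Ioo a e then q else 1) := by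
    intro l
    unfold hS
    split_ifs with c1 c2 c3 c4 c5 c6 c7 c8
    all_goals first
      | simp
      | skip
    all_goals try (simp only [Finset.mem_Ioo] at *)
    all_goals try omega
    all_goals exact h_cnt (ZMod.val_lt _).le
  rw [Finset.prod_congr rfl fun l _ => hc l, Finset.prod_mul_distrib, Finset.prod_mul_distrib]
  congr 1
  · simp
  · rw [Finset.prod_ite, Finset.prod_const, Finset.prod_const_one, mul_one]
    congr 1
    rw [Finset.filter_mem_eq_inter, Finset.univ_inter, Fin.card_Ioo]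

theorem h_geo [NeZero q] (y : V q m) (A : ℕ) :
    ∑ e : Fin m, (if (e : ℕ) ≤ A then ((y e).val : ℝ) / (q : ℝ) ^ (A + 1 - (e : ℕ)) else 0) ≤ 1 := by
  have hq : (0 : ℝ) < (q : ℝ) := Nat.cast_pos.2 (Nat.pos_of_ne_zero (NeZero.ne q))
  -- one more digit
  have hone : ∀ B : ℕ, ∑ e : Fin m, (if (e : ℕ) = B then ((y e).val : ℝ) / (q : ℝ) else 0) ≤
      ((q : ℝ) - 1) / q := by
    intro B
    have h0 : (0 : ℝ) ≤ ((q : ℝ) - 1) / q := by
      have : (1 : ℝ) ≤ (q : ℝ) := by
        exact_mod_cast Nat.pos_of_ne_zero (NeZero.ne q)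
      exact div_nonneg (by linarith) hq.le
    by_cases hB : B < m
    · rw [Finset.sum_eq_single (⟨B, hB⟩ : Fin m)]
      · rw [if_pos rfl]
        exact div_le_div_of_nonneg_right (h_val_le _) hq.le
      · intro b _ hb
        rw [if_neg]
        intro h
        exact hb (Fin.ext h)
      · intro h
        exact absurd (Finset.mem_univ _) h
    · rw [Finset.sum_eq_zero]
      · exact h0
      · intro e _
        rw [if_neg]
        have := e.2
        omega
  induction A with
  | zero =>
    have h1 := hone 0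
    have h2 : ∑ e : Fin m, (if (e : ℕ) ≤ 0 then ((y e).val : ℝ) / (q : ℝ) ^ (0 + 1 - (e : ℕ)) else 0)
        = ∑ e : Fin m, (if (e : ℕ) = 0 then ((y e).val : ℝ) / (q : ℝ) else 0) := by
      refine Finset.sum_congr rfl fun e _ => ?_
      by_cases h : (e : ℕ) = 0
      · rw [if_pos h.le, if_pos h, h]
        simp
      · rw [if_neg (by omega), if_neg h]
    rw [h2]
    refine h1.trans ?_
    rw [div_le_one hq]
    linarith
  | succ A ih =>
    have h1 := hone (A + 1)
    have h2 : ∑ e : Fin m, (if (e : ℕ) ≤ A + 1 then ((y e).val : ℝ) /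
        (q : ℝ) ^ (A + 1 + 1 - (e : ℕ)) else 0)
        = ∑ e : Fin m, (if (e : ℕ) = A + 1 then ((y e).val : ℝ) / (q : ℝ) else 0)
        + (∑ e : Fin m, (if (e : ℕ) ≤ A then ((y e).val : ℝ) / (q : ℝ) ^ (A + 1 - (e : ℕ)) else 0))
          / q := by
      rw [Finset.sum_div, ← Finset.sum_add_distrib]
      refine Finset.sum_congr rfl fun e _ => ?_
      by_cases h : (e : ℕ) = A + 1
      · rw [if_pos h.le, if_pos h, if_neg (by omega), h]
        simp
      · by_cases h3 : (e : ℕ) ≤ A
        · rw [if_pos (by omega), if_neg h, if_pos h3, zero_add, div_div]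
          congr 1
          rw [← pow_succ]
          congr 1
          omega
        · rw [if_neg (by omega), if_neg h, if_neg h3]
          simp
    rw [h2]
    have h3 : (∑ e : Fin m, (if (e : ℕ) ≤ A then ((y e).val : ℝ) /
        (q : ℝ) ^ (A + 1 - (e : ℕ)) else 0)) / q ≤ 1 / q :=
      div_le_div_of_nonneg_right ih hq.le
    have h4 : ((q : ℝ) - 1) / q + 1 / q = 1 := by
      field_simp
      ring
    linarith

open Classical in
theorem h_main (q : ℕ) [Fact q.Prime] (m : ℕ) (x y : V q m) :
    |(((univ.filter fun n : V q m => (∃ a, Lx x n a) ∧ ∃ e, Ly y n e).card : ℕ) : ℝ)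
      - (XV x : ℝ) * (YV y : ℝ) / (q : ℝ) ^ m| ≤ 2 * q * m := by
  have hqp : q.Prime := Fact.out
  have hq : (0 : ℝ) < (q : ℝ) := Nat.cast_pos.2 hqp.pos
  have hq1 : (1 : ℝ) ≤ (q : ℝ) := by exact_mod_cast hqp.one_lt.le
  -- the counts
  set N : Fin m → Fin m → ℕ := fun a e => (univ.filter fun n : V q m => Lx x n a ∧ Ly y n e).card
    with hN
  set M : Fin m → Fin m → ℝ := fun a e =>
    ((x a).val : ℝ) * (q : ℝ) ^ (m - 1 - (a : ℕ)) * (((y e).val : ℝ) * (q : ℝ) ^ (e : ℕ)) /
      (q : ℝ) ^ m with hM
  have hcount : (((univ.filter fun n : V q m => (∃ a, Lx x n a) ∧ ∃ e, Ly y n e).card : ℕ) : ℝ) =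
      ∑ a : Fin m, ∑ e : Fin m, (N a e : ℝ) := by
    have h1 : ∀ a e : Fin m, (N a e : ℝ) =
        ∑ n : V q m, (if Lx x n a ∧ Ly y n e then (1 : ℝ) else 0) := by
      intro a e
      rw [hN, ← Finset.sum_filter, Finset.sum_const, nsmul_eq_mul, mul_one]
    simp only [h1]
    have h2 : ∑ a : Fin m, ∑ e : Fin m, ∑ n : V q m,
        (if Lx x n a ∧ Ly y n e then (1 : ℝ) else 0) =
        ∑ n : V q m, ∑ a : Fin m, ∑ e : Fin m, (if Lx x n a ∧ Ly y n e then (1 : ℝ) else 0) := by
      have : ∀ a : Fin m, ∑ e : Fin m, ∑ n : V q m,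
          (if Lx x n a ∧ Ly y n e then (1 : ℝ) else 0) =
          ∑ n : V q m, ∑ e : Fin m, (if Lx x n a ∧ Ly y n e then (1 : ℝ) else 0) :=
        fun a => Finset.sum_comm
      rw [Finset.sum_congr rfl fun a _ => this a, Finset.sum_comm]
    rw [h2, Finset.card_filter]
    push_cast
    refine Finset.sum_congr rfl fun n _ => ?_
    by_cases hP : (∃ a, Lx x n a) ∧ (∃ e, Ly y n e)
    · rw [if_pos hP]
      obtain ⟨⟨a, ha⟩, ⟨e, he⟩⟩ := hP
      rw [Finset.sum_eq_single a, Finset.sum_eq_single e, if_pos ⟨ha, he⟩]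
      · intro e' _ hne
        rw [if_neg (fun h3 => hne (h_Ly_unique h3.2 he))]
      · intro h
        exact absurd (Finset.mem_univ e) h
      · intro a' _ hne
        refine Finset.sum_eq_zero fun e' _ => ?_
        rw [if_neg (fun h3 => hne (h_Lx_unique h3.1 ha))]
      · intro h
        exact absurd (Finset.mem_univ a) h
    · rw [if_neg hP]
      refine (Finset.sum_eq_zero fun a _ => Finset.sum_eq_zero fun e _ => ?_).symm
      rw [if_neg (fun h3 => hP ⟨⟨a, h3.1⟩, ⟨e, h3.2⟩⟩)]
  have hvol : (XV x : ℝ) * (YV y : ℝ) / (q : ℝ) ^ m = ∑ a : Fin m, ∑ e : Fin m, M a e := by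
    unfold XV YV
    push_cast
    rw [Finset.sum_mul_sum, Finset.sum_div]
    refine Finset.sum_congr rfl fun a _ => ?_
    rw [Finset.sum_div]
  rw [hcount, hvol, ← Finset.sum_sub_distrib]
  -- one `a`
  have hrow : ∀ a : Fin m, |∑ e : Fin m, (N a e : ℝ) - ∑ e : Fin m, M a e| ≤ 2 * q := by
    intro a
    have ha := a.2
    -- the large part
    have hbig : ∀ e : Fin m, ¬ ((e : ℕ) ≤ (a : ℕ)) → (N a e : ℝ) = M a e := by
      intro e he
      have he2 := e.2
      have hlt : a < e := not_le.1 he
      rw [hN, hM]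
      simp only
      rw [h_card x y hlt]
      push_cast
      rw [eq_div_iff (pow_pos hq m).ne']
      have h5 : (q : ℝ) ^ ((e : ℕ) - (a : ℕ) - 1) * (q : ℝ) ^ m =
          (q : ℝ) ^ (m - 1 - (a : ℕ)) * (q : ℝ) ^ (e : ℕ) := by
        rw [← pow_add, ← pow_add]
        congr 1
        have : (a : ℕ) < (e : ℕ) := hlt
        omega
      calc ((x a).val : ℝ) * ((y e).val : ℝ) * (q : ℝ) ^ ((e : ℕ) - (a : ℕ) - 1) * (q : ℝ) ^ m
          = ((x a).val : ℝ) * ((y e).val : ℝ) *
            ((q : ℝ) ^ ((e : ℕ) - (a : ℕ) - 1) * (q : ℝ) ^ m) := by ring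
        _ = _ := by rw [h5]; ring
    have hsplit : ∑ e : Fin m, (N a e : ℝ) - ∑ e : Fin m, M a e =
        ∑ e : Fin m, (if (e : ℕ) ≤ (a : ℕ) then (N a e : ℝ) else 0) -
        ∑ e : Fin m, (if (e : ℕ) ≤ (a : ℕ) then M a e else 0) := by
      rw [← Finset.sum_sub_distrib, ← Finset.sum_sub_distrib]
      refine Finset.sum_congr rfl fun e _ => ?_
      by_cases he : (e : ℕ) ≤ (a : ℕ)
      · rw [if_pos he, if_pos he]
      · rw [if_neg he, if_neg he, hbig e he]
        ring
    have hN0 : (0 : ℝ) ≤ ∑ e : Fin m, (if (e : ℕ) ≤ (a : ℕ) then (N a e : ℝ) else 0) := by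
      refine Finset.sum_nonneg fun e _ => ?_
      split_ifs
      · exact Nat.cast_nonneg _
      · exact le_rfl
    have hM0 : (0 : ℝ) ≤ ∑ e : Fin m, (if (e : ℕ) ≤ (a : ℕ) then M a e else 0) := by
      refine Finset.sum_nonneg fun e _ => ?_
      split_ifs
      · rw [hM]
        positivity
      · exact le_rfl
    have hM1 : ∑ e : Fin m, (if (e : ℕ) ≤ (a : ℕ) then M a e else 0) ≤ q := by
      have h1 : ∑ e : Fin m, (if (e : ℕ) ≤ (a : ℕ) then M a e else 0) = ((x a).val : ℝ) *
          ∑ e : Fin m, (if (e : ℕ) ≤ (a : ℕ) then ((y e).val : ℝ) /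
            (q : ℝ) ^ ((a : ℕ) + 1 - (e : ℕ)) else 0) := by
        rw [Finset.mul_sum]
        refine Finset.sum_congr rfl fun e _ => ?_
        by_cases he : (e : ℕ) ≤ (a : ℕ)
        · rw [if_pos he, if_pos he, hM]
          simp only
          rw [div_eq_iff (pow_pos hq m).ne']
          have h5 : (q : ℝ) ^ m = (q : ℝ) ^ (m - 1 - (a : ℕ)) * (q : ℝ) ^ (e : ℕ) *
              (q : ℝ) ^ ((a : ℕ) + 1 - (e : ℕ)) := by
            rw [← pow_add, ← pow_add]
            congr 1
            omega
          rw [h5]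
          have h6 : (q : ℝ) ^ ((a : ℕ) + 1 - (e : ℕ)) ≠ 0 := (pow_pos hq _).ne'
          field_simp
        · rw [if_neg he, if_neg he, mul_zero]
      rw [h1]
      have h2 := h_geo y (a : ℕ)
      have h3 := h_val_le (x a)
      have h4 : (0 : ℝ) ≤ ((x a).val : ℝ) := Nat.cast_nonneg _
      nlinarith
    have hN1 : ∑ e : Fin m, (if (e : ℕ) ≤ (a : ℕ) then (N a e : ℝ) else 0) ≤ q := by
      -- the points with `e ≤ a`
      have h1 : ∑ e : Fin m, (if (e : ℕ) ≤ (a : ℕ) then (N a e : ℝ) else 0) =
          (((univ.filter fun e : Fin m => (e : ℕ) ≤ (a : ℕ)).biUnion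
            fun e => univ.filter fun n : V q m => Lx x n a ∧ Ly y n e).card : ℝ) := by
        rw [Finset.card_biUnion]
        · push_cast
          rw [Finset.sum_filter]
        · intro e _ e' _ hne
          rw [Function.onFun, Finset.disjoint_left]
          intro n hn hn'
          simp only [Finset.mem_filter, Finset.mem_univ, true_and] at hn hn'
          exact hne (h_Ly_unique hn.2 hn'.2)
      rw [h1]
      have h2 : (((univ.filter fun e : Fin m => (e : ℕ) ≤ (a : ℕ)).biUnion
            fun e => univ.filter fun n : V q m => Lx x n a ∧ Ly y n e).card) ≤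
            (univ : Finset (ZMod q)).card := by
        refine Finset.card_le_card_of_injOn (fun n => n a) (fun _ _ => Finset.mem_univ _) ?_
        intro n hn n' hn' hnn
        simp only [Finset.coe_biUnion, Set.mem_iUnion, Finset.coe_filter, Finset.mem_univ,
          true_and, Set.mem_ofPred_eq, exists_prop] at hn hn'
        obtain ⟨e, he, hx, hy⟩ := hn
        obtain ⟨e', he', hx', hy'⟩ := hn'
        funext l
        rcases lt_trichotomy l a with h | h | h
        · rw [hx.1 l h, hx'.1 l h]
        · rw [h]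
          exact hnn
        · have hl : (a : ℕ) < (l : ℕ) := h
          rw [hy.1 l (show (e : ℕ) < (l : ℕ) by omega), hy'.1 l (show (e' : ℕ) < (l : ℕ) by omega)]
      rw [Finset.card_univ, ZMod.card] at h2
      exact_mod_cast h2
    rw [hsplit, abs_le]
    constructor <;> linarith
  calc |∑ a : Fin m, (∑ e : Fin m, (N a e : ℝ) - ∑ e : Fin m, M a e)|
      ≤ ∑ a : Fin m, |∑ e : Fin m, (N a e : ℝ) - ∑ e : Fin m, M a e| :=
        Finset.abs_sum_le_sum_abs _ _
    _ ≤ ∑ _a : Fin m, (2 * (q : ℝ)) := Finset.sum_le_sum fun a _ => hrow a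
    _ = 2 * q * m := by
        rw [Finset.sum_const, Finset.card_univ, Fintype.card_fin, nsmul_eq_mul]
        ring

theorem t_H : S_H := by
  classical
  intro q _ m x y
  have h := h_main q m x y
  have e : ({n : V q m | (∃ a, Lx x n a) ∧ ∃ e, Ly y n e}.ncard : ℕ) =
      (univ.filter fun n : V q m => (∃ a, Lx x n a) ∧ ∃ e, Ly y n e).card := by
    rw [← Set.ncard_coe_finset]
    congr 1
    ext n
    simp
  rw [e]
  exact h

end

end Pool.Agent.Lib.MP_bd3044_co
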