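import Pool.Agent.Lib.MP_bd3044_co.Stm

set_option autoImplicit false

namespace Pool.Agent.Lib.MP_bd3044_co

open Finset

theorem i_XV_succ {q m : ℕ} (x : V q (m + 1)) :
    XV x = (x 0).val * q ^ m + XV (fun i : Fin m => x i.succ) := by
  unfold XV
  rw [Fin.sum_univ_succ]
  congr 1
  apply Finset.sum_congr rfl
  intro i _
  congr 2
  simp only [Fin.val_succ]
  omega

theorem i_XV_lt {q : ℕ} [Fact q.Prime] (m : ℕ) : ∀ x : V q m, XV x < q ^ m := by
  induction m with
  | zero =>
    intro x
    simp [XV]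
  | succ m ih =>
    intro x
    rw [i_XV_succ]
    have h1 := ih (fun i : Fin m => x i.succ)
    have h2 : (x 0).val + 1 ≤ q := ZMod.val_lt _
    calc (x 0).val * q ^ m + XV (fun i : Fin m => x i.succ) < (x 0).val * q ^ m + q ^ m := by
          omega
      _ = ((x 0).val + 1) * q ^ m := by ring
      _ ≤ q * q ^ m := Nat.mul_le_mul_right _ h2
      _ = q ^ (m + 1) := by ring

theorem i_Lx_succ {q m : ℕ} (x n : V q (m + 1)) :
    (∃ a, Lx x n a) ↔ ((n 0).val < (x 0).val ∨
      (n 0 = x 0 ∧ ∃ a, Lx (fun i : Fin m => x i.succ) (fun i : Fin m => n i.succ) a)) := by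
  constructor
  · rintro ⟨a, h1, h2⟩
    refine Fin.cases (motive := fun a => (∀ l < a, n l = x l) → (n a).val < (x a).val → _)
      ?_ ?_ a h1 h2
    · intro _ h
      exact Or.inl h
    · intro b h3 h4
      right
      refine ⟨h3 0 (Fin.succ_pos b), b, ?_, h4⟩
      intro l hl
      exact h3 l.succ (Fin.succ_lt_succ_iff.2 hl)
  · rintro (h | ⟨h0, a, h1, h2⟩)
    · exact ⟨0, fun l hl => absurd hl (Fin.not_lt_zero l), h⟩
    · refine ⟨a.succ, ?_, h2⟩
      intro l
      refine Fin.cases (motive := fun l => l < a.succ → n l = x l) ?_ ?_ l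
      · intro _
        exact h0
      · intro b hb
        exact h1 b (Fin.succ_lt_succ_iff.1 hb)

theorem i_mul_lt {a b c d Q : ℕ} (h : a < b) (hc : c < Q) : a * Q + c < b * Q + d := by
  have : (a + 1) * Q ≤ b * Q := Nat.mul_le_mul_right _ h
  have h2 : (a + 1) * Q = a * Q + Q := by ring
  omega

theorem i_XV_lt_iff {q : ℕ} [Fact q.Prime] (m : ℕ) :
    ∀ x n : V q m, XV n < XV x ↔ ∃ a, Lx x n a := by
  induction m with
  | zero =>
    intro x n
    constructor
    · intro h
      simp [XV] at h
    · rintro ⟨a, _⟩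
      exact a.elim0
  | succ m ih =>
    intro x n
    rw [i_XV_succ, i_XV_succ, i_Lx_succ, ← ih]
    have h1 := i_XV_lt m (fun i : Fin m => x i.succ)
    have h2 := i_XV_lt m (fun i : Fin m => n i.succ)
    rcases lt_trichotomy (n 0).val (x 0).val with h | h | h
    · constructor
      · intro _; exact Or.inl h
      · intro _; exact i_mul_lt h h2
    · have h0 : n 0 = x 0 := ZMod.val_injective q h
      constructor
      · intro h3
        right
        refine ⟨h0, ?_⟩
        rw [h] at h3
        omega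
      · rintro (h3 | ⟨_, h3⟩)
        · omega
        · rw [h]; omega
    · constructor
      · intro h3
        have := i_mul_lt (c := XV (fun i : Fin m => x i.succ)) (d := XV (fun i : Fin m => n i.succ))
          h h1
        omega
      · rintro (h3 | ⟨h3, _⟩)
        · omega
        · rw [h3] at h; exact absurd h (lt_irrefl _)

theorem i_XV_inj {q : ℕ} [Fact q.Prime] (m : ℕ) : ∀ x n : V q m, XV x = XV n → x = n := by
  induction m with
  | zero =>
    intro x n _
    funext i
    exact i.elim0
  | succ m ih =>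
    intro x n h
    rw [i_XV_succ, i_XV_succ] at h
    have h1 := i_XV_lt m (fun i : Fin m => x i.succ)
    have h2 := i_XV_lt m (fun i : Fin m => n i.succ)
    have h0 : (n 0).val = (x 0).val := by
      rcases lt_trichotomy (n 0).val (x 0).val with h3 | h3 | h3
      · have := i_mul_lt (c := XV (fun i : Fin m => n i.succ))
          (d := XV (fun i : Fin m => x i.succ)) h3 h2
        omega
      · exact h3
      · have := i_mul_lt (c := XV (fun i : Fin m => x i.succ))
          (d := XV (fun i : Fin m => n i.succ)) h3 h1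
        omega
    have h3 : XV (fun i : Fin m => x i.succ) = XV (fun i : Fin m => n i.succ) := by
      rw [h0] at h; omega
    have h4 := ih _ _ h3
    funext i
    refine Fin.cases ?_ ?_ i
    · exact (ZMod.val_injective q h0).symm
    · intro j
      exact congrFun h4 j

theorem i_XV_surj {q : ℕ} [Fact q.Prime] (m : ℕ) : ∀ N < q ^ m, ∃ x : V q m, XV x = N := by
  induction m with
  | zero =>
    intro N hN
    refine ⟨fun i => i.elim0, ?_⟩
    simp only [pow_zero] at hN
    simp [XV]
    omega
  | succ m ih =>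
    intro N hN
    have hq : 0 < q := (Fact.out : q.Prime).pos
    have hp : 0 < q ^ m := pow_pos hq m
    obtain ⟨x, hx⟩ := ih (N % q ^ m) (Nat.mod_lt _ hp)
    have hd : N / q ^ m < q := by
      rw [Nat.div_lt_iff_lt_mul hp]
      calc N < q ^ (m + 1) := hN
        _ = q * q ^ m := by ring
    refine ⟨Fin.cons ((N / q ^ m : ℕ) : ZMod q) x, ?_⟩
    rw [i_XV_succ]
    simp only [Fin.cons_zero, Fin.cons_succ]
    rw [hx, ZMod.val_natCast, Nat.mod_eq_of_lt hd]
    exact Nat.div_add_mod' N (q ^ m)

theorem i_YV_eq {q m : ℕ} (y : V q m) : YV y = XV (fun i => y (Fin.rev i)) := by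
  unfold YV XV
  rw [← Equiv.sum_comp Fin.revPerm]
  apply Finset.sum_congr rfl
  intro i _
  simp only [Fin.revPerm_apply, Fin.val_rev]
  congr 2
  omega

theorem i_Ly_iff {q m : ℕ} (y n : V q m) :
    (∃ e, Ly y n e) ↔ ∃ a, Lx (fun i => y (Fin.rev i)) (fun i => n (Fin.rev i)) a := by
  constructor
  · rintro ⟨e, h1, h2⟩
    refine ⟨Fin.rev e, ?_, ?_⟩
    · intro l hl
      apply h1
      rw [Fin.lt_def, Fin.val_rev] at *
      omega
    · simpa using h2
  · rintro ⟨a, h1, h2⟩
    refine ⟨Fin.rev a, ?_, h2⟩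
    intro l hl
    have := h1 (Fin.rev l) (by
      rw [Fin.lt_def, Fin.val_rev] at *
      omega)
    simpa using this

theorem t_I : S_I := by
  intro q _ m
  refine ⟨i_XV_lt_iff m, ?_, i_XV_lt m, ?_, ?_, ?_, i_XV_surj m, ?_, ?_⟩
  · intro y n
    rw [i_YV_eq, i_YV_eq, i_XV_lt_iff, i_Ly_iff]
  · intro y
    rw [i_YV_eq]
    exact i_XV_lt m _
  · intro x n h
    exact i_XV_inj m x n h
  · intro x n h
    rw [i_YV_eq, i_YV_eq] at h
    have := i_XV_inj m _ _ h
    funext i
    have h2 := congrFun this (Fin.rev i)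
    simpa using h2
  · intro N hN
    obtain ⟨x, hx⟩ := i_XV_surj m N hN
    refine ⟨fun i => x (Fin.rev i), ?_⟩
    rw [i_YV_eq]
    simpa using hx
  · intro z
    have hq : (q : ℝ) ≠ 0 := by
      have := (Fact.out : q.Prime).pos
      positivity
    unfold th XV
    push_cast
    rw [Finset.sum_div]
    apply Finset.sum_congr rfl
    intro l _
    rw [if_pos (Nat.zero_le _)]
    have hl := l.2
    have e1 : (q : ℝ) ^ m = (q : ℝ) ^ (m - 1 - (l : ℕ)) * (q : ℝ) ^ ((l : ℕ) - 0 + 1) := by
      rw [← pow_add]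
      congr 1
      omega
    rw [e1]
    field_simp

end Pool.Agent.Lib.MP_bd3044_co
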