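import Pool.Agent.Lib.MP_bd3044_co.Stm

set_option autoImplicit false

namespace Pool.Agent.Lib.MP_bd3044_co

open Finset

/-! Piece J: the net in integer coordinates. -/

section
variable {q m : ℕ}

open Classical in
lemma j_core [Fact q.Prime] (hm : 1 ≤ m) (r : ℕ → V q m) (s : ℕ → ZMod q) (R : ℝ)
    (hD : ∀ x y z : V q m, |D1 r s x y z| ≤ R) (hH : S_H) (hI : S_I)
    (A B C : ℕ) (hA : A < q ^ m) (hB : B < q ^ m) (hC : C < q ^ m) :
    |(({n : V q m | XV n < A ∧ YV n < B ∧ XV (fun j : Fin m => zt r s j n) < C}.ncard : ℕ) : ℝ)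
      - (A : ℝ) * B * C / (q : ℝ) ^ (2 * m)| ≤ R + 2 * q * m := by
  obtain ⟨hXlt, hYlt, hXb, hYb, hXinj, hYinj, hXsur, hYsur, hth⟩ := hI q m
  obtain ⟨x, hx⟩ := hXsur A hA
  obtain ⟨y, hy⟩ := hYsur B hB
  obtain ⟨z, hz⟩ := hXsur C hC
  have hq : (0 : ℝ) < q := by exact_mod_cast (Fact.out : q.Prime).pos
  have hqm : (0 : ℝ) < (q : ℝ) ^ m := by positivity
  have h1 : {n : V q m | XV n < A ∧ YV n < B ∧ XV (fun j : Fin m => zt r s j n) < C}
      = ((Finset.univ.filter (fun n : V q m => ((∃ a, Lx x n a) ∧ (∃ e, Ly y n e)) ∧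
          (∃ a, Lx z (fun j : Fin m => zt r s j n) a)) : Finset (V q m)) : Set (V q m)) := by
    ext n
    simp only [Set.mem_setOf_eq, Finset.coe_filter, Finset.mem_univ, true_and]
    rw [← hx, ← hy, ← hz, hXlt, hYlt, hXlt]
    tauto
  have h2 : {n : V q m | (∃ a, Lx x n a) ∧ ∃ e, Ly y n e}
      = ((Finset.univ.filter (fun n : V q m => (∃ a, Lx x n a) ∧ (∃ e, Ly y n e)) : Finset (V q m)) :
        Set (V q m)) := by
    ext n
    simp
  have hh := hH q m x y
  rw [h2, Set.ncard_coe_finset, hx, hy] at hh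
  rw [h1, Set.ncard_coe_finset]
  have e1 : ((Finset.univ.filter (fun n : V q m => ((∃ a, Lx x n a) ∧ (∃ e, Ly y n e)) ∧
          (∃ a, Lx z (fun j : Fin m => zt r s j n) a))).card : ℝ)
      = D1 r s x y z + th z 0 * ((Finset.univ.filter (fun n : V q m => (∃ a, Lx x n a) ∧ (∃ e, Ly y n e))).card : ℝ) := by
    have c1 : ((Finset.univ.filter (fun n : V q m => ((∃ a, Lx x n a) ∧ (∃ e, Ly y n e)) ∧
          (∃ a, Lx z (fun j : Fin m => zt r s j n) a))).card : ℝ)
        = ∑ n : V q m, if ((∃ a, Lx x n a) ∧ (∃ e, Ly y n e)) ∧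
          (∃ a, Lx z (fun j : Fin m => zt r s j n) a) then (1 : ℝ) else 0 := by
      rw [Finset.sum_boole]
    have c2 : ((Finset.univ.filter (fun n : V q m => (∃ a, Lx x n a) ∧ (∃ e, Ly y n e))).card : ℝ)
        = ∑ n : V q m, if (∃ a, Lx x n a) ∧ (∃ e, Ly y n e) then (1 : ℝ) else 0 := by
      rw [Finset.sum_boole]
    rw [c1, c2, Finset.mul_sum, D1, ← Finset.sum_add_distrib]
    apply Finset.sum_congr rfl
    intro n _
    by_cases d1 : (∃ a, Lx x n a) ∧ (∃ e, Ly y n e)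
    · by_cases d2 : ∃ a, Lx z (fun j : Fin m => zt r s j n) a
      · rw [if_pos ⟨d1, d2⟩, if_pos d1, if_pos d2, if_pos d1]
        ring
      · rw [if_neg (fun h => d2 h.2), if_pos d1, if_neg d2, if_pos d1]
        ring
    · rw [if_neg (fun h => d1 h.1), if_neg d1, if_neg d1]
      ring
  rw [e1, hth z, hz]
  set N2 : ℝ := ((Finset.univ.filter (fun n : V q m => (∃ a, Lx x n a) ∧ (∃ e, Ly y n e))).card : ℝ) with hN2
  have e2 : D1 r s x y z + (C : ℝ) / (q : ℝ) ^ m * N2 - (A : ℝ) * B * C / (q : ℝ) ^ (2 * m)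
      = D1 r s x y z + (C : ℝ) / (q : ℝ) ^ m * (N2 - (A : ℝ) * B / (q : ℝ) ^ m) := by
    have : (q : ℝ) ^ (2 * m) = (q : ℝ) ^ m * (q : ℝ) ^ m := by rw [two_mul, pow_add]
    rw [this]
    field_simp
    ring
  rw [e2]
  have hC0 : 0 ≤ (C : ℝ) / (q : ℝ) ^ m := by positivity
  have hC1 : (C : ℝ) / (q : ℝ) ^ m ≤ 1 := by
    rw [div_le_one hqm]
    exact_mod_cast hC.le
  calc |D1 r s x y z + (C : ℝ) / (q : ℝ) ^ m * (N2 - (A : ℝ) * B / (q : ℝ) ^ m)|
      ≤ |D1 r s x y z| + |(C : ℝ) / (q : ℝ) ^ m * (N2 - (A : ℝ) * B / (q : ℝ) ^ m)| := abs_add_le _ _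
    _ ≤ R + 2 * q * m := by
        apply add_le_add (hD x y z)
        rw [abs_mul, abs_of_nonneg hC0]
        calc (C : ℝ) / (q : ℝ) ^ m * |N2 - (A : ℝ) * B / (q : ℝ) ^ m|
            ≤ 1 * |N2 - (A : ℝ) * B / (q : ℝ) ^ m| := by
              apply mul_le_mul_of_nonneg_right hC1 (abs_nonneg _)
          _ ≤ 2 * q * m := by rw [one_mul]; exact hh

/-- replacing a bound `A ≤ Q` by `min A (Q-1)` -/
lemma j_trunc {α : Type*} [Finite α] (c : α → Fin 3 → ℕ) (Q : ℕ) (hQ : 1 ≤ Q)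
    (hinj : ∀ i, Function.Injective fun n => c n i) (hlt : ∀ n i, c n i < Q) (A : Fin 3 → ℕ)
    (hA : ∀ i, A i ≤ Q) :
    ({n | ∀ i, c n i < min (A i) (Q - 1)}.ncard ≤ {n | ∀ i, c n i < A i}.ncard) ∧
    {n | ∀ i, c n i < A i}.ncard ≤ {n | ∀ i, c n i < min (A i) (Q - 1)}.ncard + 3 := by
  have hfin : ∀ S : Set α, S.Finite := fun S => Set.toFinite S
  constructor
  · apply Set.ncard_le_ncard _ (hfin _)
    intro n hn i
    exact lt_of_lt_of_le (hn i) (min_le_left _ _)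
  · have hsub : {n | ∀ i, c n i < A i} ⊆ {n | ∀ i, c n i < min (A i) (Q - 1)} ∪
        ({n | c n 0 = Q - 1} ∪ ({n | c n 1 = Q - 1} ∪ {n | c n 2 = Q - 1})) := by
      intro n hn
      by_cases h : ∀ i, c n i < min (A i) (Q - 1)
      · exact Or.inl h
      · right
        push_neg at h
        obtain ⟨i, hi⟩ := h
        have h1 : c n i < A i := hn i
        have h2 : c n i < Q := hlt n i
        have h3 : c n i = Q - 1 := by
          rcases min_le_iff.mp hi with h | h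
          · omega
          · omega
        fin_cases i
        · exact Or.inl h3
        · exact Or.inr (Or.inl h3)
        · exact Or.inr (Or.inr h3)
    have hone : ∀ i, {n | c n i = Q - 1}.ncard ≤ 1 := by
      intro i
      rw [Set.ncard_le_one (hfin _)]
      intro a ha b hb
      exact hinj i (ha.trans hb.symm)
    calc {n | ∀ i, c n i < A i}.ncard
        ≤ ({n | ∀ i, c n i < min (A i) (Q - 1)} ∪
        ({n | c n 0 = Q - 1} ∪ ({n | c n 1 = Q - 1} ∪ {n | c n 2 = Q - 1}))).ncard :=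
          Set.ncard_le_ncard hsub (hfin _)
      _ ≤ {n | ∀ i, c n i < min (A i) (Q - 1)}.ncard +
          ({n | c n 0 = Q - 1} ∪ ({n | c n 1 = Q - 1} ∪ {n | c n 2 = Q - 1})).ncard := Set.ncard_union_le _ _
      _ ≤ {n | ∀ i, c n i < min (A i) (Q - 1)}.ncard + 3 := by
          have a1 := Set.ncard_union_le {n | c n 0 = Q - 1} ({n | c n 1 = Q - 1} ∪ {n | c n 2 = Q - 1})
          have a2 := Set.ncard_union_le {n | c n 1 = Q - 1} {n | c n 2 = Q - 1}
          have b0 := hone 0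
          have b1 := hone 1
          have b2 := hone 2
          omega

theorem t_J (hF : S_F) (hG : S_G) (hH : S_H) (hI : S_I) : S_J := by
  classical
  intro q _ m hm
  obtain ⟨r, s, hGd, hT⟩ := hF q m hm
  obtain ⟨hXlt, hYlt, hXb, hYb, hXinj, hYinj, hXsur, hYsur, hth⟩ := hI q m
  have hq : (0 : ℝ) < q := by exact_mod_cast (Fact.out : q.Prime).pos
  have hqn : 0 < q := (Fact.out : q.Prime).pos
  have hQ : 1 ≤ q ^ m := Nat.one_le_pow _ _ hqn
  have hWinj : Function.Injective (fun n : V q m => XV (fun j : Fin m => zt r s j n)) := by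
    intro n n' h
    have h1 := hXinj h
    have h2 : ∀ j < m, r j ⬝ᵥ (n - n') = 0 := by
      intro j hj
      have h3 := congrFun h1 ⟨j, hj⟩
      have h4 : r j ⬝ᵥ n + s j = r j ⬝ᵥ n' + s j := h3
      rw [dotProduct_sub, add_right_cancel h4, sub_self]
    have h3 := hGd m le_rfl 0 (by omega) (n - n') (fun l hl => by
      have := l.2
      rcases hl with hl | hl <;> omega) h2
    exact sub_eq_zero.mp h3
  refine ⟨fun n => ![XV n, YV n, XV (fun j : Fin m => zt r s j n)], ?_, ?_, ?_⟩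
  · intro i
    fin_cases i
    · exact hXinj
    · exact hYinj
    · exact hWinj
  · intro n i
    fin_cases i
    · exact hXb n
    · exact hYb n
    · exact hXb _
  · intro A hA
    have hinj : ∀ i, Function.Injective fun n : V q m =>
        (![XV n, YV n, XV (fun j : Fin m => zt r s j n)] : Fin 3 → ℕ) i := by
      intro i
      fin_cases i
      · exact hXinj
      · exact hYinj
      · exact hWinj
    have hlt : ∀ (n : V q m) (i : Fin 3),
        (![XV n, YV n, XV (fun j : Fin m => zt r s j n)] : Fin 3 → ℕ) i < q ^ m := by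
      intro n i
      fin_cases i
      · exact hXb n
      · exact hYb n
      · exact hXb _
    obtain ⟨t1, t2⟩ := j_trunc (fun n : V q m => ![XV n, YV n, XV (fun j : Fin m => zt r s j n)]) (q ^ m) hQ
      hinj hlt A hA
    set R : ℝ := 2 * (m : ℝ) ^ 2 + 18 * (q : ℝ) ^ 3 * (m * Real.sqrt m) with hR
    have hD : ∀ x y z : V q m, |D1 r s x y z| ≤ R := by
      intro x y z
      rw [hG.2 q m r s x y z hGd]
      exact hT x y z
    have hcore := j_core hm r s R hD hH hI (min (A 0) (q ^ m - 1)) (min (A 1) (q ^ m - 1))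
      (min (A 2) (q ^ m - 1)) (by omega) (by omega) (by omega)
    have hset : {n : V q m | ∀ i, (![XV n, YV n, XV (fun j : Fin m => zt r s j n)] : Fin 3 → ℕ) i
          < min (A i) (q ^ m - 1)}
        = {n : V q m | XV n < min (A 0) (q ^ m - 1) ∧ YV n < min (A 1) (q ^ m - 1) ∧
          XV (fun j : Fin m => zt r s j n) < min (A 2) (q ^ m - 1)} := by
      ext n
      simp only [Set.mem_setOf_eq, Fin.forall_fin_succ, Matrix.cons_val_zero, Matrix.cons_val_succ]
      simp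
    rw [hset] at t1 t2
    set N' := {n : V q m | XV n < min (A 0) (q ^ m - 1) ∧ YV n < min (A 1) (q ^ m - 1) ∧
          XV (fun j : Fin m => zt r s j n) < min (A 2) (q ^ m - 1)}.ncard with hN'
    set N := {n : V q m | ∀ i, (![XV n, YV n, XV (fun j : Fin m => zt r s j n)] : Fin 3 → ℕ) i < A i}.ncard
      with hN
    have t1' : (N' : ℝ) ≤ N := by exact_mod_cast t1
    have t2' : (N : ℝ) ≤ N' + 3 := by exact_mod_cast t2
    set Q : ℝ := (q : ℝ) ^ m with hQd
    have hQ0 : (0 : ℝ) < Q := by positivity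
    have hQ2 : (q : ℝ) ^ (2 * m) = Q * Q := by rw [two_mul, pow_add]
    -- the three factors
    have hfac : ∀ i, 0 ≤ ((min (A i) (q ^ m - 1) : ℕ) : ℝ) ∧ ((min (A i) (q ^ m - 1) : ℕ) : ℝ) ≤ Q ∧
        ((min (A i) (q ^ m - 1) : ℕ) : ℝ) ≤ A i ∧ (A i : ℝ) ≤ ((min (A i) (q ^ m - 1) : ℕ) : ℝ) + 1 ∧
        (A i : ℝ) ≤ Q := by
      intro i
      have h1 : min (A i) (q ^ m - 1) ≤ q ^ m := by omega
      have h2 : min (A i) (q ^ m - 1) ≤ A i := min_le_left _ _
      have h3 : A i ≤ min (A i) (q ^ m - 1) + 1 := by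
        have := hA i
        omega
      refine ⟨Nat.cast_nonneg _, ?_, ?_, ?_, ?_⟩
      · rw [hQd]; exact_mod_cast h1
      · exact_mod_cast h2
      · exact_mod_cast h3
      · rw [hQd]; exact_mod_cast hA i
    obtain ⟨a1, a2, a3, a4, a5⟩ := hfac 0
    obtain ⟨b1, b2, b3, b4, b5⟩ := hfac 1
    obtain ⟨c1, c2, c3, c4, c5⟩ := hfac 2
    set x0 : ℝ := ((min (A 0) (q ^ m - 1) : ℕ) : ℝ)
    set x1 : ℝ := ((min (A 1) (q ^ m - 1) : ℕ) : ℝ)
    set x2 : ℝ := ((min (A 2) (q ^ m - 1) : ℕ) : ℝ)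
    rw [Fin.prod_univ_three]
    rw [hQ2] at hcore ⊢
    have p1 : x0 * x1 * x2 ≤ (A 0 : ℝ) * A 1 * A 2 := by
      apply mul_le_mul (mul_le_mul a3 b3 b1 (a1.trans a3)) c3 c1
      exact mul_nonneg (a1.trans a3) (b1.trans b3)
    have p2 : (A 0 : ℝ) * A 1 * A 2 ≤ x0 * x1 * x2 + 3 * (Q * Q) := by
      have s1 : (A 0 : ℝ) * A 1 * A 2 - x0 * A 1 * A 2 ≤ Q * Q := by
        have : (A 0 : ℝ) * A 1 * A 2 - x0 * A 1 * A 2 = (A 0 - x0) * (A 1 * A 2) := by ring
        rw [this]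
        have u1 : (A 0 : ℝ) - x0 ≤ 1 := by linarith
        have u2 : (A 1 : ℝ) * A 2 ≤ Q * Q := mul_le_mul b5 c5 (c1.trans c3) hQ0.le
        have u3 : (0 : ℝ) ≤ (A 1 : ℝ) * A 2 := mul_nonneg (b1.trans b3) (c1.trans c3)
        have u4 : 0 ≤ (A 0 : ℝ) - x0 := by linarith
        nlinarith
      have s2 : x0 * A 1 * A 2 - x0 * x1 * A 2 ≤ Q * Q := by
        have : x0 * A 1 * A 2 - x0 * x1 * A 2 = (A 1 - x1) * (x0 * A 2) := by ring
        rw [this]
        have u1 : (A 1 : ℝ) - x1 ≤ 1 := by linarith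
        have u2 : x0 * A 2 ≤ Q * Q := mul_le_mul a2 c5 (c1.trans c3) hQ0.le
        have u3 : (0 : ℝ) ≤ x0 * A 2 := mul_nonneg a1 (c1.trans c3)
        have u4 : 0 ≤ (A 1 : ℝ) - x1 := by linarith
        nlinarith
      have s3 : x0 * x1 * A 2 - x0 * x1 * x2 ≤ Q * Q := by
        have : x0 * x1 * A 2 - x0 * x1 * x2 = (A 2 - x2) * (x0 * x1) := by ring
        rw [this]
        have u1 : (A 2 : ℝ) - x2 ≤ 1 := by linarith
        have u2 : x0 * x1 ≤ Q * Q := mul_le_mul a2 b2 b1 hQ0.le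
        have u3 : (0 : ℝ) ≤ x0 * x1 := mul_nonneg a1 b1
        have u4 : 0 ≤ (A 2 : ℝ) - x2 := by linarith
        nlinarith
      linarith
    have hQQ : (0 : ℝ) < Q * Q := by positivity
    have p1' : x0 * x1 * x2 / (Q * Q) ≤ (A 0 : ℝ) * A 1 * A 2 / (Q * Q) := by
      apply div_le_div_of_nonneg_right p1 hQQ.le
    have p2' : (A 0 : ℝ) * A 1 * A 2 / (Q * Q) ≤ x0 * x1 * x2 / (Q * Q) + 3 := by
      rw [div_le_iff₀ hQQ, add_mul, div_mul_cancel₀ _ hQQ.ne']
      exact p2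
    rw [abs_le] at hcore ⊢
    constructor <;> linarith [hcore.1, hcore.2]

end

end Pool.Agent.Lib.MP_bd3044_co
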