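import Pool.Agent.Lib.MP_bd3044_co.Stm

/-! Piece K. -/

set_option autoImplicit false

namespace Pool.Agent.Lib.MP_bd3044_co

open Finset

open Classical in
private lemma k_ncard {α : Type} [Fintype α] (S : Set α) :
    ((S.ncard : ℕ) : ℝ) = ∑ n : α, if n ∈ S then (1 : ℝ) else 0 := by
  rw [Set.ncard_eq_toFinset_card', sum_boole]
  congr 2
  ext n
  simp

open Classical in
private lemma k_F {q m : ℕ} [NeZero q] (c : V q m → Fin 3 → ℕ) (E : Fin 3 → ℕ) :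
    (({n : V q m | ∀ i, c n i < E i}.ncard : ℕ) : ℝ) =
      ∑ n : V q m, (if c n 0 < E 0 then (1 : ℝ) else 0) * (if c n 1 < E 1 then 1 else 0) *
        (if c n 2 < E 2 then 1 else 0) := by
  rw [k_ncard]
  apply sum_congr rfl
  intro n _
  simp only [Set.mem_ofPred_eq, Fin.forall_fin_succ, Fin.succ_zero_eq_one, Fin.succ_one_eq_two,
    IsEmpty.forall_iff, and_true]
  by_cases h0 : c n 0 < E 0
  · by_cases h1 : c n 1 < E 1
    · by_cases h2 : c n 2 < E 2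
      · simp [h0, h1, h2]
      · simp [h0, h1, h2]
    · simp [h0, h1]
  · simp [h0]

/-- one corner -/
private lemma k_corner {D X : ℝ} (hD : 0 < D) (hX : 0 ≤ X) (hXD : X ^ 2 = D) (d : Fin 3 → ℝ)
    (hd : ∀ i, 0 ≤ d i ∧ d i ≤ X) (E : Fin 3 → ℕ)
    (hE : ∀ i, d i * D ≤ E i ∧ (E i : ℝ) ≤ d i * D + 1 ∧ (E i : ℝ) ≤ X * D) :
    |(E 0 : ℝ) * E 1 * E 2 / D ^ 3 - d 0 * d 1 * d 2| ≤ 3 := by
  have key : ∀ i, d i ≤ E i / D ∧ (E i : ℝ) / D - d i ≤ 1 / D ∧ (E i : ℝ) / D ≤ X := by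
    intro i
    obtain ⟨h1, h2, h3⟩ := hE i
    refine ⟨?_, ?_, ?_⟩
    · rw [le_div_iff₀ hD]; exact h1
    · rw [sub_le_iff_le_add, div_le_iff₀ hD]
      have : (1 / D + d i) * D = 1 + d i * D := by field_simp
      rw [this]
      linarith
    · rw [div_le_iff₀ hD]; exact h3
  have e1 : (E 0 : ℝ) * E 1 * E 2 / D ^ 3 = (E 0 / D) * (E 1 / D) * (E 2 / D) := by
    field_simp
  rw [e1]
  obtain ⟨e, he⟩ : ∃ e : Fin 3 → ℝ, ∀ i, e i = E i / D := ⟨fun i => E i / D, fun i => rfl⟩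
  rw [← he, ← he, ← he]
  have h0 := key 0
  have h1 := key 1
  have h2 := key 2
  rw [← he] at h0 h1 h2
  have hd0 := hd 0
  have hd1 := hd 1
  have hd2 := hd 2
  have e2 : e 0 * e 1 * e 2 - d 0 * d 1 * d 2 =
      (e 0 - d 0) * (e 1 * e 2) + (e 1 - d 1) * (d 0 * e 2) + (e 2 - d 2) * (d 0 * d 1) := by ring
  have hb : ∀ t u v : ℝ, 0 ≤ t → t ≤ 1 / D → 0 ≤ u → u ≤ X → 0 ≤ v → v ≤ X →
      0 ≤ t * (u * v) ∧ t * (u * v) ≤ 1 := by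
    intro t u v ht0 ht1 hu0 hu1 hv0 hv1
    refine ⟨by positivity, ?_⟩
    calc t * (u * v) ≤ (1 / D) * (X * X) := by gcongr
      _ = 1 := by rw [← hXD]; have : X ≠ 0 := by rintro rfl; norm_num at hXD; linarith
                  field_simp
  have a1 := hb (e 0 - d 0) (e 1) (e 2) (by linarith) h0.2.1 (by linarith) h1.2.2 (by linarith) h2.2.2
  have a2 := hb (e 1 - d 1) (d 0) (e 2) (by linarith) h1.2.1 hd0.1 hd0.2 (by linarith) h2.2.2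
  have a3 := hb (e 2 - d 2) (d 0) (d 1) (by linarith) h2.2.1 hd0.1 hd0.2 hd1.1 hd1.2
  rw [e2, abs_le]
  constructor <;> linarith

/-- indicator of a half open interval -/
private lemma k_ind (c : ℕ) {D a b : ℝ} (hD : 0 < D) (hab : a ≤ b) :
    (if a ≤ (c : ℝ) / D ∧ (c : ℝ) / D < b then (1 : ℝ) else 0) =
      (if c < ⌈b * D⌉₊ then 1 else 0) - (if c < ⌈a * D⌉₊ then 1 else 0) := by
  have h1 : ∀ t : ℝ, c < ⌈t * D⌉₊ ↔ (c : ℝ) / D < t := by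
    intro t
    rw [Nat.lt_ceil, div_lt_iff₀ hD]
  rw [if_congr (h1 b) rfl rfl, if_congr (h1 a) rfl rfl]
  by_cases hb : (c : ℝ) / D < b
  · by_cases ha : (c : ℝ) / D < a
    · have : ¬ (a ≤ (c : ℝ) / D) := not_le.2 ha
      simp [hb, ha, this]
    · have : a ≤ (c : ℝ) / D := not_lt.1 ha
      simp [hb, ha, this]
  · have ha : ¬ ((c : ℝ) / D < a) := fun h => hb (lt_of_lt_of_le h hab)
    simp [hb, ha]

/-- one box -/
private lemma k_box {q m : ℕ} [NeZero q] (c : V q m → Fin 3 → ℕ) {D X R0 : ℝ} (hD : 0 < D)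
    (hX : 0 ≤ X) (hXD : X ^ 2 = D) (hm : (q : ℝ) ^ m = X * D) (hm2 : (q : ℝ) ^ (2 * m) = D ^ 3)
    (hc : ∀ A : Fin 3 → ℕ, (∀ i, A i ≤ q ^ m) →
      |(({n : V q m | ∀ i, c n i < A i}.ncard : ℕ) : ℝ) - (∏ i, (A i : ℝ)) / (q : ℝ) ^ (2 * m)| ≤ R0)
    (a b : Fin 3 → ℝ) (hab : ∀ i, 0 ≤ a i ∧ a i ≤ b i ∧ b i ≤ X) :
    |(({n : V q m | ∀ i, a i ≤ (c n i : ℝ) / D ∧ (c n i : ℝ) / D < b i}.ncard : ℕ) : ℝ)
      - ∏ i, (b i - a i)| ≤ 8 * (R0 + 3) := by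
  classical
  have hcor : ∀ d : Fin 3 → ℝ, (∀ i, 0 ≤ d i ∧ d i ≤ X) →
      |(∑ n : V q m, (if c n 0 < ⌈d 0 * D⌉₊ then (1 : ℝ) else 0) *
        (if c n 1 < ⌈d 1 * D⌉₊ then 1 else 0) * (if c n 2 < ⌈d 2 * D⌉₊ then 1 else 0))
        - d 0 * d 1 * d 2| ≤ R0 + 3 := by
    intro d hd
    have hE : ∀ i, d i * D ≤ (⌈d i * D⌉₊ : ℝ) ∧ ((⌈d i * D⌉₊ : ℕ) : ℝ) ≤ d i * D + 1 ∧
        ((⌈d i * D⌉₊ : ℕ) : ℝ) ≤ X * D := by
      intro i
      refine ⟨Nat.le_ceil _, (Nat.ceil_lt_add_one (mul_nonneg (hd i).1 hD.le)).le, ?_⟩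
      rw [← hm]
      have h1 : ⌈d i * D⌉₊ ≤ q ^ m := by
        rw [Nat.ceil_le]
        push_cast
        rw [hm]
        exact mul_le_mul_of_nonneg_right (hd i).2 hD.le
      exact_mod_cast h1
    have h1 := hc (fun i => ⌈d i * D⌉₊) (fun i => by
      have := (hE i).2.2
      rw [← hm] at this
      exact_mod_cast this)
    rw [k_F, Fin.prod_univ_three, hm2] at h1
    have h2 := k_corner hD hX hXD d hd (fun i => ⌈d i * D⌉₊) hE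
    calc _ ≤ _ := abs_sub_le _ (((⌈d 0 * D⌉₊ : ℕ) : ℝ) * (⌈d 1 * D⌉₊ : ℕ) * (⌈d 2 * D⌉₊ : ℕ) / D ^ 3) _
      _ ≤ R0 + 3 := add_le_add h1 h2
  have hcount : (({n : V q m | ∀ i, a i ≤ (c n i : ℝ) / D ∧ (c n i : ℝ) / D < b i}.ncard : ℕ) : ℝ) =
      ∑ n : V q m,
        ((if c n 0 < ⌈b 0 * D⌉₊ then (1 : ℝ) else 0) - (if c n 0 < ⌈a 0 * D⌉₊ then 1 else 0)) *
        ((if c n 1 < ⌈b 1 * D⌉₊ then (1 : ℝ) else 0) - (if c n 1 < ⌈a 1 * D⌉₊ then 1 else 0)) *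
        ((if c n 2 < ⌈b 2 * D⌉₊ then (1 : ℝ) else 0) - (if c n 2 < ⌈a 2 * D⌉₊ then 1 else 0)) := by
    rw [k_ncard]
    apply sum_congr rfl
    intro n _
    rw [← k_ind (c n 0) hD (hab 0).2.1, ← k_ind (c n 1) hD (hab 1).2.1,
      ← k_ind (c n 2) hD (hab 2).2.1]
    have e : (n ∈ {n : V q m | ∀ i, a i ≤ (c n i : ℝ) / D ∧ (c n i : ℝ) / D < b i}) ↔
        ((a 0 ≤ (c n 0 : ℝ) / D ∧ (c n 0 : ℝ) / D < b 0) ∧
        (a 1 ≤ (c n 1 : ℝ) / D ∧ (c n 1 : ℝ) / D < b 1) ∧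
        (a 2 ≤ (c n 2 : ℝ) / D ∧ (c n 2 : ℝ) / D < b 2)) := by
      constructor
      · intro h
        exact ⟨h 0, h 1, h 2⟩
      · rintro ⟨h0, h1, h2⟩ i
        fin_cases i
        · exact h0
        · exact h1
        · exact h2
    by_cases h0 : a 0 ≤ (c n 0 : ℝ) / D ∧ (c n 0 : ℝ) / D < b 0
    · by_cases h1 : a 1 ≤ (c n 1 : ℝ) / D ∧ (c n 1 : ℝ) / D < b 1
      · by_cases h2 : a 2 ≤ (c n 2 : ℝ) / D ∧ (c n 2 : ℝ) / D < b 2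
        · rw [if_pos h0, if_pos h1, if_pos h2, if_pos (e.2 ⟨h0, h1, h2⟩), one_mul, one_mul]
        · rw [if_neg h2, if_neg (fun h => h2 (e.1 h).2.2), mul_zero]
      · rw [if_neg h1, if_neg (fun h => h1 (e.1 h).2.1), mul_zero, zero_mul]
    · rw [if_neg h0, if_neg (fun h => h0 (e.1 h).1), zero_mul, zero_mul]
  obtain ⟨S, hS⟩ : ∃ S : ℝ → ℝ → ℝ → ℝ, ∀ x y z, S x y z =
      ∑ n : V q m, (if c n 0 < ⌈x * D⌉₊ then (1 : ℝ) else 0) *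
        (if c n 1 < ⌈y * D⌉₊ then 1 else 0) * (if c n 2 < ⌈z * D⌉₊ then 1 else 0) :=
    ⟨fun x y z => _, fun x y z => rfl⟩
  have hexp : (({n : V q m | ∀ i, a i ≤ (c n i : ℝ) / D ∧ (c n i : ℝ) / D < b i}.ncard : ℕ) : ℝ) =
      S (b 0) (b 1) (b 2) - S (a 0) (b 1) (b 2) - S (b 0) (a 1) (b 2) - S (b 0) (b 1) (a 2)
        + S (a 0) (a 1) (b 2) + S (a 0) (b 1) (a 2) + S (b 0) (a 1) (a 2)
        - S (a 0) (a 1) (a 2) := by
    rw [hcount]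
    simp only [hS, ← sum_sub_distrib, ← sum_add_distrib]
    apply sum_congr rfl
    intro n _
    ring
  have hco : ∀ x y z : ℝ, (0 ≤ x ∧ x ≤ X) → (0 ≤ y ∧ y ≤ X) → (0 ≤ z ∧ z ≤ X) →
      |S x y z - x * y * z| ≤ R0 + 3 := by
    intro x y z hx hy hz
    have h := hcor ![x, y, z] (by
      intro i
      fin_cases i
      · exact hx
      · exact hy
      · exact hz)
    rw [hS]
    exact h
  have ha : ∀ i, 0 ≤ a i ∧ a i ≤ X := fun i => ⟨(hab i).1, (hab i).2.1.trans (hab i).2.2⟩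
  have hb : ∀ i, 0 ≤ b i ∧ b i ≤ X := fun i => ⟨(hab i).1.trans (hab i).2.1, (hab i).2.2⟩
  have c1 := abs_le.1 (hco _ _ _ (hb 0) (hb 1) (hb 2))
  have c2 := abs_le.1 (hco _ _ _ (ha 0) (hb 1) (hb 2))
  have c3 := abs_le.1 (hco _ _ _ (hb 0) (ha 1) (hb 2))
  have c4 := abs_le.1 (hco _ _ _ (hb 0) (hb 1) (ha 2))
  have c5 := abs_le.1 (hco _ _ _ (ha 0) (ha 1) (hb 2))
  have c6 := abs_le.1 (hco _ _ _ (ha 0) (hb 1) (ha 2))
  have c7 := abs_le.1 (hco _ _ _ (hb 0) (ha 1) (ha 2))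
  have c8 := abs_le.1 (hco _ _ _ (ha 0) (ha 1) (ha 2))
  rw [hexp, Fin.prod_univ_three, abs_le]
  have ep : (b 0 - a 0) * (b 1 - a 1) * (b 2 - a 2) =
      b 0 * b 1 * b 2 - a 0 * b 1 * b 2 - b 0 * a 1 * b 2 - b 0 * b 1 * a 2
        + a 0 * a 1 * b 2 + a 0 * b 1 * a 2 + b 0 * a 1 * a 2 - a 0 * a 1 * a 2 := by ring
  rw [ep]
  constructor
  · linarith [c1.1, c2.2, c3.2, c4.2, c5.1, c6.1, c7.1, c8.2]
  · linarith [c1.2, c2.1, c3.1, c4.1, c5.2, c6.2, c7.2, c8.1]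

theorem t_K (hJ : S_J) : S_K := by
  classical
  intro hmain
  obtain ⟨C, hC, hx⟩ := hmain 3 le_rfl
  -- the prime
  obtain ⟨q, hq1, hq⟩ := Nat.exists_infinite_primes (⌈Real.exp (Real.sqrt (216 / C))⌉₊ + 2)
  have : Fact q.Prime := ⟨hq⟩
  have hq2 : 2 ≤ q := hq.two_le
  have hqR : (2 : ℝ) ≤ q := by exact_mod_cast hq2
  have hlog : 216 ≤ C * (Real.log q) ^ 2 := by
    have h1 : Real.exp (Real.sqrt (216 / C)) ≤ q := by
      refine (Nat.le_ceil _).trans ?_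
      exact_mod_cast (by omega : ⌈Real.exp (Real.sqrt (216 / C))⌉₊ ≤ q)
    have h2 : Real.sqrt (216 / C) ≤ Real.log q := by
      rw [← Real.log_exp (Real.sqrt (216 / C))]
      exact Real.log_le_log (Real.exp_pos _) h1
    have h3 : 216 / C ≤ (Real.log q) ^ 2 := by
      calc 216 / C = (Real.sqrt (216 / C)) ^ 2 := (Real.sq_sqrt (by positivity)).symm
        _ ≤ (Real.log q) ^ 2 := pow_le_pow_left₀ (Real.sqrt_nonneg _) h2 2
    rw [div_le_iff₀ hC] at h3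
    linarith
  -- the parameters
  obtain ⟨h, hh⟩ : ∃ h : ℕ, h = 1200 * q ^ 6 := ⟨_, rfl⟩
  obtain ⟨m, hm⟩ : ∃ m : ℕ, m = 3 * h := ⟨_, rfl⟩
  have hqpos : 0 < q := by omega
  have hh1 : 1 ≤ h := by
    rw [hh]
    have : 0 < q ^ 6 := pow_pos hqpos 6
    omega
  have hm1 : 1 ≤ m := by omega
  have hms : (m : ℝ) = (60 * (q : ℝ) ^ 3) ^ 2 := by
    rw [hm, hh]; push_cast; ring
  have hsq : Real.sqrt m = 60 * (q : ℝ) ^ 3 := by
    rw [hms]; exact Real.sqrt_sq (by positivity)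
  obtain ⟨c, hinj, hlt, hbd⟩ := hJ q m hm1
  obtain ⟨D, hDdef⟩ : ∃ D : ℝ, D = (q : ℝ) ^ (2 * h) := ⟨_, rfl⟩
  obtain ⟨X, hXdef⟩ : ∃ X : ℝ, X = (q : ℝ) ^ h := ⟨_, rfl⟩
  have hD : 0 < D := by rw [hDdef]; positivity
  have hX0 : 0 ≤ X := by rw [hXdef]; positivity
  have hXD : X ^ 2 = D := by rw [hXdef, hDdef, ← pow_mul, mul_comm]
  have hmX : (q : ℝ) ^ m = X * D := by rw [hXdef, hDdef, ← pow_add, hm]; congr 1; ring
  have hm2 : (q : ℝ) ^ (2 * m) = D ^ 3 := by rw [hDdef, ← pow_mul, hm]; congr 1; ring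
  have hX2 : 2 ≤ X := by
    rw [hXdef]
    calc (2 : ℝ) ≤ q := hqR
      _ = (q : ℝ) ^ 1 := (pow_one _).symm
      _ ≤ (q : ℝ) ^ h := pow_le_pow_right₀ (by linarith) hh1
  have hFinj : Function.Injective (fun (n : V q m) (i : Fin 3) => (c n i : ℝ) / D) := by
    intro n n' hnn
    apply hinj 0
    have h1 := congrFun hnn 0
    simp only at h1
    rw [div_left_inj' hD.ne'] at h1
    exact_mod_cast h1
  obtain ⟨a, b, hab, hbig⟩ := hx X hX2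
    ((univ : Finset (V q m)).image (fun n i => (c n i : ℝ) / D)) (by
      intro p hp i
      obtain ⟨n, _, rfl⟩ := mem_image.1 hp
      refine ⟨by positivity, ?_⟩
      rw [div_lt_iff₀ hD, ← hmX]
      exact_mod_cast hlt n i)
  have hset : ((((univ : Finset (V q m)).image (fun n i => (c n i : ℝ) / D) :
      Finset (Fin 3 → ℝ)) : Set (Fin 3 → ℝ)) ∩
        {p : Fin 3 → ℝ | ∀ i, a i ≤ p i ∧ p i < b i}) =
      (fun (n : V q m) (i : Fin 3) => (c n i : ℝ) / D) ''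
        {n : V q m | ∀ i, a i ≤ (c n i : ℝ) / D ∧ (c n i : ℝ) / D < b i} := by
    ext p
    constructor
    · rintro ⟨h1, h2⟩
      obtain ⟨n, _, rfl⟩ := mem_image.1 (mem_coe.1 h1)
      exact ⟨n, h2, rfl⟩
    · rintro ⟨n, h2, rfl⟩
      exact ⟨mem_coe.2 (mem_image.2 ⟨n, mem_univ _, rfl⟩), h2⟩
  rw [hset, Set.ncard_image_of_injective _ hFinj] at hbig
  have hbox := k_box c hD hX0 hXD hmX hm2 hbd a b hab
  have hlogX : Real.log X = h * Real.log q := by rw [hXdef, Real.log_pow]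
  have hnum : 8 * (2 * (m : ℝ) ^ 2 + 18 * (q : ℝ) ^ 3 * (m * Real.sqrt m) + 2 * q * m + 6 + 3) ≤
      24 * (m : ℝ) ^ 2 := by
    rw [hsq, hms]
    obtain ⟨Q, hQ⟩ : ∃ Q : ℝ, Q = (q : ℝ) ^ 3 := ⟨_, rfl⟩
    rw [← hQ]
    have hQ8 : (q : ℝ) ≤ Q := by
      rw [hQ]
      calc (q : ℝ) = (q : ℝ) ^ 1 := (pow_one _).symm
        _ ≤ (q : ℝ) ^ 3 := pow_le_pow_right₀ (by linarith) (by norm_num)
    have hQ2 : 2 ≤ Q := by linarith
    have e1 : 2 * (q : ℝ) * (60 * Q) ^ 2 ≤ 2 * Q * (60 * Q) ^ 2 := by gcongr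
    have e4 : 0 < Q ^ 3 := by positivity
    have e5 : 8 ≤ Q ^ 3 := by
      calc (8 : ℝ) = 2 ^ 3 := by norm_num
        _ ≤ Q ^ 3 := pow_le_pow_left₀ (by norm_num) hQ2 3
    have e6 : Q ^ 3 * 2 ≤ Q ^ 3 * Q := mul_le_mul_of_nonneg_left hQ2 e4.le
    nlinarith [e1, e5, e6]
  have hfin : 24 * (m : ℝ) ^ 2 ≤ C * Real.log X ^ (3 - 1) := by
    have e1 : C * Real.log X ^ (3 - 1) = (C * (Real.log q) ^ 2) * (h : ℝ) ^ 2 := by
      rw [hlogX]; norm_num; ring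
    have e2 : (m : ℝ) = 3 * h := by rw [hm]; push_cast; ring
    rw [e1, e2]
    have e3 : 216 * (h : ℝ) ^ 2 ≤ (C * (Real.log q) ^ 2) * (h : ℝ) ^ 2 :=
      mul_le_mul_of_nonneg_right hlog (by positivity)
    linarith
  exact absurd (lt_of_lt_of_le hbig (hbox.trans (hnum.trans hfin))) (lt_irrefl _)

end Pool.Agent.Lib.MP_bd3044_co
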