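import Mathlib

/-!
# MP_bd3044_co (frozen S11120): definitions and pieces

For `k = 3` the discrepancy bound `c (log x)^2` is false for small `c`: random digital nets over `ZMod q`, `q` a large prime.
The points are `n : Fin m → ZMod q`; the digits of the first coordinate of `n` are `n 0, n 1, ..` (most significant first), those
of the second coordinate `n (m-1), n (m-2), ..`, those of the third `zt r s j n = r j ⬝ᵥ n + s j`, `j = 0, 1, ..`.
A corner of a box is given by three digit vectors `x`, `y`, `z` (`x`, `z`: index `0` most significant; `y`: index `m-1` most significant).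
Paper proof: team-store `MP_bd3044_proof.md`.
-/

set_option autoImplicit false

namespace Pool.Agent.Lib.MP_bd3044_co

open Finset

/-- points, digit vectors -/
abbrev V (q m : ℕ) := Fin m → ZMod q

section
variable {q m : ℕ}

/-- `n` is supported in `[a, a+k)` -/
def Win (a k : ℕ) (n : V q m) : Prop := ∀ l : Fin m, (l : ℕ) < a ∨ a + k ≤ (l : ℕ) → n l = 0

/-- the rows `r 0, .., r (k-1)` are independent on every window of length `k` -/
def Gd (r : ℕ → V q m) (k : ℕ) : Prop :=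
  ∀ a, a + k ≤ m → ∀ n : V q m, Win a k n → (∀ j < k, r j ⬝ᵥ n = 0) → n = 0

/-- digit `j` of the third coordinate of `n` -/
def zt (r : ℕ → V q m) (s : ℕ → ZMod q) (j : ℕ) (n : V q m) : ZMod q := r j ⬝ᵥ n + s j

/-- the digit vector `z` as a function on `ℕ` -/
def zz (z : V q m) (j : ℕ) : ZMod q := if h : j < m then z ⟨j, h⟩ else 0

/-- the third coordinate of `n` starts with the first `k` digits of `z` -/
def Az (r : ℕ → V q m) (s : ℕ → ZMod q) (z : V q m) (k : ℕ) (n : V q m) : Prop :=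
  ∀ j < k, zt r s j n = zz z j

/-- `n` is smaller than `x` in the first coordinate, first difference at `a` -/
def Lx (x n : V q m) (a : Fin m) : Prop := (∀ l < a, n l = x l) ∧ (n a).val < (x a).val

/-- `n` is smaller than `y` in the second coordinate, first difference (from the right) at `e` -/
def Ly (y n : V q m) (e : Fin m) : Prop := (∀ l, e < l → n l = y l) ∧ (n e).val < (y e).val

/-- the tail `0.z_k z_{k+1} ..` -/
noncomputable def th (z : V q m) (k : ℕ) : ℝ :=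
  ∑ l : Fin m, if k ≤ (l : ℕ) then ((z l).val : ℝ) / (q : ℝ) ^ ((l : ℕ) - k + 1) else 0

/-- the function `u_k` on the digits -/
noncomputable def u (z : V q m) (k : ℕ) (w : ZMod q) : ℝ :=
  (if w.val < (zz z k).val then 1 else 0) - ((zz z k).val : ℝ) / q
    + th z (k + 1) * ((if w = zz z k then 1 else 0) - 1 / q)

open Classical in
/-- level `k` of the discrepancy function -/
noncomputable def T [NeZero q] (r : ℕ → V q m) (s : ℕ → ZMod q) (x y z : V q m) (k : ℕ) : ℝ :=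
  ∑ n : V q m, if (∃ a e : Fin m, (e : ℕ) ≤ (a : ℕ) + k + 1 ∧ Lx x n a ∧ Ly y n e) ∧ Az r s z k n
    then u z k (zt r s k n) else 0

open Classical in
/-- discrepancy function in the third coordinate -/
noncomputable def D1 [NeZero q] (r : ℕ → V q m) (s : ℕ → ZMod q) (x y z : V q m) : ℝ :=
  ∑ n : V q m, if (∃ a, Lx x n a) ∧ (∃ e, Ly y n e)
    then (if ∃ a, Lx z (fun j : Fin m => zt r s j n) a then 1 else 0) - th z 0 else 0

/-- value of a digit vector, index `0` most significant -/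
def XV (x : V q m) : ℕ := ∑ l : Fin m, (x l).val * q ^ (m - 1 - (l : ℕ))

/-- value of a digit vector, index `m-1` most significant -/
def YV (y : V q m) : ℕ := ∑ l : Fin m, (y l).val * q ^ (l : ℕ)

/-- `rho_a = rho_0 + sum_{b<a} sigma_b t_b` -/
def rho (σ : ℕ → ZMod q) (w : ZMod q) (t : ℕ → ZMod q) (a : ℕ) : ZMod q := w + ∑ b ∈ range a, σ b * t b

/-- a vector as a function on `ℕ` -/
def ext {M : ℕ} (t : Fin M → ZMod q) (a : ℕ) : ZMod q := if h : a < M then t ⟨a, h⟩ else 0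

/-- the abstract form of level `k` -/
noncomputable def Psi (M : ℕ) (f : ZMod q → ℝ) (σ : ℕ → ZMod q) (FS : ℕ → Finset (ZMod q × ZMod q))
    (OS : ℕ → Finset (ZMod q)) (w : ZMod q) (t : ℕ → ZMod q) : ℝ :=
  ∑ a ∈ range M, ((∑ p ∈ FS a, f (rho σ w t a + p.1 * t a + p.2 * t (a + 1)))
    + ∑ κ ∈ OS a, f (rho σ w t a + κ * t a))

end

/-! ## Pieces -/

/-- [DC A] Exponential moment of the abstract level.  Deliver `A.lean`, `theorem t_A : S_A`.
PROOF. Write `E` for the average over one nonzero `t`: `(q-1)⁻¹ ∑_{t ≠ 0}`. As `∑ f = 0`: `E f (w + κ t) = -(q-1)⁻¹ f w` if `κ ≠ 0`, `= f w` if `κ = 0`.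
For `a` put `H_a (ρ, t) = -(q-1)⁻¹ ∑_{p ∈ FS a} f (ρ + p.1 t)`. Facts: (i) `E_{t'} ∑_{p ∈ FS a} f (ρ + p.1 t + p.2 t') = H_a (ρ, t)` (`p.2 ≠ 0`).
(ii) `|E_t H_a (ρ, t)| ≤ 2`: pairs with `p.1 ≠ 0` (at most `(q-1)^2`, since `p.2 ≠ 0`) contribute `(q-1)⁻² f ρ` each, pairs with `p.1 = 0` (at most `q-1`) contribute `-(q-1)⁻¹ f ρ`; `|f| ≤ 1`.
(iii) `|E_t ∑_{κ ∈ OS a} f (ρ + κ t)| ≤ 1` (`κ ≠ 0`, at most `q-1` of them). (iv) `|∑_{p ∈ FS a} f ..| ≤ q(q-1)`, `|H_a| ≤ q`, `|∑_{κ ∈ OS a} ..| ≤ q - 1`.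
Induction on the number of variables, from the end (or: peel off the first variable with `Fin.cons`, data shifted by one). CLAIM: for all `ρ, t` and data with `m` further variables `t_1, .., t_m` (pending set `FS0` for the pair `(t, t_1)`, then
`OS 1, FS 1, OS 2, ..`, last `FS` empty): `E exp(lam * (∑_{FS0} f(ρ + p.1 t + p.2 t_1) + ∑_{OS 1} .. + ∑_{FS 1} .. + ..)) ≤ exp(lam * H_0(ρ,t)) * B^m`, `B = 1 + 3|lam| + 9 q^4 lam^2`. Step: average over `t_2, ..` first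
(induction hypothesis for `ρ_1 = ρ + σ t`, `t_1`): remaining exponent `lam * (∑_{FS0} f (ρ + p.1 t + p.2 t_1) + ∑_{OS 1} f (ρ_1 + κ t_1) + H_1 (ρ_1, t_1)) = lam * H_0 + lam * Z`, with `|E_{t_1} Z| ≤ 0 + 1 + 2` and `|Z| ≤ q(q-1) + q + (q-1) + q ≤ 3 q^2`, so `|lam Z| ≤ 1` and
`exp(lam Z) ≤ 1 + lam Z + (lam Z)^2` (`Real.abs_exp_sub_one_sub_id_le` or similar), average `≤ 1 + 3|lam| + 9 q^4 lam^2 = B ≤ exp(3|lam| + 9 q^4 lam^2)`. If no variable is left: the pending set is empty, `H = 0`. At the start the pending set is empty. -/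
def S_A : Prop :=
  ∀ (q : ℕ) [Fact q.Prime] (M : ℕ) (f : ZMod q → ℝ) (σ : ℕ → ZMod q)
    (FS : ℕ → Finset (ZMod q × ZMod q)) (OS : ℕ → Finset (ZMod q)) (w : ZMod q) (lam : ℝ),
    ∑ v, f v = 0 → (∀ v, |f v| ≤ 1) → (∀ a, ∀ p ∈ FS a, p.2 ≠ 0) → (∀ a, ∀ κ ∈ OS a, κ ≠ 0) →
    (∀ a, M ≤ a + 1 → FS a = ∅) → |lam| * (3 * (q : ℝ) ^ 2) ≤ 1 →
    (∑ t : Fin M → ZMod q, if ∀ a, t a ≠ 0 then Real.exp (lam * Psi M f σ FS OS w (ext t)) else 0) ≤
      ((q : ℝ) - 1) ^ M * Real.exp (M * (3 * |lam| + 9 * (q : ℝ) ^ 4 * lam ^ 2))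

/-- [DC B] Fibres of a triangular system.  Deliver `B.lean`, `theorem t_B : S_B`.
PROOF. The linear (additive) map `L : ρ ↦ (ρ ⬝ᵥ g a)_a` from `V` to `Fin M → ZMod q` is onto: for `ρ` supported on the first `M` coordinates the matrix `(g a l)_{a, l < M}` is upper triangular with nonzero diagonal (`Matrix.det_of_upperTriangular`), or solve
for `ρ (M-1), .., ρ 0` successively. All fibres of an onto homomorphism of finite groups have the same size, so `q^m / q^M = q^(m-M)` elements (`AddMonoidHom.card_fiber_eq_of_mem_range` or a direct argument: `∑_ρ h (L ρ) = ∑_t card (fibre t) * h t`). -/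
def S_B : Prop :=
  ∀ (q : ℕ) [Fact q.Prime] (m M : ℕ) (g : Fin M → V q m), M ≤ m →
    (∀ (a : Fin M) (l : Fin m), (l : ℕ) < a → g a l = 0) →
    (∀ (a : Fin M) (l : Fin m), (l : ℕ) = a → g a l ≠ 0) →
    ∀ h : (Fin M → ZMod q) → ℝ,
      ∑ ρ : V q m, h (fun a => ρ ⬝ᵥ g a) = (q : ℝ) ^ (m - M) * ∑ t : Fin M → ZMod q, h t

/-- the vectors `g_a` of level `k` -/
def IsG {q m : ℕ} (r : ℕ → V q m) (k : ℕ) (g : ℕ → V q m) : Prop :=
  ∀ a, a + k < m → Win a (k + 1) (g a) ∧ (∀ j < k, r j ⬝ᵥ g a = 0) ∧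
    (∀ l : Fin m, (l : ℕ) = a → g a l ≠ 0) ∧ (∀ l : Fin m, (l : ℕ) = a + k → g a l ≠ 0)

/-- [DC C] The vectors `g_a`.  Deliver `C.lean`, `theorem t_C : S_C`.
PROOF. (1) The vectors supported in `[a, a+k]` form a space of dimension `k+1`, the map to `(ZMod q)^k`, `n ↦ (r j ⬝ᵥ n)_{j<k}` has a nonzero kernel vector `g` (`LinearMap.exists_ne_zero..`/`finrank`, e.g. the linear map `(Fin (k+1) → ZMod q) → (Fin k → ZMod q)`, then
extend by zero). If `g_a = 0` at `a` then `g` is supported in `[a+1, a+1+k)`, so `g = 0` by `Gd r k`; if `g = 0` at `a+k` it is supported in `[a, a+k)`: same. (2) If `ρ ⬝ᵥ g a = 0` for some `a` then `g a` violates `Gd .. (k+1)`. Conversely let `n` be supported in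
`[a, a+k+1)` and orthogonal to all rows `≤ k`; `n - c • g a` with `c = n_a / (g a)_a` is supported in `[a+1, a+1+k)` and orthogonal to the rows `< k`, so it is `0` (`a+1+k ≤ m`); `0 = ρ ⬝ᵥ n = c * (ρ ⬝ᵥ g a)` so `c = 0`. (3) Same computation: a kernel vector supported in `[a,a+k]` is a multiple of `g a`. -/
def S_C : Prop :=
  ∀ (q : ℕ) [Fact q.Prime] (m : ℕ) (r : ℕ → V q m) (k : ℕ), k < m → Gd r k →
    (∃ g, IsG r k g) ∧
    (∀ g, IsG r k g → ∀ ρ : V q m,
      (Gd (Function.update r k ρ) (k + 1) ↔ ∀ a, a + k < m → ρ ⬝ᵥ g a ≠ 0)) ∧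
    (∀ g, IsG r k g → ∀ a, a + k < m → ∀ n : V q m, Win a (k + 1) n → (∀ j < k, r j ⬝ᵥ n = 0) →
      ∃ c : ZMod q, n = c • g a)

/-- [DC D] Points of level `k` in terms of the `g_a`.  Deliver `D.lean`, `theorem t_D (hC : S_C) : S_D`.
PROOF. `M = m - k`. (0) For `a ≤ M` there is exactly one `Q_a` with `Az r s z k`, `Q_a l = x l` for `l < a`, `Q_a l = y l` for `l ≥ a+k`: uniqueness is `Gd r k` applied to the difference (window `[a, a+k)`); existence: the linear map `n ↦ (r j ⬝ᵥ n)_{j<k}` on vectors supported in `[a,a+k)`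
(dimension `k`) is injective, hence onto. (Only rows and shifts `< k` are used, so everything is the same for `update r k ρ`, `update s k s'`.) (1) `Q_{a+1} - Q_a` is a kernel vector supported in `[a, a+k]`, so `= σ_a g_a` (S_C (3)); hence with `t_a = ρ ⬝ᵥ g a`: `zt_k (Q_a) = ρ ⬝ᵥ Q_a + s' = rho σ (ρ ⬝ᵥ Q_0 + s') t a`.
(2) In `T` each `n` has exactly one `a` (`Lx`) and one `e` (`Ly`). Type F, `e = a+k+1` (so `a + 1 < M`): `n - Q_a` is a kernel vector supported in `[a, a+k+1]`; `κ' = (n_e - y_e) / (g (a+1))_e ≠ 0`; `n - Q_a - κ' g_{a+1}` is supported in `[a, a+k]`, so `n = Q_a + κ g_a + κ' g_{a+1}`.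
`FS a` = set of the pairs `(κ, κ')` for which `Q_a + κ g_a + κ' g_{a+1}` is such a point (`Lx x n a`, `Ly y n e`, `e = a+k+1`; it automatically satisfies `Az`); the map `(κ, κ') ↦ n` is injective (look at the coordinates `a` and `a+k+1`). Type O, `e = a+k` (`a < M`): `n = Q_a + κ g_a`, `κ = (n_e - y_e)/(g_a)_e ≠ 0`; `OS a` similarly.
(3) Type B, `e < a+k`: if `a ≤ M` then `n = Q_a` (`n l = y l` for `l ≥ a+k > e`), if `a > M` then `n = Q_M` (`a + k > m`). So these `n` are among `Q_0, .., Q_M`: at most `M+1` points, each contributes at most `1` in absolute value (`|u| ≤ 1`, see S_G (1)). -/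
def S_D : Prop :=
  ∀ (q : ℕ) [Fact q.Prime] (m : ℕ) (r : ℕ → V q m) (s : ℕ → ZMod q) (k : ℕ) (g : ℕ → V q m)
    (x y z : V q m), k < m → Gd r k → IsG r k g →
    ∃ (Q : V q m) (σ : ℕ → ZMod q) (FS : ℕ → Finset (ZMod q × ZMod q)) (OS : ℕ → Finset (ZMod q)),
      (∀ a, ∀ p ∈ FS a, p.2 ≠ 0) ∧ (∀ a, ∀ κ ∈ OS a, κ ≠ 0) ∧ (∀ a, m - k ≤ a + 1 → FS a = ∅) ∧
      ∀ (ρ : V q m) (v : ZMod q) (t : ℕ → ZMod q), (∀ a, a + k < m → t a = ρ ⬝ᵥ g a) →
        |T (Function.update r k ρ) (Function.update s k v) x y z k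
          - Psi (m - k) (u z k) σ FS OS (ρ ⬝ᵥ Q + v) t| ≤ ((m - k : ℕ) : ℝ) + 1

/-- [DC E] One level.  Deliver `E.lean`, `theorem t_E (hA : S_A) (hB : S_B) (hC : S_C) (hD : S_D) (hG : S_G) : S_E`.
PROOF. `M = m - k`, `g` from `S_C`, `Q, σ, FS, OS` from `S_D`. For fixed `ρ` substitute `w = ρ ⬝ᵥ Q + v` for `v`. The condition `Gd ..` is `∀ a < M, ρ ⬝ᵥ g a ≠ 0` (`S_C` (2)). `exp (lam T) ≤ exp (lam Psi) * exp (|lam| (M+1))` by `S_D`. So the sum is at most
`exp (|lam|(M+1)) ∑_w ∑_ρ h_w ((ρ ⬝ᵥ g a)_a)`, `h_w t = if ∀ a, t a ≠ 0 then exp (lam Psi(w, ext t)) else 0`, `= exp(..) ∑_w q^k ∑_t h_w t` (`S_B`, `m - M = k`) `≤ exp(..) * q * q^k * (q-1)^M * exp (M (3|lam| + 9 q^4 lam^2))` (`S_A`, with `f = u z k`, `S_G` (1)). Similarly the number of good pairs is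
`q * q^k * (q-1)^M > 0` (`S_B` with the indicator; `∑_{t} [∀ a, t a ≠ 0] = (q-1)^M`). -/
def S_E : Prop :=
  ∀ (q : ℕ) [Fact q.Prime] (m : ℕ) (r : ℕ → V q m) (s : ℕ → ZMod q) (k : ℕ), k < m → Gd r k →
    0 < (open Classical in
      ∑ p : V q m × ZMod q, if Gd (Function.update r k p.1) (k + 1) then (1 : ℝ) else 0) ∧
    ∀ (x y z : V q m) (lam : ℝ), |lam| * (3 * (q : ℝ) ^ 2) ≤ 1 →
      (open Classical in
      ∑ p : V q m × ZMod q, if Gd (Function.update r k p.1) (k + 1) then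
        Real.exp (lam * T (Function.update r k p.1) (Function.update s k p.2) x y z k) else 0) ≤
      (open Classical in
      ∑ p : V q m × ZMod q, if Gd (Function.update r k p.1) (k + 1) then (1 : ℝ) else 0) *
        Real.exp (((m - k : ℕ) : ℝ) * (4 * |lam| + 9 * (q : ℝ) ^ 4 * lam ^ 2) + |lam|)

/-- [DC F] Existence of the net.  Deliver `F.lean`, `theorem t_F (hE : S_E) : S_F`.
PROOF. `T r s x y z j` depends only on `r i`, `s i`, `i ≤ j`. Let `S_k = ∑_{j<k} T_j`, `B_k = ∑_{j<k} ((m-j)(4 lam + 9 q^4 lam^2) + lam)`, `lam = 1/(3 q^2 √m)`. Induction on `k ≤ m`: there are `r, s` with `Gd r c` for all `c ≤ k` and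
`∑_{x,y,z} (exp(lam S_k) + exp(-lam S_k)) ≤ 2 q^(3m) exp B_k`. Step: for `p = (ρ, v)` with `Gd (update r k ρ) (k+1)` the new sum is `∑_{xyz} (exp(lam S_k) exp(lam T_k(p)) + ..)`; summed over the good `p`, by `S_E` (for `lam` and `-lam`) it is at most (number of good `p`) * exp(B_{k+1} - B_k) * (old sum), so some good `p`
satisfies the claim (`Finset.exists_le_of_sum_le` or by contradiction). (`Gd (update r k ρ) c` for `c ≤ k` is `Gd r c`.) `k = m`: for every `x,y,z`: `lam |S_m| ≤ log 2 + 3 m log q + B_m`, `B_m = m(m+1)/2 (4 lam + 9 q^4 lam^2) + m lam`, so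
`|S_m| ≤ 3 q^2 √m (1 + 3 m log q) + 2 m (m+1) + m^2 * 9 q^4 lam + m ≤ 2 m^2 + (3 + 3 q^2 + 9 q^2 log q + 3 q^2) m √m ≤ 2 m^2 + 18 q^3 m √m` (`log q ≤ q - 1`). -/
def S_F : Prop :=
  ∀ (q : ℕ) [Fact q.Prime] (m : ℕ), 1 ≤ m → ∃ (r : ℕ → V q m) (s : ℕ → ZMod q),
    (∀ c ≤ m, Gd r c) ∧ ∀ x y z : V q m,
      |∑ k ∈ range m, T r s x y z k| ≤ 2 * (m : ℝ) ^ 2 + 18 * (q : ℝ) ^ 3 * (m * Real.sqrt m)

/-- [DC G] Decomposition of the discrepancy function.  Deliver `G.lean`, `theorem t_G : S_G`, or `theorem t_G (hC : S_C) : S_G`.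
PROOF. (1) `0 ≤ th z (k+1) ≤ 1` (geometric series, digits `≤ q-1`); `∑_w u z k w = 0`: `#{w : w.val < Z} = Z` for `Z < q` and exactly one `w` equals `zz z k`; `|u| ≤ 1`: three cases `w.val <, =, > (zz z k).val`, with `Z = (zz z k).val ≤ q - 1`.
(2) `th z k = ((zz z k).val + th z (k+1))/q` for `k < m`, `th z m = 0`. For a digit vector `v : Fin m → ZMod q` (`v j = zt r s j n`) put `e_k = (if (v_k, v_{k+1}, ..) is lexicographically smaller than (z_k, ..) then 1 else 0) - th z k`. Then `e_k = u z k (v_k) + (if v_k = z_k then e_{k+1} else 0)`, `e_m = 0`.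
So `(if ∃ a, Lx z v a then 1 else 0) - th z 0 = e_0 = ∑_{k<m} (if ∀ j<k, v_j = z_j then u z k (v_k) else 0)`. (3) Sum over `n` with `Lx x n a`, `Ly y n e` (each such `n` has one `a` and one `e`) and exchange: `D1 = ∑_k ∑_{a,e} ∑_{n : Lx, Ly, Az k} u z k (zt k n)`. For `e > a+k+1` the inner sum is `0`: there is `g ≠ 0` supported in
`[a+1, a+k+2) ` (`a+k+2 ≤ e < m`) with `r j ⬝ᵥ g = 0` for `j < k` and `b = r k ⬝ᵥ g ≠ 0` (S_C (1) for `k`, then `Gd r (k+1)`); `n ↦ n + c g` is a permutation of the set of these `n` and adds `c b` to the digit `k`; averaging over `c ∈ ZMod q` gives `0` by `∑ u = 0`. The remaining terms are `T`. -/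
def S_G : Prop :=
  (∀ (q : ℕ) [Fact q.Prime] (m : ℕ) (z : V q m) (k : ℕ),
    ∑ w, u z k w = 0 ∧ ∀ w, |u z k w| ≤ 1) ∧
  (∀ (q : ℕ) [Fact q.Prime] (m : ℕ) (r : ℕ → V q m) (s : ℕ → ZMod q) (x y z : V q m),
    (∀ c ≤ m, Gd r c) → D1 r s x y z = ∑ k ∈ range m, T r s x y z k)

/-- [DC H] The two-dimensional part.  Deliver `H.lean`, `theorem t_H : S_H`.
PROOF. Each `n` with `∃ a, Lx x n a`, `∃ e, Ly y n e` has exactly one `a` and one `e`. For `a < e` the number of `n` with `Lx x n a`, `Ly y n e` is `x_a y_e q^(e-a-1)` (`x_a = (x a).val`): the coordinates `l < a` and `l > e` are fixed, `n_a` has `x_a` values, `n_e` has `y_e` values, the others are free.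
`XV x * YV y / q^m = ∑_{a,e} x_a y_e q^(m-1-a+e-m) `, the terms with `a < e` agree with the counts. Terms with `e ≤ a`: at most `∑_a ∑_{e ≤ a} (q-1)^2 q^(e-a-1) ≤ m (q-1)`. Points with `e ≤ a`: if `e < a` then `n l = x l` for `l < a` and `n l = y l` for `l ≥ a`, so `n` is determined by `a`: at most `m`; if `e = a`:
all coordinates except `n_a` are fixed: at most `m (q-1)`. Total difference at most `m q + m (q-1) ≤ 2 q m`. -/
def S_H : Prop :=
  ∀ (q : ℕ) [Fact q.Prime] (m : ℕ) (x y : V q m),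
    |(({n : V q m | (∃ a, Lx x n a) ∧ ∃ e, Ly y n e}.ncard : ℕ) : ℝ)
      - (XV x : ℝ) * (YV y : ℝ) / (q : ℝ) ^ m| ≤ 2 * q * m

/-- [DC I] Digits and values.  Deliver `I.lean`, `theorem t_I : S_I`.
PROOF. Induction on `m` (`Fin.sum_univ_succ`, `Fin.sum_univ_castSucc`) or `Nat.ofDigits`: `XV x < q^m`; if the first difference of `n` and `x` is at `a` then `XV n < XV x` iff `(n a).val < (x a).val`, because the lower digits contribute less than `q^(m-1-a)`. `XV`, `YV` are injective maps from a set with `q^m` elements to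
`[0, q^m)`, hence onto. `th z 0 = XV z / q^m`: `q^(m-1-l) / q^m = 1/q^(l+1)`. -/
def S_I : Prop :=
  ∀ (q : ℕ) [Fact q.Prime] (m : ℕ),
    (∀ x n : V q m, XV n < XV x ↔ ∃ a, Lx x n a) ∧ (∀ y n : V q m, YV n < YV y ↔ ∃ e, Ly y n e) ∧
    (∀ x : V q m, XV x < q ^ m) ∧ (∀ y : V q m, YV y < q ^ m) ∧
    Function.Injective (XV : V q m → ℕ) ∧ Function.Injective (YV : V q m → ℕ) ∧
    (∀ N < q ^ m, ∃ x : V q m, XV x = N) ∧ (∀ N < q ^ m, ∃ y : V q m, YV y = N) ∧
    (∀ z : V q m, th z 0 = (XV z : ℝ) / (q : ℝ) ^ m)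

/-- [DC J] The net in integer coordinates.  Deliver `J.lean`, `theorem t_J (hF : S_F) (hG : S_G) (hH : S_H) (hI : S_I) : S_J`.
PROOF. `r, s` from `S_F`; `x n = XV n`, `y n = YV n`, `w n = XV (fun j => zt r s j n)`; `w` is injective: if `zt r s j n = zt r s j n'` for all `j < m` then `r j ⬝ᵥ (n - n') = 0` for all `j < m`, so `n = n'` by `Gd r m` (`a = 0`). For `A, B, C < q^m` take the digit vectors `x, y, z` (`S_I`); the number of `n` with `XV n < A`, `YV n < B`, `w n < C`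
minus `A B C / q^(2m)` is `D1 + (#{n : XV n < A, YV n < B} - A B / q^m) * C / q^m`, at most `2 m^2 + 18 q^3 m √m + 2 q m` in absolute value. If some of `A, B, C` is `q^m`, replace it by `q^m - 1`: by injectivity the count changes by at most `1` each, and the product by at most `1` each: `+ 6`. -/
def S_J : Prop :=
  ∀ (q : ℕ) [Fact q.Prime] (m : ℕ), 1 ≤ m →
    ∃ c : V q m → Fin 3 → ℕ, (∀ i, Function.Injective fun n => c n i) ∧ (∀ n i, c n i < q ^ m) ∧
      ∀ A : Fin 3 → ℕ, (∀ i, A i ≤ q ^ m) →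
        |(({n : V q m | ∀ i, c n i < A i}.ncard : ℕ) : ℝ) - (∏ i, (A i : ℝ)) / (q : ℝ) ^ (2 * m)| ≤
          2 * (m : ℝ) ^ 2 + 18 * (q : ℝ) ^ 3 * (m * Real.sqrt m) + 2 * q * m + 6

/-- [DC K] The frozen statement.  Deliver `K.lean`, `theorem t_K (hJ : S_J) : S_K`.
PROOF. Let `c` be the constant for `k = 3`. Choose a prime `q` with `c (log q)^2 ≥ 216` (`Nat.exists_infinite_primes`) and `m ≥ 3` with `18 q^3 m √m + 2 q m + 15 ≤ m^2`. `X = q^(m/3)` (real power) `≥ 2`, `δ = q^(-2m/3)`, so `δ q^m = X`, `δ^3 q^(2m) = 1`. `P` = the points `δ c n`, `n : V q m` (`Finset.image`; injective). For a box `[a,b)`: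
`δ c n i < b i ↔ c n i < ⌈b i / δ⌉₊`. For a corner `d` (`0 ≤ d i ≤ X`), `A i = ⌈d i/δ⌉₊ ≤ q^m`, `0 ≤ A i - d i / δ ≤ 1`: `|∏ A i / q^(2m) - ∏ d i| ≤ 3` (each factor over `q^m` is in `[0,1]`). So the number `N(d)` of points with all coordinates `< d i` satisfies `|N(d) - ∏ d i| ≤ R + 9`,
`R = 2 m^2 + 18 q^3 m √m + 2 q m`. The number of points in `[a,b)` is the alternating sum of the `8` numbers `N(d)`, `d i ∈ {a i, b i}` (indicator of `a ≤ t < b` = indicator of `t < b` minus indicator of `t < a`; expand the product over `Fin 3`), and `∏ (b i - a i)` is the same alternating sum of the `∏ d i`: total error `≤ 8 (R + 9)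
≤ 8 * 3 m^2 = 24 m^2 ≤ c (m log q / 3)^2 = c (log X)^(3-1)`. Contradiction. -/
def S_K : Prop :=
  ¬ (∀ k : ℕ, 3 ≤ k → ∃ c : ℝ, 0 < c ∧
      ∀ x : ℝ, 2 ≤ x → ∀ P : Finset (Fin k → ℝ),
        (∀ p ∈ P, ∀ i, 0 ≤ p i ∧ p i < x) →
        ∃ a b : Fin k → ℝ, (∀ i, 0 ≤ a i ∧ a i ≤ b i ∧ b i ≤ x) ∧
          c * Real.log x ^ (k - 1) <
            |((((P : Set (Fin k → ℝ)) ∩
                {p : Fin k → ℝ | ∀ i, a i ≤ p i ∧ p i < b i}).ncard : ℕ) : ℝ)
              - ∏ i, (b i - a i)|)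

end Pool.Agent.Lib.MP_bd3044_co
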